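import Pool.Agent.H848R3.NJ.Defs

/-!
Compact matrix quantum groups and characters, for C*-algebras of operators on Hilbert spaces
`ℓ²(X)`.
-/

set_option autoImplicit false

open H584BuDefs H848NJ

namespace Pool.Agent.N16.CMDefs

/-- `α` restricts to a character of `A`, that is a unital `*`-homomorphism `A → ℂ` (values outside
`A` are irrelevant). -/
structure IsChar {X : Type} (A : Set (Op X)) (α : Op X → ℂ) : Prop where
  one : α 1 = 1
  add : ∀ a ∈ A, ∀ b ∈ A, α (a + b) = α a + α b
  smul : ∀ c : ℂ, ∀ a ∈ A, α (c • a) = c * α a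
  mul : ∀ a ∈ A, ∀ b ∈ A, α (a * b) = α a * α b
  adj : ∀ a ∈ A, α (star a) = (starRingEnd ℂ) (α a)

/-- `u` is an `n`-dimensional unitary corepresentation of `(H, Δ)`: a unitary `n × n` matrix over
`H` with `Δ(u i j) = ∑ k, u i k ⊗ u k j`. -/
structure IsUnitaryCorep {Y : Type} {n : ℕ} (H : Set (Op Y)) (Δ : Op Y → Op (Y × Y))
    (u : Fin n → Fin n → Op Y) : Prop where
  mem : ∀ i j, u i j ∈ H
  left : ∀ i j, ∑ k, star (u k i) * u k j = if i = j then 1 else 0
  right : ∀ i j, ∑ k, u i k * star (u j k) = if i = j then 1 else 0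
  comul : ∀ i j y z y' z', coeff (Δ (u i j)) (y, z) (y', z') =
    ∑ k, coeff (u i k) y y' * coeff (u k j) z z'

/-- The C*-algebra generated by the entries of `u`: the intersection of all unital C*-algebras of
operators that contain them. -/
def cgen {Y : Type} {n : ℕ} (u : Fin n → Fin n → Op Y) : Set (Op Y) :=
  {h | ∀ B : Set (Op Y), IsCAlg B → (∀ i j, u i j ∈ B) → h ∈ B}

/-- The matrices `α(u)`, where `α` runs through the characters of the C*-algebra generated by the
entries of `u`.  A character of this C*-algebra is determined by its matrix. -/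
def charMats {Y : Type} {n : ℕ} (u : Fin n → Fin n → Op Y) : Set (Fin n → Fin n → ℂ) :=
  {g | ∃ α : Op Y → ℂ, IsChar (cgen u) α ∧ ∀ i j, α (u i j) = g i j}

/-- `(H, Δ)` has a finite-dimensional unitary corepresentation `u`, not the identity matrix, such
that the C*-algebra generated by the entries of `u` either is all of `H` or has only finitely many
characters. -/
def HasGoodCorep {Y : Type} (H : Set (Op Y)) (Δ : Op Y → Op (Y × Y)) : Prop :=
  ∃ (n : ℕ) (u : Fin n → Fin n → Op Y), IsUnitaryCorep H Δ u ∧
    (∃ i j, u i j ≠ if i = j then 1 else 0) ∧ (cgen u = H ∨ (charMats u).Finite)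

end Pool.Agent.N16.CMDefs
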