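import Pool.Agent.N16.Final

/-!
A compact quantum group with a bounded character has a bounded counit.
-/

set_option autoImplicit false
set_option linter.unusedSectionVars false

open scoped InnerProductSpace ComplexConjugate Topology
open H584BuDefs
open H584Bu (tn tn_entry tn_mul tn_one tn_star tn_smul_left tn_smul_right tn_add_left tn_add_right
  isTensor_iff coeff_eq tens_csub tens_le cspan_le
  tn_mem_tens CSub op_ext entry_one entry_add entry_smul entry_zero norm_entry_le norm_tn)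
open H584Roe (entry)
open H848NJ (sl sl_entry sl_tn sl_mem norm_le_of_isHom tens_calg cont_of_isHom hom_zero slice_compat
  IsEquivToJoin QGroup FreeAction HasEquivToJoin)
open Pool.Agent.N16.Slice Pool.Agent.N16.States Pool.Agent.N16.Top Pool.Agent.N16.Mats
open Pool.Agent.N16.Num Pool.Agent.N16.Vec Pool.Agent.N16.Path Pool.Agent.N16.Eq
open Pool.Agent.N16.Main Pool.Agent.N16.CMDefs

noncomputable section

namespace Pool.Agent.N16.Ellis

section Dens

variable {X Y Z : Type} [DecidableEq X] [DecidableEq Y]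

/-- Two continuous linear maps that agree on elementary tensors. -/
theorem ext_tens {A : Set (Op X)} {H : Set (Op Y)} (hT : IsCAlg (tens A H)) {F G : Op (X × Y) → Op Z}
    (hFc : ContinuousOn F (tens A H)) (hGc : ContinuousOn G (tens A H))
    (hFa : ∀ S ∈ tens A H, ∀ T ∈ tens A H, F (S + T) = F S + F T)
    (hGa : ∀ S ∈ tens A H, ∀ T ∈ tens A H, G (S + T) = G S + G T)
    (hFs : ∀ c : ℂ, ∀ T ∈ tens A H, F (c • T) = c • F T)
    (hGs : ∀ c : ℂ, ∀ T ∈ tens A H, G (c • T) = c • G T)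
    (h : ∀ a ∈ A, ∀ b ∈ H, F (tn a b) = G (tn a b)) : ∀ T ∈ tens A H, F T = G T := by
  have hclosed : IsClosed (tens A H ∩ (fun T => F T - G T) ⁻¹' {0}) :=
    (hFc.sub hGc).preimage_isClosed_of_isClosed (tens_csub A H).closed isClosed_singleton
  have hle : tens A H ⊆ tens A H ∩ (fun T => F T - G T) ⁻¹' {0} := by
    refine tens_le ⟨⟨(tens_csub A H).zero, ?_⟩, ?_, ?_, hclosed⟩ ?_
    · have e : (0 : Op (X × Y)) = (0 : ℂ) • 0 := by rw [zero_smul]
      simp only [Set.mem_preimage, Set.mem_singleton_iff]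
      rw [e, hFs 0 0 (tens_csub A H).zero, hGs 0 0 (tens_csub A H).zero, zero_smul, zero_smul,
        sub_zero]
    · rintro S ⟨hS, hS2⟩ T ⟨hT1, hT2⟩
      refine ⟨(tens_csub A H).add S hS T hT1, ?_⟩
      simp only [Set.mem_preimage, Set.mem_singleton_iff, sub_eq_zero] at hS2 hT2 ⊢
      rw [hFa S hS T hT1, hGa S hS T hT1, hS2, hT2]
    · rintro c S ⟨hS, hS2⟩
      refine ⟨(tens_csub A H).smul c S hS, ?_⟩
      simp only [Set.mem_preimage, Set.mem_singleton_iff, sub_eq_zero] at hS2 ⊢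
      rw [hFs c S hS, hGs c S hS, hS2]
    · intro a ha b hb
      refine ⟨tn_mem_tens ha hb, ?_⟩
      simp only [Set.mem_preimage, Set.mem_singleton_iff, sub_eq_zero]
      exact h a ha b hb
  intro T hT'
  have h1 := (hle hT').2
  simp only [Set.mem_preimage, Set.mem_singleton_iff, sub_eq_zero] at h1
  exact h1

end Dens

section Trans

variable {Y : Type} [DecidableEq Y] {H : Set (Op Y)} {Δ : Op Y → Op (Y × Y)}

/-- Slices of the first leg only depend on the functional on `A`. -/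
theorem slf_congr {X : Type} [DecidableEq X] {A : Set (Op X)} (hA : IsCAlg A) (hH : IsCAlg H)
    {f g : Op X →L[ℂ] ℂ} (hfg : ∀ a ∈ A, f a = g a) :
    ∀ T ∈ tens A H, (slf f T : Op Y) = slf g T := by
  refine ext_tens (tens_calg hA hH) (slf f : Op (X × Y) →L[ℂ] Op Y).continuous.continuousOn
    (slf g : Op (X × Y) →L[ℂ] Op Y).continuous.continuousOn ?_ ?_ ?_ ?_ ?_
  · intro S _ T _; exact map_add _ _ _
  · intro S _ T _; exact map_add _ _ _
  · intro c T _; exact map_smul _ _ _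
  · intro c T _; exact map_smul _ _ _
  · intro a ha b _
    rw [slf_tn, slf_tn, hfg a ha]

/-- Iterated slices. -/
theorem assoc_slice {X Y Z : Type} [DecidableEq X] [DecidableEq Y] [DecidableEq Z]
    (S : Op ((X × Y) × Z)) (T : Op (X × (Y × Z))) (hST : SameAssoc S T)
    (ρ : Op X →L[ℂ] ℂ) (ψ : Op Y →L[ℂ] ℂ) :
    (slf ψ (slf ρ T : Op (Y × Z)) : Op Z) =
      slf (ψ.comp (slf ρ : Op (X × Y) →L[ℂ] Op Y)) S := by
  apply op_ext
  intro z z'
  rw [slf_entry, slf_entry]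
  change ψ (sr z z' (slf ρ T)) = ψ (slf ρ (sr z z' S))
  congr 1
  apply op_ext
  intro y y'
  rw [sr_entry, slf_entry, slf_entry]
  congr 1
  apply op_ext
  intro x x'
  rw [sr_entry, sr_entry, sr_entry, ← coeff_eq, ← coeff_eq]
  exact (hST x y z x' y' z').symm

/-- Left translations compose. -/
theorem L_comp (hH : IsCAlg H) (hΔ : IsHom H (tens H H) Δ) (hco : Compat H H H Δ Δ Δ Δ)
    {ψ ρ σ : Op Y →L[ℂ] ℂ} (hσ : ∀ h ∈ H, σ h = ψ (slf ρ (Δ h))) :
    ∀ h ∈ H, (slf ψ (Δ (slf ρ (Δ h))) : Op Y) = slf σ (Δ h) := by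
  obtain ⟨Ψ₁, Ψ₂, h1, h2, h3⟩ := hco
  have hT : IsCAlg (tens H H) := tens_calg hH hH
  have e1 : ∀ T ∈ tens H H, Δ (slf ρ T) = (slf ρ (Ψ₂ T) : Op (Y × Y)) := by
    have hm := slf_mem (A := H) hH ρ
    refine ext_tens hT ?_ ?_ ?_ ?_ ?_ ?_ ?_
    · exact (cont_of_isHom hH hΔ).comp
        (slf ρ : Op (Y × Y) →L[ℂ] Op Y).continuous.continuousOn hm
    · exact (slf ρ : Op (Y × (Y × Y)) →L[ℂ] Op (Y × Y)).continuous.comp_continuousOn
        (cont_of_isHom hT h2.hom)
    · intro S hS T hT'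
      rw [map_add, hΔ.lin.add _ (hm S hS) _ (hm T hT')]
    · intro S hS T hT'
      rw [h2.hom.lin.add S hS T hT', map_add]
    · intro c T hT'
      rw [map_smul, hΔ.lin.smul c _ (hm T hT')]
    · intro c T hT'
      rw [h2.hom.lin.smul c T hT', map_smul]
    · intro a ha b hb
      rw [(isTensor_iff _ _ _).1 (h2.tensor a ha b hb _ ((isTensor_iff _ _ _).2 rfl)), slf_tn,
        slf_tn, hΔ.lin.smul _ b hb]
      rfl
  have e2 : ∀ T ∈ tens H H, (slf σ T : Op Y) =
      slf (ψ.comp (slf ρ : Op (Y × Y) →L[ℂ] Op Y)) (Ψ₁ T) := by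
    refine ext_tens hT ?_ ?_ ?_ ?_ ?_ ?_ ?_
    · exact (slf σ : Op (Y × Y) →L[ℂ] Op Y).continuous.continuousOn
    · exact (slf _ : Op ((Y × Y) × Y) →L[ℂ] Op Y).continuous.comp_continuousOn
        (cont_of_isHom hT h1.hom)
    · intro S _ T _; exact map_add _ _ _
    · intro S hS T hT'
      rw [h1.hom.lin.add S hS T hT', map_add]
    · intro c T _; exact map_smul _ _ _
    · intro c T hT'
      rw [h1.hom.lin.smul c T hT', map_smul]
    · intro a ha b hb
      rw [(isTensor_iff _ _ _).1 (h1.tensor a ha b hb _ ((isTensor_iff _ _ _).2 rfl)), slf_tn,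
        slf_tn, hσ a ha]
      rfl
  intro h hh
  rw [e1 _ (hΔ.maps h hh), e2 _ (hΔ.maps h hh)]
  exact assoc_slice _ _ (h3 h hh) ρ ψ

end Trans

section Idem

variable {Y : Type} [DecidableEq Y] {H : Set (Op Y)} {Δ : Op Y → Op (Y × Y)}

/-- States that are multiplicative on `H`. -/
structure MulSt (H : Set (Op Y)) (f : Op Y →L[ℂ] ℂ) : Prop where
  state : IsState f
  mul : ∀ a ∈ H, ∀ b, f (b * a) = f b * f a

theorem exists_mulSt_comp (hH : IsCAlg H) {L : Op Y → Op Y} (hL : IsHom H H L)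
    {f : Op Y →L[ℂ] ℂ} (hf : MulSt H f) :
    ∃ g : Op Y →L[ℂ] ℂ, MulSt H g ∧ ∀ a ∈ H, g a = f (L a) := by
  obtain ⟨g, hg, hga⟩ := exists_ext hH (fun a => f (L a))
    (fun a ha b hb => by rw [hL.lin.add a ha b hb, map_add])
    (fun c a ha => by rw [hL.lin.smul c a ha, map_smul, smul_eq_mul])
    (fun a ha => (hf.state.le _).trans (norm_le_of_isHom hH hL a ha))
    (by rw [hL.mul.one, hf.state.one])
  refine ⟨g, ⟨hg, fun a ha b => hg.mul_of_dom ?_ b⟩, hga⟩
  rw [hga _ (hH.mul _ (hH.adj a ha) _ ha), hga a ha, hL.mul.mul _ (hH.adj a ha) _ ha,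
    hf.mul _ (hL.maps a ha), hL.mul.adj a ha, hf.state.fstar]

/-- The restrictions to `H`. -/
def ChS (H : Set (Op Y)) : Set (H → ℂ) :=
  {φ | ∃ f : Op Y →L[ℂ] ℂ, MulSt H f ∧ ∀ a : H, φ a = f a}

/-- The restrictions to `H`, as a type. -/
abbrev Ch (H : Set (Op Y)) : Type := ChS H

/-- An extension. -/
def Ch.rep (φ : Ch H) : Op Y →L[ℂ] ℂ := φ.2.choose

theorem Ch.rep_mulSt (φ : Ch H) : MulSt H φ.rep := φ.2.choose_spec.1

theorem Ch.rep_apply (φ : Ch H) (a : H) : φ.1 a = φ.rep a := φ.2.choose_spec.2 a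

/-- The left translation. -/
def Lt (H : Set (Op Y)) (Δ : Op Y → Op (Y × Y)) (f : Op Y →L[ℂ] ℂ) : Op Y → Op Y :=
  fun h => slf f (Δ h)

theorem Lt_hom (hH : IsCAlg H) (hΔ : IsHom H (tens H H) Δ) {f : Op Y →L[ℂ] ℂ} (hf : MulSt H f) :
    IsHom H H (Lt H Δ f) :=
  hom_comp (ψ := fun T => (slf f T : Op Y)) hΔ (slf_hom hH hf.state hf.mul)

/-- The product of characters. -/
def cmul (hH : IsCAlg H) (hΔ : IsHom H (tens H H) Δ) (φ ψ : Ch H) : Ch H :=
  ⟨fun h => φ.1 ⟨Lt H Δ ψ.rep h, (Lt_hom hH hΔ ψ.rep_mulSt).maps h h.2⟩, by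
    obtain ⟨g, hg, hga⟩ := exists_mulSt_comp hH (Lt_hom hH hΔ ψ.rep_mulSt) φ.rep_mulSt
    refine ⟨g, hg, fun a => ?_⟩
    rw [hga _ a.2]
    exact Ch.rep_apply φ _⟩

theorem cmul_rep (hH : IsCAlg H) (hΔ : IsHom H (tens H H) Δ) (φ ψ : Ch H) (h : Op Y) (hh : h ∈ H) :
    (cmul hH hΔ φ ψ).rep h = φ.rep (Lt H Δ ψ.rep h) := by
  have h1 := Ch.rep_apply (cmul hH hΔ φ ψ) ⟨h, hh⟩
  rw [← h1]
  exact Ch.rep_apply φ _

theorem cmul_assoc (hH : IsCAlg H) (hΔ : IsHom H (tens H H) Δ) (hco : Compat H H H Δ Δ Δ Δ)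
    (φ ψ ρ : Ch H) : cmul hH hΔ (cmul hH hΔ φ ψ) ρ = cmul hH hΔ φ (cmul hH hΔ ψ ρ) := by
  apply Subtype.ext
  funext h
  exact congrArg φ.1 (Subtype.ext (L_comp hH hΔ hco (σ := (cmul hH hΔ ψ ρ).rep) (ψ := ψ.rep)
    (ρ := ρ.rep) (fun a ha => cmul_rep hH hΔ ψ ρ a ha) h h.2))

instance : CompactSpace (Ch H) := by
  apply isCompact_iff_compactSpace.mp
  set S : Set (WeakDual ℂ (Op Y)) :=
    (WeakDual.toStrongDual ⁻¹' Metric.closedBall (0 : StrongDual ℂ (Op Y)) 1) ∩
      ({f | f 1 = 1} ∩ ⋂ a : H, ⋂ b : Op Y, {f | f (b * a) = f b * f a}) with hS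
  have hSc : IsCompact S := by
    refine (WeakDual.isCompact_closedBall (0 : StrongDual ℂ (Op Y)) 1).inter_right ?_
    refine IsClosed.inter ?_ (isClosed_iInter fun a => isClosed_iInter fun b => ?_)
    · exact isClosed_eq (WeakDual.eval_continuous 1) continuous_const
    · exact isClosed_eq (WeakDual.eval_continuous _)
        ((WeakDual.eval_continuous _).mul (WeakDual.eval_continuous _))
  have hE : Continuous fun f : WeakDual ℂ (Op Y) => (fun a : H => f a.1) :=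
    continuous_pi fun a => WeakDual.eval_continuous a.1
  have h1 := hSc.image hE
  have h2 : ChS H =
      (fun f : WeakDual ℂ (Op Y) => (fun a : H => f a.1)) '' S := by
    ext φ
    constructor
    · rintro ⟨f, hf, hfa⟩
      refine ⟨StrongDual.toWeakDual f, ⟨?_, hf.state.one, ?_⟩, ?_⟩
      · exact (dist_zero_right (f : StrongDual ℂ (Op Y))).le.trans hf.state.norm
      · rw [Set.mem_iInter]
        intro a
        rw [Set.mem_iInter]
        intro b
        exact hf.mul a.1 a.2 b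
      · funext a
        exact (hfa a).symm
    · rintro ⟨f, ⟨hf1, hf2, hf3⟩, rfl⟩
      refine ⟨WeakDual.toStrongDual f, ⟨⟨?_, hf2⟩, ?_⟩, fun a => rfl⟩
      · exact (dist_zero_right (WeakDual.toStrongDual f)).symm.le.trans hf1
      · intro a ha b
        rw [Set.mem_iInter] at hf3
        have := hf3 ⟨a, ha⟩
        rw [Set.mem_iInter] at this
        exact this b
  rw [h2]
  exact h1

/-- A bounded character gives a bounded left counit. -/
theorem exists_counit (hQ : IsCQG H Δ) {χ : Op Y →L[ℂ] ℂ} (hχ : MulSt H χ) :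
    ∃ ε : Op Y →L[ℂ] ℂ, MulSt H ε ∧ ∀ h ∈ H, (slf ε (Δ h) : Op Y) = h := by
  have hH := hQ.calg
  have hΔ := hQ.hom
  let sg : Semigroup (Ch H) :=
    { mul := cmul hH hΔ
      mul_assoc := cmul_assoc hH hΔ hQ.coassoc }
  have hne : Nonempty (Ch H) := ⟨⟨fun a => χ a, χ, hχ, fun a => rfl⟩⟩
  have hcont : ∀ r : Ch H, Continuous (· * r) := by
    intro r
    refine Continuous.subtype_mk ?_ _
    refine continuous_pi fun h => ?_
    exact (continuous_apply _).comp continuous_subtype_val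
  obtain ⟨e, he⟩ := exists_idempotent_of_compact_t2_of_continuous_mul_left hcont
  have he' : cmul hH hΔ e e = e := he
  have hidem : ∀ h ∈ H, e.rep h = e.rep (slf e.rep (Δ h)) := by
    intro h hh
    have h1 := cmul_rep hH hΔ e e h hh
    rw [he'] at h1
    exact h1
  have hLL := L_comp hH hΔ hQ.coassoc hidem
  refine ⟨e.rep, e.rep_mulSt, ?_⟩
  have hhom : IsHom H H (Lt H Δ e.rep) := Lt_hom hH hΔ e.rep_mulSt
  have hB := fixed_calg hH hhom
  set B : Set (Op Y) := {h | h ∈ H ∧ Lt H Δ e.rep h = h} with hBdef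
  have hBC : CSub B := ⟨hB.subspace.zero, hB.subspace.add, hB.subspace.smul, hB.subspace.closed⟩
  have hle : tens H H ⊆ {T | (slf e.rep T : Op Y) ∈ B} := by
    rw [← hQ.dense_left]
    refine cspan_le (hBC.preimage (slf e.rep) (map_add _) (map_smul _)
      (slf e.rep : Op (Y × Y) →L[ℂ] Op Y).continuous) ?_
    rintro T ⟨h, hh, k, hk, S, hS, rfl⟩
    rw [Set.mem_ofPred_eq, (isTensor_iff _ _ _).1 hS,
      slf_mul e.rep_mulSt.mul _ (hΔ.maps h hh) _ (tn_mem_tens hk hH.one), slf_tn]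
    rw [mul_smul_comm, mul_one]
    refine hB.subspace.smul _ _ ⟨hhom.maps h hh, ?_⟩
    exact hLL h hh
  intro h hh
  have h1 := hle (tn_mem_tens hH.one hh)
  rw [Set.mem_ofPred_eq, slf_tn, e.rep_mulSt.state.one, one_smul] at h1
  exact h1.2

end Idem

end Pool.Agent.N16.Ellis
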