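import Pool.Agent.N16.Path

/-!
The counit and the form of equivariant homomorphisms on a corepresentation.
-/

set_option autoImplicit false
set_option linter.unusedSectionVars false

open scoped InnerProductSpace ComplexConjugate Matrix.Norms.Operator
open H584BuDefs
open H584Bu (tn tn_entry tn_mul tn_one tn_star tn_smul_left tn_smul_right tn_add_left tn_add_right
  isTensor_iff coeff_eq tens_csub tens_le
  tn_mem_tens CSub op_ext entry_one entry_add entry_smul entry_zero norm_entry_le norm_tn)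
open H584Roe (entry)
open H848NJ (sl sl_entry sl_tn sl_mem norm_le_of_isHom tens_calg cont_of_isHom hom_zero slice_compat
  IsEquivToJoin)
open Pool.Agent.N16.Slice Pool.Agent.N16.States Pool.Agent.N16.Top Pool.Agent.N16.Mats
open Pool.Agent.N16.Num Pool.Agent.N16.Vec Pool.Agent.N16.Path

noncomputable section

namespace Pool.Agent.N16.Eq

section Counit

variable {Y : Type} [DecidableEq Y] {n : ℕ} {H : Set (Op Y)} {Δ : Op Y → Op (Y × Y)}
  {u : Fin n → Fin n → Op Y}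

/-- The fixed points of a `*`-endomorphism form a C*-algebra. -/
theorem fixed_calg (hH : IsCAlg H) {φ : Op Y → Op Y} (hφ : IsHom H H φ) :
    IsCAlg {h | h ∈ H ∧ φ h = h} := by
  refine ⟨⟨?_, ?_, ?_, ?_⟩, ?_, ?_, ?_⟩
  · exact ⟨hH.subspace.zero, hom_zero hH hφ⟩
  · rintro a ⟨ha, ha'⟩ b ⟨hb, hb'⟩
    exact ⟨hH.subspace.add a ha b hb, by rw [hφ.lin.add a ha b hb, ha', hb']⟩
  · rintro c a ⟨ha, ha'⟩
    exact ⟨hH.subspace.smul c a ha, by rw [hφ.lin.smul c a ha, ha']⟩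
  · have h1 : ContinuousOn (fun h => φ h - h) H := (cont_of_isHom hH hφ).sub continuousOn_id
    have h2 := h1.preimage_isClosed_of_isClosed hH.subspace.closed
      (isClosed_singleton (x := (0 : Op Y)))
    have e : {h | h ∈ H ∧ φ h = h} = H ∩ (fun h => φ h - h) ⁻¹' {0} := by
      ext h
      simp [sub_eq_zero]
    unfold NormClosed
    rw [e]
    exact h2
  · exact ⟨hH.one, hφ.mul.one⟩
  · rintro a ⟨ha, ha'⟩ b ⟨hb, hb'⟩
    exact ⟨hH.mul a ha b hb, by rw [hφ.mul.mul a ha b hb, ha', hb']⟩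
  · rintro a ⟨ha, ha'⟩
    exact ⟨hH.adj a ha, by rw [hφ.mul.adj a ha, ha']⟩

/-- The left counit property. -/
theorem left_counit (hH : IsCAlg H) (hΔ : IsHom H (tens H H) Δ) (hu : IsCo H Δ u)
    (hgen : Gen H u) {ε : Op Y →L[ℂ] ℂ} (hε : IsState ε)
    (hε1 : ∀ i j, ε (u i j) = (1 : Matrix (Fin n) (Fin n) ℂ) i j)
    (hεm : ∀ a ∈ H, ∀ b, ε (b * a) = ε b * ε a) : ∀ h ∈ H, (slf ε (Δ h) : Op Y) = h := by
  have hhom : IsHom H H (fun h => (slf ε (Δ h) : Op Y)) := hom_comp hΔ (slf_hom hH hε hεm)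
  have h1 := hgen _ (fixed_calg hH hhom) (fun i j => ⟨hu.mem i j, by
    rw [hu.comul, map_sum]
    simp only [slf_tn, hε1, Matrix.one_apply, ite_smul, one_smul, zero_smul, Finset.sum_ite_eq,
      Finset.mem_univ, if_true]⟩)
  exact fun h hh => (h1 hh).2

end Counit

section Equiv

variable {X Y : Type} [DecidableEq X] [DecidableEq Y] {n : ℕ} {A : Set (Op X)} {H : Set (Op Y)}
  {Δ : Op Y → Op (Y × Y)} {u : Fin n → Fin n → Op Y}

theorem tn_sum_left {X Y : Type} [DecidableEq X] [DecidableEq Y] {ι : Type*} (s : Finset ι)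
    (f : ι → Op X) (b : Op Y) : tn (∑ i ∈ s, f i) b = ∑ i ∈ s, tn (f i) b := by
  apply op_ext
  rintro ⟨x, y⟩ ⟨x', y'⟩
  rw [tn_entry, entry_sum, entry_sum, Finset.sum_mul]
  exact Finset.sum_congr rfl fun i _ => by rw [tn_entry]

/-- The form of an equivariant homomorphism on the corepresentation. -/
theorem phi_u (hA : IsCAlg A) (hH : IsCAlg H) (hΔ : IsHom H (tens H H) Δ) (hu : IsCo H Δ u)
    {ε : Op Y →L[ℂ] ℂ} (hεl : ∀ h ∈ H, (slf ε (Δ h) : Op Y) = h) {φ : Op Y → Op (X × Y)}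
    (hφ : IsHom H (tens A H) φ) (hc : Compat H A H Δ Δ φ φ) (i j : Fin n) :
    φ (u i j) = ∑ k, tn (srf ε (φ (u i k)) : Op X) (u k j) := by
  obtain ⟨Ψ₁, Ψ₂, h1, h2, h3⟩ := hc
  have hTH : IsCAlg (tens H H) := tens_calg hH hH
  have h4 : ∀ i j, Ψ₁ (Δ (u i j)) = ∑ k, tn (φ (u i k)) (u k j) := by
    intro i j
    rw [hu.comul]
    rw [(hom_sum hTH h1.hom Finset.univ (fun k => tn (u i k) (u k j))
      (fun k _ => tn_mem_tens (hu.mem i k) (hu.mem k j))).2]
    refine Finset.sum_congr rfl fun k _ => ?_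
    have := h1.tensor (u i k) (hu.mem i k) (u k j) (hu.mem k j) _ ((isTensor_iff _ _ _).2 rfl)
    exact (isTensor_iff _ _ _).1 this
  have h5 : ∀ (x x' : X), sl x x' (φ (u i j)) =
      ∑ k, (ε (sl x x' (φ (u i k)))) • u k j := by
    intro x x'
    have hF : sl x x' (φ (u i j)) ∈ H := sl_mem (A := A) hH x x' _ (hφ.maps _ (hu.mem i j))
    have h6 : Δ (sl x x' (φ (u i j))) = ∑ k, tn (sl x x' (φ (u i k))) (u k j) := by
      apply op_ext
      rintro ⟨y, z⟩ ⟨y', z'⟩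
      rw [← slice_compat hA hH hΔ h2 x x' y z y' z' (φ (u i j)) (hφ.maps _ (hu.mem i j)),
        ← coeff_eq, ← h3 (u i j) (hu.mem i j), coeff_eq, h4, entry_sum, entry_sum]
      refine Finset.sum_congr rfl fun k _ => ?_
      rw [tn_entry, tn_entry, sl_entry]
    have h7 := hεl _ hF
    rw [h6, map_sum] at h7
    rw [← h7]
    refine Finset.sum_congr rfl fun k _ => ?_
    rw [slf_tn]
  apply op_ext
  rintro ⟨x, y⟩ ⟨x', y'⟩
  rw [← sl_entry, h5, entry_sum, entry_sum]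
  refine Finset.sum_congr rfl fun k _ => ?_
  rw [entry_smul, tn_entry, srf_entry]

/-- At the end of the path. -/
theorem delta_V {δ : Op X → Op (X × Y)} (hA : IsCAlg A) (hH : IsCAlg H)
    (hu : IsCo H Δ u) (hδ : IsHom A (tens A H) δ) (hδc : Compat A A H Δ δ δ δ)
    {ε : Op Y →L[ℂ] ℂ} (hε1 : ∀ i j, ε (u i j) = (1 : Matrix (Fin n) (Fin n) ℂ) i j)
    {V k : Fin n → Fin n → Op X} (hV : ∀ i j, V i j ∈ A) (hk : ∀ i j, k i j ∈ A)
    (hkV : ∀ i j, δ (k i j) = ∑ l, tn (V i l) (u l j)) (i j : Fin n) :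
    δ (V i j) = ∑ l, tn (V i l) (u l j) := by
  obtain ⟨Ψ₁, Ψ₂, h1, h2, h3⟩ := hδc
  have hTA : IsCAlg (tens A H) := tens_calg hA hH
  have h4 : Ψ₁ (δ (k i j)) = ∑ l, tn (δ (V i l)) (u l j) := by
    rw [hkV, (hom_sum hTA h1.hom Finset.univ (fun l => tn (V i l) (u l j))
      (fun l _ => tn_mem_tens (hV i l) (hu.mem l j))).2]
    refine Finset.sum_congr rfl fun l _ => ?_
    exact (isTensor_iff _ _ _).1 (h1.tensor _ (hV i l) _ (hu.mem l j) _
      ((isTensor_iff _ _ _).2 rfl))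
  have h5 : Ψ₂ (δ (k i j)) = ∑ l, tn (V i l) (Δ (u l j)) := by
    rw [hkV, (hom_sum hTA h2.hom Finset.univ (fun l => tn (V i l) (u l j))
      (fun l _ => tn_mem_tens (hV i l) (hu.mem l j))).2]
    refine Finset.sum_congr rfl fun l _ => ?_
    exact (isTensor_iff _ _ _).1 (h2.tensor _ (hV i l) _ (hu.mem l j) _
      ((isTensor_iff _ _ _).2 rfl))
  have h6 : ∑ l, tn (δ (V i l)) (u l j) = ∑ m, tn (∑ l, tn (V i l) (u l m)) (u m j) := by
    apply op_ext
    rintro ⟨⟨x, y⟩, z⟩ ⟨⟨x', y'⟩, z'⟩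
    rw [← h4, ← coeff_eq, h3 (k i j) (hk i j), coeff_eq, h5, entry_sum, entry_sum]
    have e1 : ∀ l, entry (tn (V i l) (Δ (u l j))) (x, (y, z)) (x', (y', z')) =
        ∑ m, entry (V i l) x x' * (entry (u l m) y y' * entry (u m j) z z') := by
      intro l
      rw [tn_entry, hu.comul, entry_sum, Finset.mul_sum]
      exact Finset.sum_congr rfl fun m _ => by rw [tn_entry]
    have e2 : ∀ m, entry (tn (∑ l, tn (V i l) (u l m)) (u m j)) ((x, y), z) ((x', y'), z') =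
        ∑ l, entry (V i l) x x' * (entry (u l m) y y' * entry (u m j) z z') := by
      intro m
      rw [tn_entry, entry_sum, Finset.sum_mul]
      exact Finset.sum_congr rfl fun l _ => by rw [tn_entry]; ring
    rw [Finset.sum_congr rfl fun l _ => e1 l, Finset.sum_congr rfl fun m _ => e2 m,
      Finset.sum_comm]
  have h7 := congrArg (fun T => (srf ε T : Op (X × Y))) h6
  simp only [map_sum, srf_tn, hε1, Matrix.one_apply, ite_smul, one_smul, zero_smul,
    Finset.sum_ite_eq', Finset.mem_univ, if_true] at h7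
  exact h7

end Equiv

end Pool.Agent.N16.Eq
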