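import Pool.Agent.N16.Main
import Pool.Agent.N16.CMDefs

/-!
Compact matrix quantum groups: no equivariant map into the join.
-/

set_option autoImplicit false
set_option linter.unusedSectionVars false

open scoped InnerProductSpace ComplexConjugate Matrix.Norms.Operator Topology
open H584BuDefs
open H584Bu (tn tn_entry tn_mul tn_one tn_star tn_smul_left tn_smul_right tn_add_left tn_add_right
  isTensor_iff coeff_eq tens_csub tens_le
  tn_mem_tens CSub op_ext entry_one entry_add entry_smul entry_zero norm_entry_le norm_tn)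
open H584Roe (entry)
open H848NJ (sl sl_entry sl_tn sl_mem norm_le_of_isHom tens_calg cont_of_isHom hom_zero slice_compat
  IsEquivToJoin QGroup FreeAction HasEquivToJoin)
open Pool.Agent.N16.Slice Pool.Agent.N16.States Pool.Agent.N16.Top Pool.Agent.N16.Mats
open Pool.Agent.N16.Num Pool.Agent.N16.Vec Pool.Agent.N16.Path Pool.Agent.N16.Eq
open Pool.Agent.N16.Main Pool.Agent.N16.CMDefs

noncomputable section

namespace Pool.Agent.N16.Final

section Kappa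

variable {X Y : Type} {A : Set (Op X)} {H : Set (Op Y)} {Δ : Op Y → Op (Y × Y)}
  {δ : Op X → Op (X × Y)}

/-- The homomorphism `H → A` at the end of the join. -/
theorem exists_kappa (hH : IsCAlg H) (hδ : IsFreeCoaction A H Δ δ)
    {Φ : Op Y → unitInterval → Op (X × Y)} (hΦ : IsEquivToJoin A H Δ δ Φ) :
    ∃ κ : Op Y → Op X, IsHom H A κ ∧ ∀ h ∈ H, Φ h 1 = δ (κ h) := by
  classical
  have hex : ∀ h ∈ H, ∃ a ∈ A, Φ h 1 = δ a := fun h hh => (hΦ.maps h hh).2.2.2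
  choose! κ hκA hκ using hex
  have hhom := hΦ.hom 1
  refine ⟨κ, ⟨hκA, ⟨?_, ?_⟩, ⟨?_, ?_, ?_⟩⟩, hκ⟩
  · intro a ha b hb
    refine hδ.inj _ (hκA _ (hH.subspace.add a ha b hb)) _
      (hδ.calg.subspace.add _ (hκA a ha) _ (hκA b hb)) ?_
    rw [← hκ _ (hH.subspace.add a ha b hb), hδ.hom.lin.add _ (hκA a ha) _ (hκA b hb), ← hκ a ha,
      ← hκ b hb]
    exact hhom.lin.add a ha b hb
  · intro c a ha
    refine hδ.inj _ (hκA _ (hH.subspace.smul c a ha)) _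
      (hδ.calg.subspace.smul c _ (hκA a ha)) ?_
    rw [← hκ _ (hH.subspace.smul c a ha), hδ.hom.lin.smul c _ (hκA a ha), ← hκ a ha]
    exact hhom.lin.smul c a ha
  · refine hδ.inj _ (hκA _ hH.one) _ hδ.calg.one ?_
    rw [← hκ _ hH.one, hδ.hom.mul.one]
    exact hhom.mul.one
  · intro a ha b hb
    refine hδ.inj _ (hκA _ (hH.mul a ha b hb)) _
      (hδ.calg.mul _ (hκA a ha) _ (hκA b hb)) ?_
    rw [← hκ _ (hH.mul a ha b hb), hδ.hom.mul.mul _ (hκA a ha) _ (hκA b hb), ← hκ a ha,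
      ← hκ b hb]
    exact hhom.mul.mul a ha b hb
  · intro a ha
    refine hδ.inj _ (hκA _ (hH.adj a ha)) _ (hδ.calg.adj _ (hκA a ha)) ?_
    rw [← hκ _ (hH.adj a ha), hδ.hom.mul.adj _ (hκA a ha), ← hκ a ha]
    exact hhom.mul.adj a ha

end Kappa

section Build

variable {X Y : Type} [DecidableEq X] [DecidableEq Y] {n : ℕ} {A : Set (Op X)} {H : Set (Op Y)}
  {Δ : Op Y → Op (Y × Y)} {δ : Op X → Op (X × Y)} {u : Fin n → Fin n → Op Y}

/-- The path `ψ_t = (id ⊗ ε) ∘ Φ_t`. -/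
theorem build_path (hH : IsCAlg H) (hΔ : IsHom H (tens H H) Δ) (hδ : IsFreeCoaction A H Δ δ)
    (hu : IsCo H Δ u) {Φ : Op Y → unitInterval → Op (X × Y)} (hΦ : IsEquivToJoin A H Δ δ Φ)
    {ε : Op Y →L[ℂ] ℂ} (hε : IsState ε)
    (hε1 : ∀ i j, ε (u i j) = (1 : Matrix (Fin n) (Fin n) ℂ) i j)
    (hεm : ∀ a ∈ H, ∀ b, ε (b * a) = ε b * ε a)
    (hεl : ∀ h ∈ H, (slf ε (Δ h) : Op Y) = h) :
    IsPath A H δ u (fun t h => (srf ε (Φ h (Set.projIcc 0 1 zero_le_one t)) : Op X)) := by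
  obtain ⟨κ, hκ, hκ1⟩ := exists_kappa hH hδ hΦ
  have hp0 : (Set.projIcc (0 : ℝ) 1 zero_le_one 0) = 0 := Set.projIcc_left _
  have hp1 : (Set.projIcc (0 : ℝ) 1 zero_le_one 1) = 1 := Set.projIcc_right _
  refine ⟨?_, ?_, ?_, ?_⟩
  · intro t
    exact hom_comp (hΦ.hom _) (srf_hom hδ.calg hε hεm)
  · intro h hh
    have h1 : Continuous (Φ h) := (hΦ.maps h hh).1
    exact (srf ε : Op (X × Y) →L[ℂ] Op X).continuous.comp (h1.comp continuous_projIcc)
  · intro i j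
    obtain ⟨h, hh, h1⟩ := (hΦ.maps _ (hu.mem i j)).2.2.1
    rw [isTensor_iff] at h1
    refine ⟨ε h, ?_⟩
    simp only [hp0]
    rw [h1, srf_tn]
  · intro i j
    simp only [hp1]
    have h1 : ∀ i j, Φ (u i j) 1 =
        ∑ k, tn (srf ε (Φ (u i k) 1) : Op X) (u k j) := fun i j =>
      phi_u hδ.calg hH hΔ hu hεl (hΦ.hom 1) (hΦ.equivariant 1) i j
    refine delta_V (V := fun i j => (srf ε (Φ (u i j) 1) : Op X)) (k := fun i j => κ (u i j))
      hδ.calg hH hu hδ.hom hδ.coassoc hε1 ?_ ?_ ?_ i j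
    · intro i j
      exact srf_mem (H := H) hδ.calg ε _ ((hΦ.hom 1).maps _ (hu.mem i j))
    · intro i j
      exact hκ.maps _ (hu.mem i j)
    · intro i j
      rw [← hκ1 _ (hu.mem i j)]
      exact h1 i j

theorem no_join (hH : IsCAlg H) (hΔ : IsHom H (tens H H) Δ) (hδ : IsFreeCoaction A H Δ δ)
    (hu : IsCo H Δ u) (hgen : Gen H u) (hN : IsNontriv H)
    {Φ : Op Y → unitInterval → Op (X × Y)} (hΦ : IsEquivToJoin A H Δ δ Φ)
    {a0 : Op X →L[ℂ] ℂ} (ha0 : IsState a0) (ha0m : ∀ a ∈ A, ∀ b, a0 (b * a) = a0 b * a0 a) :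
    False := by
  obtain ⟨κ, hκ, _⟩ := exists_kappa hH hδ hΦ
  have hK : IsGrp (KS u) := KS_isGrp hH hΔ hu ⟨_, smat_mem_KS hH hu hκ ha0 ha0m⟩
  obtain ⟨ε, hε, hε1⟩ := hK.one.1
  have hεm := KS_mult hgen hu.umat hε hK.one hε1
  have hεl := left_counit hH hΔ hu hgen hε hε1 hεm
  exact no_path hδ.calg hH hΔ hu hgen hδ.hom
    (build_path hH hΔ hδ hu hΦ hε hε1 hεm hεl) ha0 ha0m hN

end Build

theorem isCo_of {Y : Type} [DecidableEq Y] {n : ℕ} {H : Set (Op Y)} {Δ : Op Y → Op (Y × Y)}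
    {u : Fin n → Fin n → Op Y} (hu : IsUnitaryCorep H Δ u) : IsCo H Δ u := by
  refine ⟨hu.mem, ⟨hu.left, hu.right⟩, fun i j => ?_⟩
  apply op_ext
  rintro ⟨y, z⟩ ⟨y', z'⟩
  rw [← coeff_eq, hu.comul, entry_sum]
  refine Finset.sum_congr rfl fun k _ => ?_
  rw [tn_entry, coeff_eq, coeff_eq]

end Pool.Agent.N16.Final
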