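import Pool.Agent.N16.Ellis

/-!
General compact quantum groups with a good corepresentation.
-/

set_option autoImplicit false
set_option linter.unusedSectionVars false

open scoped InnerProductSpace ComplexConjugate Matrix.Norms.Operator Topology
open H584BuDefs
open H584Bu (tn tn_entry tn_mul tn_one tn_star tn_smul_left tn_smul_right tn_add_left tn_add_right
  isTensor_iff coeff_eq tens_csub tens_le cspan_le
  tn_mem_tens CSub op_ext entry_one entry_add entry_smul entry_zero norm_entry_le norm_tn)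
open H584Roe (entry)
open H848NJ (sl sl_entry sl_tn sl_mem norm_le_of_isHom tens_calg cont_of_isHom hom_zero slice_compat
  IsEquivToJoin QGroup FreeAction HasEquivToJoin)
open Pool.Agent.N16.Slice Pool.Agent.N16.States Pool.Agent.N16.Top Pool.Agent.N16.Mats
open Pool.Agent.N16.Num Pool.Agent.N16.Vec Pool.Agent.N16.Path Pool.Agent.N16.Eq
open Pool.Agent.N16.Main Pool.Agent.N16.CMDefs Pool.Agent.N16.Final Pool.Agent.N16.Ellis

noncomputable section

namespace Pool.Agent.N16.Gen

section Near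

variable {X Y : Type} [DecidableEq X] [DecidableEq Y] {n : ℕ} {A : Set (Op X)} {H : Set (Op Y)}
  {Δ : Op Y → Op (Y × Y)} {δ : Op X → Op (X × Y)} {u : Fin n → Fin n → Op Y}

/-- Unitary matrices in `MS` near the identity, from a path that leaves the identity. -/
theorem near_MS' (hH : IsCAlg H) (hΔ : IsHom H (tens H H) Δ)
    (hu : IsCo H Δ u) (W : ℝ → Fin n → Fin n → Op X) (hWc : ∀ i j, Continuous fun t => W t i j)
    (hWu : ∀ t, IsUMat (W t)) (hWM : ∀ t (f : Op X →L[ℂ] ℂ), IsState f → smat f (W t) ∈ MS u)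
    (h0 : dd (W 0) = 0) (h1 : dd (W 1) ≠ 0) {s : ℝ} (hs : 0 < s)
    (hs1 : 12 * s ≤ 1 / (3 * (n : ℝ) ^ 2)) :
    ∃ g ∈ KS u, 1 / (3 * (n : ℝ) ^ 2) * s / 4 ≤ ‖g - 1‖ ∧ ‖g - 1‖ ≤ 2 * s := by
  have hn : 0 < n := by
    by_contra hcon
    have : n = 0 := by omega
    subst this
    apply h1
    simp [dd]
  have hn' : (1 : ℝ) ≤ n := by exact_mod_cast hn
  have hq : 0 < 1 / (3 * (n : ℝ) ^ 2) := by positivity
  have hq1 : 1 / (3 * (n : ℝ) ^ 2) ≤ 1 := by
    rw [div_le_one (by positivity)]
    nlinarith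
  have hc0 : 0 < dd (W 1) := lt_of_le_of_ne (dd_nonneg _) (Ne.symm h1)
  have hpow : ∀ M ∈ MS u, ∀ m : ℕ, M ^ (m + 1) ∈ MS u := by
    intro M hM m
    induction m with
    | zero => rw [zero_add, pow_one]; exact hM
    | succ m ih => rw [pow_succ]; exact MS_mul hH hΔ hu ih hM
  have hst : Continuous (star : Matrix (Fin n) (Fin n) ℂ → Matrix (Fin n) (Fin n) ℂ) :=
    continuous_star
  have hdc : Continuous fun t => dd (W t) := by
    unfold dd
    refine continuous_finsetSum _ fun i _ => continuous_finsetSum _ fun j _ => ?_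
    exact ((hWc i j).sub continuous_const).norm
  obtain ⟨g, hg, hg1, hg2, hg3⟩ := near (MS_compact u) hpow hst hq hq1 hc0 (by
    intro c hc hc1
    have h2 : c ∈ Set.Icc (dd (W 0)) (dd (W 1)) := ⟨by rw [h0]; exact hc.le, hc1.le⟩
    obtain ⟨t, _, ht⟩ := intermediate_value_Icc (zero_le_one (α := ℝ)) hdc.continuousOn h2
    simp only at ht
    obtain ⟨f, hf, e1, e2, e3, e4⟩ := small_mat _ (hWu t) (by rw [ht]; exact hc)
    rw [ht] at e1 e2 e3 e4
    exact ⟨_, hWM t f hf, e1, e2, e3, e4⟩) hs hs1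
  exact ⟨g, ⟨hg, hg1, mul_eq_one_comm.mp hg1⟩, hg2, hg3⟩

/-- Multiply a matrix over an algebra by a scalar matrix. -/
def lm {E : Type*} [CStarAlgebra E] (c : Matrix (Fin n) (Fin n) ℂ) (V : Fin n → Fin n → E) :
    Fin n → Fin n → E := fun i j => ∑ k, c i k • V k j

theorem smat_lm {E : Type*} [CStarAlgebra E] (c : Matrix (Fin n) (Fin n) ℂ)
    (V : Fin n → Fin n → E) (f : E →L[ℂ] ℂ) : smat f (lm c V) = c * smat f V := by
  ext i j
  change f (∑ k, c i k • V k j) = _
  rw [map_sum, Matrix.mul_apply]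
  exact Finset.sum_congr rfl fun k _ => by rw [map_smul]; rfl

theorem lm_umat {E : Type*} [CStarAlgebra E] {c : Matrix (Fin n) (Fin n) ℂ}
    (hc : c * star c = 1) (hc' : star c * c = 1) {V : Fin n → Fin n → E} (hV : IsUMat V) :
    IsUMat (lm c V) := by
  constructor
  · intro i j
    have e : ∀ k, star (lm c V k i) * lm c V k j =
        ∑ a, ∑ b, (conj (c k a) * c k b) • (star (V a i) * V b j) := by
      intro k
      unfold lm
      rw [star_sum, Finset.sum_mul_sum]
      refine Finset.sum_congr rfl fun a _ => Finset.sum_congr rfl fun b _ => ?_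
      rw [star_smul, smul_mul_smul_comm]
      rfl
    rw [Finset.sum_congr rfl fun k _ => e k, Finset.sum_comm]
    have e2 : ∀ a, ∑ k, ∑ b, (conj (c k a) * c k b) • (star (V a i) * V b j) =
        star (V a i) * V a j := by
      intro a
      rw [Finset.sum_comm]
      have e3 : ∀ b, ∑ k, (conj (c k a) * c k b) • (star (V a i) * V b j) =
          if a = b then star (V a i) * V b j else 0 := by
        intro b
        rw [← Finset.sum_smul]
        have e4 : ∑ k, conj (c k a) * c k b = (star c * c) a b := by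
          rw [Matrix.mul_apply]
          exact Finset.sum_congr rfl fun k _ => by rw [Matrix.star_apply]; rfl
        rw [e4, hc', Matrix.one_apply]
        split_ifs
        · rw [one_smul]
        · rw [zero_smul]
      rw [Finset.sum_congr rfl fun b _ => e3 b, Finset.sum_ite_eq, if_pos (Finset.mem_univ _)]
    rw [Finset.sum_congr rfl fun a _ => e2 a, hV.left]
  · intro i j
    have e : ∀ k, lm c V i k * star (lm c V j k) =
        ∑ a, ∑ b, (c i a * conj (c j b)) • (V a k * star (V b k)) := by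
      intro k
      unfold lm
      rw [star_sum, Finset.sum_mul_sum]
      refine Finset.sum_congr rfl fun a _ => Finset.sum_congr rfl fun b _ => ?_
      rw [star_smul, smul_mul_smul_comm]
      rfl
    rw [Finset.sum_congr rfl fun k _ => e k, Finset.sum_comm]
    have e2 : ∀ a, ∑ k, ∑ b, (c i a * conj (c j b)) • (V a k * star (V b k)) =
        (c i a * conj (c j a)) • (1 : E) := by
      intro a
      rw [Finset.sum_comm]
      have e3 : ∀ b, ∑ k, (c i a * conj (c j b)) • (V a k * star (V b k)) =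
          if a = b then (c i a * conj (c j b)) • (1 : E) else 0 := by
        intro b
        rw [← Finset.smul_sum, hV.right]
        split_ifs
        · rfl
        · rw [smul_zero]
      rw [Finset.sum_congr rfl fun b _ => e3 b, Finset.sum_ite_eq, if_pos (Finset.mem_univ _)]
    rw [Finset.sum_congr rfl fun a _ => e2 a, ← Finset.sum_smul]
    have e4 : ∑ a, c i a * conj (c j a) = (c * star c) i j := by
      rw [Matrix.mul_apply]
      exact Finset.sum_congr rfl fun k _ => by rw [Matrix.star_apply]; rfl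
    rw [e4, hc, Matrix.one_apply]
    split_ifs
    · rw [one_smul]
    · rw [zero_smul]

/-- A path of homomorphisms makes the group `KS u` accumulate at the identity. -/
theorem KS_near (hA : IsCAlg A) (hH : IsCAlg H) (hΔ : IsHom H (tens H H) Δ)
    (hu : IsCo H Δ u) (hδ : IsHom A (tens A H) δ) {ψ : ℝ → Op Y → Op X}
    (hψ : IsPath A H δ u ψ) {a0 : Op X →L[ℂ] ℂ} (ha0 : IsState a0)
    (ha0m : ∀ a ∈ A, ∀ b, a0 (b * a) = a0 b * a0 a)
    (hne : ∃ i j, u i j ≠ if i = j then 1 else 0) {s : ℝ} (hs : 0 < s)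
    (hs1 : 12 * s ≤ 1 / (3 * (n : ℝ) ^ 2)) :
    ∃ g ∈ KS u, 1 / (3 * (n : ℝ) ^ 2) * s / 4 ≤ ‖g - 1‖ ∧ ‖g - 1‖ ≤ 2 * s := by
  set c : Matrix (Fin n) (Fin n) ℂ := smat a0 (fun i j => ψ 0 (u i j)) with hc
  have hcK : c ∈ KS u := smat_mem_KS hH hu (hψ.hom 0) ha0 ha0m
  have hK : IsGrp (KS u) := KS_isGrp hH hΔ hu ⟨c, hcK⟩
  have hsc : star c ∈ KS u := by
    obtain ⟨h, hh, h1, h2⟩ := hK.inv c hcK
    have : h = star c := by
      calc h = h * (c * star c) := by rw [hcK.2.1, mul_one]
        _ = star c := by rw [← mul_assoc, h1, one_mul]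
    rwa [← this]
  have hψ0 : ∀ i j, ψ 0 (u i j) = c i j • (1 : Op X) := by
    intro i j
    obtain ⟨d, hd⟩ := hψ.zero i j
    have : c i j = d := by
      change a0 (ψ 0 (u i j)) = d
      rw [hd, map_smul, ha0.one, smul_eq_mul, mul_one]
    rw [hd, this]
  set W : ℝ → Fin n → Fin n → Op X := fun t => lm (star c) (fun i j => ψ t (u i j)) with hW
  refine near_MS' hH hΔ hu W ?_ ?_ ?_ ?_ ?_ hs hs1
  · intro i j
    refine continuous_finsetSum _ fun k _ => ?_
    exact (continuous_const (y := (star c) i k)).smul (hψ.cont _ (hu.mem k j))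
  · intro t
    refine lm_umat ?_ ?_ (hom_umat hH (hψ.hom t) hu.mem hu.umat)
    · rw [star_star]; exact hcK.2.2
    · rw [star_star]; exact hcK.2.1
  · intro t f hf
    simp only [hW]
    rw [smat_lm]
    exact MS_mul hH hΔ hu hsc.1 (smat_mem_MS hH hu (hψ.hom t) hf)
  · -- the path starts at the identity
    unfold dd
    refine Finset.sum_eq_zero fun i _ => Finset.sum_eq_zero fun j _ => ?_
    rw [norm_eq_zero, sub_eq_zero]
    change ∑ k, (star c) i k • ψ 0 (u k j) = _
    have e : ∀ k, (star c) i k • ψ 0 (u k j) = ((star c) i k * c k j) • (1 : Op X) := by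
      intro k; rw [hψ0, smul_smul]
    rw [Finset.sum_congr rfl fun k _ => e k, ← Finset.sum_smul, ← Matrix.mul_apply, hcK.2.2,
      Matrix.one_apply]
    split_ifs
    · rw [one_smul]
    · rw [zero_smul]
  · -- the path does not end at the identity
    intro h1
    have h2 : ∀ i j, ψ 1 (u i j) = c i j • (1 : Op X) := by
      have h3 : ∀ i j, W 1 i j = if i = j then 1 else 0 := fun i j => dd_eq_zero h1 i j
      intro i j
      have h4 : ∑ m, c i m • W 1 m j = ψ 1 (u i j) := by
        have e : ∀ m, c i m • W 1 m j = ∑ k, (c i m * (star c) m k) • ψ 1 (u k j) := by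
          intro m
          change c i m • ∑ k, (star c) m k • ψ 1 (u k j) = _
          rw [Finset.smul_sum]
          exact Finset.sum_congr rfl fun k _ => by rw [smul_smul]
        rw [Finset.sum_congr rfl fun m _ => e m, Finset.sum_comm]
        have e2 : ∀ k, ∑ m, (c i m * (star c) m k) • ψ 1 (u k j) =
            if i = k then ψ 1 (u k j) else 0 := by
          intro k
          rw [← Finset.sum_smul, ← Matrix.mul_apply, hcK.2.1, Matrix.one_apply]
          split_ifs
          · rw [one_smul]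
          · rw [zero_smul]
        rw [Finset.sum_congr rfl fun k _ => e2 k, Finset.sum_ite_eq, if_pos (Finset.mem_univ _)]
      rw [← h4]
      have e3 : ∀ m, c i m • W 1 m j = if m = j then c i m • (1 : Op X) else 0 := by
        intro m
        rw [h3]
        split_ifs
        · rfl
        · rw [smul_zero]
      rw [Finset.sum_congr rfl fun m _ => e3 m, Finset.sum_ite_eq', if_pos (Finset.mem_univ _)]
    obtain ⟨i, j, hij⟩ := hne
    apply hij
    -- `c = c u`
    have h5 : ∀ i j, c i j • (1 : Op Y) = ∑ l, c i l • u l j := by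
      intro i j
      have h6 := hψ.one i j
      rw [h2, hδ.lin.smul _ 1 hA.one, hδ.mul.one] at h6
      have h7 := congrArg (fun T => (slf a0 T : Op Y)) h6
      simp only [map_smul, map_sum, slf_one ha0] at h7
      rw [h7]
      refine Finset.sum_congr rfl fun l _ => ?_
      rw [h2, slf_tn, map_smul, ha0.one, smul_eq_mul, mul_one]
    have h8 : ∑ m, (star c) i m • (c m j • (1 : Op Y)) = u i j := by
      have e : ∀ m, (star c) i m • (c m j • (1 : Op Y)) =
          ∑ l, ((star c) i m * c m l) • u l j := by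
        intro m
        rw [h5, Finset.smul_sum]
        exact Finset.sum_congr rfl fun l _ => by rw [smul_smul]
      rw [Finset.sum_congr rfl fun m _ => e m, Finset.sum_comm]
      have e2 : ∀ l, ∑ m, ((star c) i m * c m l) • u l j = if i = l then u l j else 0 := by
        intro l
        rw [← Finset.sum_smul, ← Matrix.mul_apply, hcK.2.2, Matrix.one_apply]
        split_ifs
        · rw [one_smul]
        · rw [zero_smul]
      rw [Finset.sum_congr rfl fun l _ => e2 l, Finset.sum_ite_eq, if_pos (Finset.mem_univ _)]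
    rw [← h8]
    have e3 : ∀ m, (star c) i m • (c m j • (1 : Op Y)) = ((star c) i m * c m j) • (1 : Op Y) :=
      fun m => by rw [smul_smul]
    rw [Finset.sum_congr rfl fun m _ => e3 m, ← Finset.sum_smul, ← Matrix.mul_apply, hcK.2.2,
      Matrix.one_apply]
    split_ifs
    · rw [one_smul]
    · rw [zero_smul]

theorem KS_infinite (hA : IsCAlg A) (hH : IsCAlg H) (hΔ : IsHom H (tens H H) Δ)
    (hu : IsCo H Δ u) (hδ : IsHom A (tens A H) δ) {ψ : ℝ → Op Y → Op X}
    (hψ : IsPath A H δ u ψ) {a0 : Op X →L[ℂ] ℂ} (ha0 : IsState a0)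
    (ha0m : ∀ a ∈ A, ∀ b, a0 (b * a) = a0 b * a0 a)
    (hne : ∃ i j, u i j ≠ if i = j then 1 else 0) : ¬ (KS u).Finite := by
  intro hfin
  have hn : 0 < n := by
    obtain ⟨i, _, _⟩ := hne
    exact lt_of_le_of_lt (Nat.zero_le _) i.2
  have hn' : (1 : ℝ) ≤ n := by exact_mod_cast hn
  set q : ℝ := 1 / (3 * (n : ℝ) ^ 2) with hq
  have hqpos : 0 < q := by positivity
  have hfin' : (KS u \ {1}).Finite := hfin.subset Set.sdiff_subset
  obtain ⟨μ, hμ, hμ1⟩ : ∃ μ : ℝ, 0 < μ ∧ ∀ g ∈ KS u, g ≠ 1 → μ ≤ ‖g - 1‖ := by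
    by_cases hne' : (hfin'.toFinset).Nonempty
    · obtain ⟨g0, hg0, hmin⟩ := Finset.exists_min_image hfin'.toFinset (fun g => ‖g - 1‖) hne'
      rw [Set.Finite.mem_toFinset] at hg0
      refine ⟨‖g0 - 1‖, ?_, fun g hg hg1 => hmin g ?_⟩
      · rw [norm_pos_iff]; exact sub_ne_zero.mpr hg0.2
      · rw [Set.Finite.mem_toFinset]; exact ⟨hg, hg1⟩
    · refine ⟨1, one_pos, fun g hg hg1 => ?_⟩
      exact absurd ⟨g, hfin'.mem_toFinset.mpr ⟨hg, hg1⟩⟩ hne'
  set s : ℝ := min (q / 12) (μ / 4) with hs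
  have hspos : 0 < s := lt_min (by positivity) (by positivity)
  have hs1 : 12 * s ≤ q := by
    have := min_le_left (q / 12) (μ / 4)
    linarith
  have hs2 : s ≤ μ / 4 := min_le_right _ _
  obtain ⟨g, hg, hg1, hg2⟩ := KS_near hA hH hΔ hu hδ hψ ha0 ha0m hne hspos hs1
  rw [← hq] at hg1
  have hg3 : g ≠ 1 := by
    rintro rfl
    rw [sub_self, norm_zero] at hg1
    have : 0 < q * s / 4 := by positivity
    linarith
  have := hμ1 g hg hg3
  linarith

end Near

section CG

variable {Y : Type} {n : ℕ} {u : Fin n → Fin n → Op Y}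

theorem cgen_calg : IsCAlg (cgen u) := by
  refine ⟨⟨?_, ?_, ?_, ?_⟩, ?_, ?_, ?_⟩
  · exact fun B hB _ => hB.subspace.zero
  · exact fun a ha b hb B hB h => hB.subspace.add a (ha B hB h) b (hb B hB h)
  · exact fun c a ha B hB h => hB.subspace.smul c a (ha B hB h)
  · have e : cgen u = ⋂ B ∈ {B : Set (Op Y) | IsCAlg B ∧ ∀ i j, u i j ∈ B}, B := by
      ext h
      simp only [Set.mem_iInter]
      exact ⟨fun h1 B hB => h1 B hB.1 hB.2, fun h1 B hB hB' => h1 B ⟨hB, hB'⟩⟩
    unfold NormClosed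
    rw [e]
    exact isClosed_biInter fun B hB => hB.1.subspace.closed
  · exact fun B hB _ => hB.one
  · exact fun a ha b hb B hB h => hB.mul a (ha B hB h) b (hb B hB h)
  · exact fun a ha B hB h => hB.adj a (ha B hB h)

theorem mem_cgen (i j : Fin n) : u i j ∈ cgen u := fun _ _ h => h i j

theorem cgen_gen : States.Gen (cgen u) u := fun B hB h _ ha => ha B hB h

theorem cgen_sub {H : Set (Op Y)} (hH : IsCAlg H) (h : ∀ i j, u i j ∈ H) : cgen u ⊆ H :=
  fun _ ha => ha H hH h

/-- The matrices in `KS u` come from characters of the generated C*-algebra. -/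
theorem KS_sub_charMats [DecidableEq Y] (hu : IsUMat u) {g : Matrix (Fin n) (Fin n) ℂ} (hg : g ∈ KS u) :
    (fun i j => g i j) ∈ charMats u := by
  obtain ⟨f, hf, hfg⟩ := hg.1
  have hm := KS_mult cgen_gen hu hf hg hfg
  refine ⟨f, ⟨hf.one, fun a _ b _ => map_add _ _ _, fun c a _ => ?_, fun a _ b hb => hm b hb a,
    fun a _ => hf.fstar a⟩, hfg⟩
  rw [map_smul, smul_eq_mul]

end CG

theorem exists_mulSt_hom {X Y : Type} [DecidableEq Y] {A : Set (Op X)} {H : Set (Op Y)} (hH : IsCAlg H)
    {L : Op Y → Op X} (hL : IsHom H A L) {f : Op X →L[ℂ] ℂ} (hf : IsState f)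
    (hfm : ∀ a ∈ A, ∀ b, f (b * a) = f b * f a) :
    ∃ g : Op Y →L[ℂ] ℂ, MulSt H g ∧ ∀ a ∈ H, g a = f (L a) := by
  obtain ⟨g, hg, hga⟩ := exists_ext hH (fun a => f (L a))
    (fun a ha b hb => by rw [hL.lin.add a ha b hb, map_add])
    (fun c a ha => by rw [hL.lin.smul c a ha, map_smul, smul_eq_mul])
    (fun a ha => (hf.le _).trans (norm_le_of_isHom hH hL a ha))
    (by rw [hL.mul.one, hf.one])
  refine ⟨g, ⟨hg, fun a ha b => hg.mul_of_dom ?_ b⟩, hga⟩
  rw [hga _ (hH.mul _ (hH.adj a ha) _ ha), hga a ha, hL.mul.mul _ (hH.adj a ha) _ ha,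
    hfm _ (hL.maps a ha), hL.mul.adj a ha, hf.fstar]

/-- The counit on the entries of a corepresentation. -/
theorem counit_entries {Y : Type} [DecidableEq Y] {n : ℕ} {H : Set (Op Y)}
    {Δ : Op Y → Op (Y × Y)} {u : Fin n → Fin n → Op Y} (hu : IsCo H Δ u) {ε : Op Y →L[ℂ] ℂ}
    (hε : IsState ε) (hεl : ∀ h ∈ H, (slf ε (Δ h) : Op Y) = h) (i j : Fin n) :
    ε (u i j) = (1 : Matrix (Fin n) (Fin n) ℂ) i j := by
  have h1 : ∀ j, ∑ k, ε (u i k) • u k j = u i j := by
    intro j
    have := hεl _ (hu.mem i j)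
    rw [hu.comul, map_sum] at this
    rw [← this]
    exact Finset.sum_congr rfl fun k _ => by rw [slf_tn]
  have h2 : ∑ l, (∑ k, ε (u i k) • u k l) * star (u j l) = ε (u i j) • (1 : Op Y) := by
    have e : ∀ l, (∑ k, ε (u i k) • u k l) * star (u j l) =
        ∑ k, ε (u i k) • (u k l * star (u j l)) := by
      intro l
      rw [Finset.sum_mul]
      exact Finset.sum_congr rfl fun k _ => by rw [smul_mul_assoc]
    rw [Finset.sum_congr rfl fun l _ => e l, Finset.sum_comm]
    have e2 : ∀ k, ∑ l, ε (u i k) • (u k l * star (u j l)) =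
        if k = j then ε (u i k) • (1 : Op Y) else 0 := by
      intro k
      rw [← Finset.smul_sum, hu.umat.right]
      split_ifs
      · rfl
      · rw [smul_zero]
    rw [Finset.sum_congr rfl fun k _ => e2 k, Finset.sum_ite_eq', if_pos (Finset.mem_univ _)]
  rw [Finset.sum_congr rfl fun l _ => by rw [h1 l], hu.umat.right] at h2
  have h3 := congrArg ε h2
  rw [map_smul, hε.one, smul_eq_mul, mul_one] at h3
  rw [← h3, Matrix.one_apply]
  split_ifs
  · exact hε.one
  · exact map_zero ε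

theorem main {X Y : Type} (Q : QGroup Y) (F : FreeAction X Q) (hG : HasGoodCorep Q.H Q.Δ)
    (hA : ∃ α : Op X → ℂ, IsChar F.A α) : ¬ HasEquivToJoin Q F := by
  classical
  rintro ⟨Φ, hΦ⟩
  obtain ⟨n, u, hu, hne, hgood⟩ := hG
  obtain ⟨α, hα⟩ := hA
  have hH := Q.isCQG.calg
  have hΔ := Q.isCQG.hom
  have hδ := F.free
  have hco : IsCo Q.H Q.Δ u := isCo_of hu
  obtain ⟨a0, ha0, ha0m⟩ := char_state F.free.calg
    (α := α) ⟨hα.one, hα.add, hα.smul, hα.mul, hα.adj⟩
  obtain ⟨κ, hκ, _⟩ := exists_kappa hH hδ hΦ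
  obtain ⟨χ, hχ, _⟩ := exists_mulSt_hom hH hκ ha0 ha0m
  obtain ⟨ε, hε, hεl⟩ := exists_counit Q.isCQG hχ
  have hε1 := counit_entries hco hε.state hεl
  have hpath := build_path hH hΔ hδ hco hΦ hε.state hε1 hε.mul hεl
  rcases hgood with hgen | hfin
  · have hN : IsNontriv Q.H := by
      refine ⟨?_⟩
      by_contra hcon
      push Not at hcon
      obtain ⟨i, j, hij⟩ := hne
      apply hij
      obtain ⟨c, hc⟩ := hcon _ (hco.mem i j)
      have h1 := hε1 i j
      rw [hc, map_smul, hε.state.one, smul_eq_mul, mul_one, Matrix.one_apply] at h1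
      rw [hc, h1]
      split_ifs
      · rw [one_smul]
      · rw [zero_smul]
    refine no_path hδ.calg hH hΔ hco ?_ hδ.hom hpath ha0 ha0m hN
    rw [← hgen]
    exact cgen_gen
  · refine KS_infinite hδ.calg hH hΔ hco hδ.hom hpath ha0 ha0m hne ?_
    refine Set.Finite.subset hfin fun g hg => ?_
    exact KS_sub_charMats hco.umat hg

end Pool.Agent.N16.Gen
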