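import Pool.Agent.N16.Eq

/-!
No equivariant map from a compact matrix quantum group into the join.
-/

set_option autoImplicit false
set_option linter.unusedSectionVars false

open scoped InnerProductSpace ComplexConjugate Matrix.Norms.Operator Topology
open H584BuDefs
open H584Bu (tn tn_entry tn_mul tn_one tn_star tn_smul_left tn_smul_right tn_add_left tn_add_right
  isTensor_iff coeff_eq tens_csub tens_le
  tn_mem_tens CSub op_ext entry_one entry_add entry_smul entry_zero norm_entry_le norm_tn)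
open H584Roe (entry)
open H848NJ (sl sl_entry sl_tn sl_mem norm_le_of_isHom tens_calg cont_of_isHom hom_zero slice_compat
  IsEquivToJoin)
open Pool.Agent.N16.Slice Pool.Agent.N16.States Pool.Agent.N16.Top Pool.Agent.N16.Mats
open Pool.Agent.N16.Num Pool.Agent.N16.Vec Pool.Agent.N16.Path Pool.Agent.N16.Eq

noncomputable section

namespace Pool.Agent.N16.Main

section Cont

variable {X Y : Type} [DecidableEq X] [DecidableEq Y] {n : ℕ} {A : Set (Op X)} {H : Set (Op Y)}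
  {Δ : Op Y → Op (Y × Y)} {u : Fin n → Fin n → Op Y} {M : Type*} [TopologicalSpace M]

/-- Uniform limits. -/
theorem cont_closed {Z : Type} {K : Set M} (P : M → Op Z →L[ℂ] ℂ) (hP : ∀ g ∈ K, ‖P g‖ ≤ 1)
    (C : Set (Op Z)) (hC : IsClosed C) :
    IsClosed {T | T ∈ C ∧ ContinuousOn (fun g => P g T) K} := by
  rw [← closure_subset_iff_isClosed]
  intro T hT
  refine ⟨?_, ?_⟩
  · have h1 : closure {T | T ∈ C ∧ ContinuousOn (fun g => P g T) K} ⊆ closure C :=
      closure_mono fun T hT => hT.1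
    rw [hC.closure_eq] at h1
    exact h1 hT
  · refine continuousOn_of_uniform_approx_of_continuousOn fun U hU => ?_
    obtain ⟨η, hη, hUη⟩ := Metric.mem_uniformity_dist.mp hU
    obtain ⟨S, hS, hTS⟩ := Metric.mem_closure_iff.mp hT η hη
    refine ⟨fun g => P g S, hS.2, fun g hg => hUη ?_⟩
    rw [dist_eq_norm, ← map_sub]
    refine lt_of_le_of_lt ((P g).le_opNorm _) ?_
    calc ‖P g‖ * ‖T - S‖ ≤ 1 * ‖T - S‖ := mul_le_mul_of_nonneg_right (hP g hg) (norm_nonneg _)
      _ = dist T S := by rw [one_mul, dist_eq_norm]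
      _ < η := hTS

/-- The states `χ g` depend continuously on `g`. -/
theorem chi_cont (hH : IsCAlg H) (hu : IsCo H Δ u) (hgen : Gen H u)
    (χ : Matrix (Fin n) (Fin n) ℂ → (Op Y →L[ℂ] ℂ)) (hχ : ∀ g ∈ KS u, IsState (χ g))
    (hχu : ∀ g ∈ KS u, ∀ i j, χ g (u i j) = g i j) :
    ∀ h ∈ H, ContinuousOn (fun g => χ g h) (KS u) := by
  have hmult : ∀ g ∈ KS u, ∀ a ∈ H, ∀ b, χ g (b * a) = χ g b * χ g a := fun g hg =>
    KS_mult hgen hu.umat (hχ g hg) hg (hχu g hg)
  have h1 := hgen {h | h ∈ H ∧ ContinuousOn (fun g => χ g h) (KS u)}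
    ⟨⟨⟨hH.subspace.zero, by simpa using continuousOn_const⟩, ?_, ?_,
      cont_closed χ (fun g hg => (hχ g hg).norm) H hH.subspace.closed⟩, ⟨hH.one, ?_⟩, ?_, ?_⟩
    (fun i j => ⟨hu.mem i j, ?_⟩)
  · exact fun h hh => (h1 hh).2
  · rintro a ⟨ha, ha'⟩ b ⟨hb, hb'⟩
    refine ⟨hH.subspace.add a ha b hb, ?_⟩
    simp only [map_add]
    exact ha'.add hb'
  · rintro c a ⟨ha, ha'⟩
    refine ⟨hH.subspace.smul c a ha, ?_⟩
    simp only [map_smul]
    exact ha'.const_smul c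
  · refine ContinuousOn.congr (f := fun _ => (1 : ℂ)) continuousOn_const fun g hg => ?_
    exact (hχ g hg).one
  · rintro a ⟨ha, ha'⟩ b ⟨hb, hb'⟩
    refine ⟨hH.mul a ha b hb, ?_⟩
    refine ContinuousOn.congr (ha'.mul hb') fun g hg => ?_
    exact hmult g hg b hb a
  · rintro a ⟨ha, ha'⟩
    refine ⟨hH.adj a ha, ?_⟩
    refine ContinuousOn.congr (f := fun g => conj (χ g a)) ?_ fun g hg => ?_
    · exact Complex.continuous_conj.comp_continuousOn ha'
    · exact (hχ g hg).fstar a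
  · refine ContinuousOn.congr (f := fun g => g i j) ?_ fun g hg => ?_
    · exact (continuous_id.matrix_elem i j).continuousOn
    · exact hχu g hg i j

/-- The product functionals. -/
def pf (a0 : Op X →L[ℂ] ℂ) (χ : Op Y →L[ℂ] ℂ) : Op (X × Y) →L[ℂ] ℂ := a0.comp (srf χ)

theorem pf_state {a0 : Op X →L[ℂ] ℂ} {χ : Op Y →L[ℂ] ℂ} (h1 : IsState a0) (h2 : IsState χ) :
    IsState (pf a0 χ) := by
  constructor
  · refine ContinuousLinearMap.opNorm_le_bound _ zero_le_one fun T => ?_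
    rw [one_mul]
    refine (h1.le _).trans ((norm_srf χ T).trans ?_)
    calc ‖χ‖ * ‖T‖ ≤ 1 * ‖T‖ := mul_le_mul_of_nonneg_right h2.norm (norm_nonneg _)
      _ = ‖T‖ := one_mul _
  · change a0 (srf χ 1) = 1
    rw [srf_one h2, h1.one]

theorem pf_cont (hH : IsCAlg H) (hu : IsCo H Δ u) (hgen : Gen H u)
    (χ : Matrix (Fin n) (Fin n) ℂ → (Op Y →L[ℂ] ℂ)) (hχ : ∀ g ∈ KS u, IsState (χ g))
    (hχu : ∀ g ∈ KS u, ∀ i j, χ g (u i j) = g i j) {a0 : Op X →L[ℂ] ℂ} (ha0 : IsState a0) :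
    ∀ T ∈ tens A H, ContinuousOn (fun g => pf a0 (χ g) T) (KS u) := by
  have hχc := chi_cont hH hu hgen χ hχ hχu
  have hle : tens A H ⊆ {T | T ∈ (Set.univ : Set (Op (X × Y))) ∧
      ContinuousOn (fun g => pf a0 (χ g) T) (KS u)} := by
    refine tens_le ⟨⟨trivial, by simpa using continuousOn_const⟩, ?_, ?_,
      cont_closed (fun g => pf a0 (χ g)) (fun g hg => (pf_state ha0 (hχ g hg)).norm) _
        isClosed_univ⟩ ?_
    · rintro S ⟨_, hS⟩ T ⟨_, hT⟩
      refine ⟨trivial, ?_⟩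
      simp only [map_add]
      exact hS.add hT
    · rintro c S ⟨_, hS⟩
      refine ⟨trivial, ?_⟩
      simp only [map_smul]
      exact hS.const_smul c
    · intro a _ b hb
      refine ⟨trivial, ?_⟩
      have e : (fun g => pf a0 (χ g) (tn a b)) = fun g => χ g b * a0 a := by
        funext g
        change a0 (srf (χ g) (tn a b)) = _
        rw [srf_tn, map_smul, smul_eq_mul]
      rw [e]
      exact (hχc b hb).mul continuousOn_const
  exact fun T hT => (hle hT).2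

theorem joint_cont {K : Set M} (P : M → Op X →L[ℂ] ℂ) (hP : ∀ g ∈ K, ‖P g‖ ≤ 1)
    {S : Set (Op X)} (hS : ∀ T ∈ S, ContinuousOn (fun g => P g T) K) (T : ℝ → Op X)
    (hT : Continuous T) (hTS : ∀ t, T t ∈ S) :
    ContinuousOn (fun p : ℝ × M => P p.2 (T p.1)) (Set.univ ×ˢ K) := by
  rintro ⟨t0, g0⟩ ⟨_, hg0⟩
  rw [Metric.continuousWithinAt_iff']
  intro η hη
  have h1 : ∀ᶠ p in 𝓝[Set.univ ×ˢ K] (t0, g0), dist (T p.1) (T t0) < η / 2 := by
    refine nhdsWithin_le_nhds ?_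
    have : Filter.Tendsto (fun p : ℝ × M => T p.1) (𝓝 (t0, g0)) (𝓝 (T t0)) :=
      (hT.comp continuous_fst).tendsto (t0, g0)
    exact (Metric.tendsto_nhds.mp this) _ (by positivity)
  have h2 : ∀ᶠ p in 𝓝[Set.univ ×ˢ K] (t0, g0), dist (P p.2 (T t0)) (P g0 (T t0)) < η / 2 := by
    have h3 : ContinuousWithinAt (fun g => P g (T t0)) K g0 := hS _ (hTS t0) g0 hg0
    have h4 : Filter.Tendsto (fun p : ℝ × M => p.2) (𝓝[Set.univ ×ˢ K] (t0, g0)) (𝓝[K] g0) := by
      refine tendsto_nhdsWithin_iff.mpr ⟨?_, ?_⟩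
      · exact (continuous_snd.tendsto (t0, g0)).mono_left nhdsWithin_le_nhds
      · exact Filter.eventually_of_mem self_mem_nhdsWithin fun p hp => hp.2
    have h5 := h3.tendsto.comp h4
    exact (Metric.tendsto_nhds.mp h5) _ (by positivity)
  have h3 : ∀ᶠ p in 𝓝[Set.univ ×ˢ K] (t0, g0), p ∈ (Set.univ : Set ℝ) ×ˢ K :=
    self_mem_nhdsWithin
  filter_upwards [h1, h2, h3] with p hp1 hp2 hp3
  calc dist (P p.2 (T p.1)) (P g0 (T t0)) ≤ dist (P p.2 (T p.1)) (P p.2 (T t0)) +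
        dist (P p.2 (T t0)) (P g0 (T t0)) := dist_triangle _ _ _
    _ < η / 2 + η / 2 := by
        refine add_lt_add ?_ hp2
        rw [dist_eq_norm, ← map_sub]
        refine lt_of_le_of_lt ((P p.2).le_opNorm _) ?_
        calc ‖P p.2‖ * ‖T p.1 - T t0‖ ≤ 1 * ‖T p.1 - T t0‖ :=
              mul_le_mul_of_nonneg_right (hP _ hp3.2) (norm_nonneg _)
          _ = dist (T p.1) (T t0) := by rw [one_mul, dist_eq_norm]
          _ < η / 2 := hp1
    _ = η := by ring

end Cont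

section Core

variable {X Y : Type} [DecidableEq X] [DecidableEq Y] {n : ℕ} {A : Set (Op X)} {H : Set (Op Y)}
  {Δ : Op Y → Op (Y × Y)} {δ : Op X → Op (X × Y)} {u : Fin n → Fin n → Op Y}

/-- The data extracted from an equivariant map: a path of homomorphisms `ψ`. -/
structure IsPath (A : Set (Op X)) (H : Set (Op Y)) (δ : Op X → Op (X × Y))
    (u : Fin n → Fin n → Op Y) (ψ : ℝ → Op Y → Op X) : Prop where
  hom : ∀ t, IsHom H A (ψ t)
  cont : ∀ h ∈ H, Continuous fun t => ψ t h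
  zero : ∀ i j, ∃ c : ℂ, ψ 0 (u i j) = c • (1 : Op X)
  one : ∀ i j, δ (ψ 1 (u i j)) = ∑ l, tn (ψ 1 (u i l)) (u l j)

theorem KS_trivial (hA : IsCAlg A) (hH : IsCAlg H) (hΔ : IsHom H (tens H H) Δ)
    (hu : IsCo H Δ u) (hgen : Gen H u) (hδ : IsHom A (tens A H) δ) {ψ : ℝ → Op Y → Op X}
    (hψ : IsPath A H δ u ψ) {a0 : Op X →L[ℂ] ℂ} (ha0 : IsState a0)
    (ha0m : ∀ a ∈ A, ∀ b, a0 (b * a) = a0 b * a0 a) : ∀ g ∈ KS u, g = 1 := by
  classical
  set g1 : Matrix (Fin n) (Fin n) ℂ := smat a0 (fun i j => ψ 1 (u i j)) with hg1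
  have hg1K : g1 ∈ KS u := smat_mem_KS hH hu (hψ.hom 1) ha0 ha0m
  have hK : IsGrp (KS u) := KS_isGrp hH hΔ hu ⟨g1, hg1K⟩
  have hsg1 : star g1 ∈ KS u := by
    obtain ⟨h, hh, h1, h2⟩ := hK.inv g1 hg1K
    have : h = star g1 := by
      calc h = h * (g1 * star g1) := by rw [hg1K.2.1, mul_one]
        _ = star g1 := by rw [← mul_assoc, h1, one_mul]
    rwa [← this]
  -- the states
  let χ : Matrix (Fin n) (Fin n) ℂ → (Op Y →L[ℂ] ℂ) := fun g =>
    if h : g ∈ KS u then h.1.choose else 0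
  have hχ : ∀ g ∈ KS u, IsState (χ g) := by
    intro g hg
    simp only [χ, dif_pos hg]
    exact hg.1.choose_spec.1
  have hχu : ∀ g ∈ KS u, ∀ i j, χ g (u i j) = g i j := by
    intro g hg
    simp only [χ, dif_pos hg]
    exact hg.1.choose_spec.2
  have hmult : ∀ g ∈ KS u, ∀ a ∈ H, ∀ b, χ g (b * a) = χ g b * χ g a := fun g hg =>
    KS_mult hgen hu.umat (hχ g hg) hg (hχu g hg)
  let F : ℝ → Matrix (Fin n) (Fin n) ℂ → Matrix (Fin n) (Fin n) ℂ := fun t g =>
    Matrix.of fun i j => pf a0 (χ g) (δ (ψ t (u i j)))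
  have hFK : ∀ t, ∀ g ∈ KS u, F t g ∈ KS u := by
    intro t g hg
    have h1 : IsHom H A (fun h => (srf (χ g) (δ (ψ t h)) : Op X)) :=
      hom_comp (hom_comp (hψ.hom t) hδ) (srf_hom hA (hχ g hg) (hmult g hg))
    exact smat_mem_KS hH hu h1 ha0 ha0m
  have hF0 : ∀ g ∈ KS u, F 0 g = smat a0 (fun i j => ψ 0 (u i j)) := by
    intro g hg
    ext i j
    obtain ⟨c, hc⟩ := hψ.zero i j
    change a0 (srf (χ g) (δ (ψ 0 (u i j)))) = a0 (ψ 0 (u i j))
    rw [hc, hδ.lin.smul c 1 hA.one, hδ.mul.one, map_smul, srf_one (hχ g hg)]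
  have hF1 : ∀ g ∈ KS u, F 1 g = g1 * g := by
    intro g hg
    ext i j
    change a0 (srf (χ g) (δ (ψ 1 (u i j)))) = _
    rw [hψ.one, map_sum, map_sum, Matrix.mul_apply]
    refine Finset.sum_congr rfl fun k _ => ?_
    rw [srf_tn, map_smul, hχu g hg, smul_eq_mul, mul_comm]
    rfl
  let G : ℝ → Matrix (Fin n) (Fin n) ℂ → Matrix (Fin n) (Fin n) ℂ := fun t g => star g1 * F t g
  have hG : IsContr (KS u) G (star g1 * smat a0 (fun i j => ψ 0 (u i j))) := by
    refine ⟨?_, ?_, ?_, ?_⟩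
    · refine ContinuousOn.mul continuousOn_const ?_
      rw [continuousOn_iff_continuous_restrict]
      refine continuous_matrix fun i j => ?_
      have h1 : ContinuousOn (fun p : ℝ × Matrix (Fin n) (Fin n) ℂ =>
          pf a0 (χ p.2) (δ (ψ p.1 (u i j)))) (Set.univ ×ˢ KS u) := by
        refine joint_cont (fun g => pf a0 (χ g)) (fun g hg => (pf_state ha0 (hχ g hg)).norm)
          (S := tens A H) (pf_cont hH hu hgen χ hχ hχu ha0) (fun t => δ (ψ t (u i j))) ?_ ?_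
        · have h2 := cont_of_isHom hA hδ
          exact h2.comp_continuous (hψ.cont _ (hu.mem i j))
            fun t => (hψ.hom t).maps _ (hu.mem i j)
        · exact fun t => hδ.maps _ ((hψ.hom t).maps _ (hu.mem i j))
      exact continuousOn_iff_continuous_restrict.mp h1
    · intro t g hg
      exact hK.mul _ hsg1 _ (hFK t g hg)
    · intro g hg
      simp only [G]
      rw [hF0 g hg]
    · intro g hg
      simp only [G]
      rw [hF1 g hg, ← mul_assoc, hg1K.2.2, one_mul]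
  exact trivial_of_contr hK hG

theorem dd_cont {ψ : ℝ → Op Y → Op X} (hψ : IsPath A H δ u ψ) (hu : IsCo H Δ u) :
    Continuous fun t => dd (fun i j => ψ t (u i j)) := by
  unfold dd
  refine continuous_finsetSum _ fun i _ => continuous_finsetSum _ fun j _ => ?_
  exact ((hψ.cont _ (hu.mem i j)).sub continuous_const).norm

theorem dd_eq_zero {E : Type*} [CStarAlgebra E] {V : Fin n → Fin n → E} (h : dd V = 0)
    (i j : Fin n) : V i j = if i = j then 1 else 0 := by
  unfold dd at h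
  have h1 := (Finset.sum_eq_zero_iff_of_nonneg (fun i _ =>
    Finset.sum_nonneg fun j _ => norm_nonneg _)).mp h i (Finset.mem_univ i)
  have h2 := (Finset.sum_eq_zero_iff_of_nonneg (fun j _ => norm_nonneg _)).mp h1 j
    (Finset.mem_univ j)
  exact sub_eq_zero.mp (norm_eq_zero.mp h2)

theorem dd_nonneg {E : Type*} [CStarAlgebra E] (V : Fin n → Fin n → E) : 0 ≤ dd V :=
  Finset.sum_nonneg fun i _ => Finset.sum_nonneg fun j _ => norm_nonneg _

/-- Unitary matrices in `MS` near the identity, from a path that leaves the identity. -/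
theorem near_MS (hH : IsCAlg H) (hΔ : IsHom H (tens H H) Δ)
    (hu : IsCo H Δ u) {ψ : ℝ → Op Y → Op X}
    (hψ : IsPath A H δ u ψ) (h0 : dd (fun i j => ψ 0 (u i j)) = 0)
    (h1 : dd (fun i j => ψ 1 (u i j)) ≠ 0) {s : ℝ} (hs : 0 < s)
    (hs1 : 12 * s ≤ 1 / (3 * (n : ℝ) ^ 2)) :
    ∃ g ∈ KS u, 1 / (3 * (n : ℝ) ^ 2) * s / 4 ≤ ‖g - 1‖ ∧ ‖g - 1‖ ≤ 2 * s := by
  have hn : 0 < n := by
    by_contra hcon
    have : n = 0 := by omega
    subst this
    apply h1
    simp [dd]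
  have hn' : (1 : ℝ) ≤ n := by exact_mod_cast hn
  have hq : 0 < 1 / (3 * (n : ℝ) ^ 2) := by positivity
  have hq1 : 1 / (3 * (n : ℝ) ^ 2) ≤ 1 := by
    rw [div_le_one (by positivity)]
    nlinarith
  have hc0 : 0 < dd (fun i j => ψ 1 (u i j)) :=
    lt_of_le_of_ne (dd_nonneg _) (Ne.symm h1)
  have hpow : ∀ M ∈ MS u, ∀ m : ℕ, M ^ (m + 1) ∈ MS u := by
    intro M hM m
    induction m with
    | zero => rw [zero_add, pow_one]; exact hM
    | succ m ih => rw [pow_succ]; exact MS_mul hH hΔ hu ih hM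
  have hst : Continuous (star : Matrix (Fin n) (Fin n) ℂ → Matrix (Fin n) (Fin n) ℂ) :=
    continuous_star
  obtain ⟨g, hg, hg1, hg2, hg3⟩ := near (MS_compact u) hpow hst hq hq1 hc0 (by
    intro c hc hc1
    have h2 : c ∈ Set.Icc (dd (fun i j => ψ 0 (u i j))) (dd (fun i j => ψ 1 (u i j))) :=
      ⟨by rw [h0]; exact hc.le, hc1.le⟩
    obtain ⟨t, _, ht⟩ := intermediate_value_Icc (zero_le_one (α := ℝ))
      (dd_cont hψ hu).continuousOn h2
    simp only at ht
    have hV : IsUMat (fun i j => ψ t (u i j)) := hom_umat hH (hψ.hom t) hu.mem hu.umat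
    obtain ⟨f, hf, e1, e2, e3, e4⟩ := small_mat _ hV (by rw [ht]; exact hc)
    rw [ht] at e1 e2 e3 e4
    exact ⟨_, smat_mem_MS hH hu (hψ.hom t) hf, e1, e2, e3, e4⟩) hs hs1
  exact ⟨g, ⟨hg, hg1, mul_eq_one_comm.mp hg1⟩, hg2, hg3⟩

/-- The scalars are a C*-algebra. -/
theorem scalar_calg {Z : Type} : IsCAlg {h : Op Z | ∃ c : ℂ, h = c • (1 : Op Z)} := by
  refine ⟨⟨⟨0, by rw [zero_smul]⟩, ?_, ?_, ?_⟩, ⟨1, by rw [one_smul]⟩, ?_, ?_⟩
  · rintro a ⟨c, rfl⟩ b ⟨d, rfl⟩
    exact ⟨c + d, by rw [add_smul]⟩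
  · rintro c a ⟨d, rfl⟩
    exact ⟨c * d, by rw [smul_smul]⟩
  · have h1 := (Submodule.span ℂ {(1 : Op Z)}).closed_of_finiteDimensional
    have e : {h : Op Z | ∃ c : ℂ, h = c • (1 : Op Z)} =
        ((Submodule.span ℂ {(1 : Op Z)} : Submodule ℂ (Op Z)) : Set (Op Z)) := by
      ext h
      rw [SetLike.mem_coe, Submodule.mem_span_singleton]
      exact ⟨fun ⟨c, hc⟩ => ⟨c, hc.symm⟩, fun ⟨c, hc⟩ => ⟨c, hc.symm⟩⟩
    unfold NormClosed
    rw [e]
    exact h1
  · rintro a ⟨c, rfl⟩ b ⟨d, rfl⟩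
    exact ⟨c * d, by rw [smul_mul_smul_comm, one_mul]⟩
  · rintro a ⟨c, rfl⟩
    exact ⟨star c, by rw [star_smul, star_one]⟩

theorem no_path (hA : IsCAlg A) (hH : IsCAlg H) (hΔ : IsHom H (tens H H) Δ)
    (hu : IsCo H Δ u) (hgen : Gen H u) (hδ : IsHom A (tens A H) δ) {ψ : ℝ → Op Y → Op X}
    (hψ : IsPath A H δ u ψ) {a0 : Op X →L[ℂ] ℂ} (ha0 : IsState a0)
    (ha0m : ∀ a ∈ A, ∀ b, a0 (b * a) = a0 b * a0 a) (hN : IsNontriv H) : False := by
  have hK := KS_trivial hA hH hΔ hu hgen hδ hψ ha0 ha0m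
  have h0 : dd (fun i j => ψ 0 (u i j)) = 0 := by
    unfold dd
    refine Finset.sum_eq_zero fun i _ => Finset.sum_eq_zero fun j _ => ?_
    rw [norm_eq_zero, sub_eq_zero]
    have h1 := hK _ (smat_mem_KS hH hu (hψ.hom 0) ha0 ha0m)
    obtain ⟨c, hc⟩ := hψ.zero i j
    have h2 := congrFun (congrFun h1 i) j
    change a0 (ψ 0 (u i j)) = _ at h2
    rw [hc, map_smul, ha0.one, smul_eq_mul, mul_one, Matrix.one_apply] at h2
    change ψ 0 (u i j) = _
    rw [hc, h2]
    split_ifs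
    · rw [one_smul]
    · rw [zero_smul]
  by_cases h1 : dd (fun i j => ψ 1 (u i j)) = 0
  · -- trivial corepresentation
    have h2 : ∀ i j, u i j = if i = j then 1 else 0 := by
      intro i j
      have h3 := hψ.one i j
      have h4 : ∀ i j, ψ 1 (u i j) = if i = j then 1 else 0 := fun i j => dd_eq_zero h1 i j
      have h5 : δ (if i = j then 1 else 0) = if i = j then 1 else 0 := by
        split_ifs
        · exact hδ.mul.one
        · exact hom_zero hA hδ
      rw [h4, h5] at h3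
      have h6 := congrArg (fun T => (slf a0 T : Op Y)) h3
      simp only [map_sum, slf_tn, h4] at h6
      have h7 : ∀ l, a0 (if i = l then 1 else 0) • u l j = if i = l then u l j else 0 := by
        intro l
        split_ifs
        · rw [ha0.one, one_smul]
        · rw [map_zero, zero_smul]
      rw [Finset.sum_congr rfl fun l _ => h7 l, Finset.sum_ite_eq, if_pos (Finset.mem_univ _)]
        at h6
      rw [← h6]
      split_ifs
      · exact slf_one ha0
      · exact map_zero _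
    have h3 := hgen _ scalar_calg (fun i j => by
      rw [h2]
      split_ifs
      · exact ⟨1, by rw [one_smul]⟩
      · exact ⟨0, by rw [zero_smul]⟩)
    obtain ⟨h, hh, hns⟩ := hN.nonscalar
    obtain ⟨c, hc⟩ := h3 hh
    exact hns c hc
  · have hn : 0 < n := by
      by_contra hcon
      have : n = 0 := by omega
      subst this
      apply h1
      simp [dd]
    have hn' : (1 : ℝ) ≤ n := by exact_mod_cast hn
    set q : ℝ := 1 / (3 * (n : ℝ) ^ 2) with hq
    have hqpos : 0 < q := by positivity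
    obtain ⟨g, hg, hg1, _⟩ := near_MS hH hΔ hu hψ h0 h1 (s := q / 12) (by positivity)
      (by rw [← hq]; linarith)
    rw [hK g hg, sub_self, norm_zero, ← hq] at hg1
    have : 0 < q * (q / 12) / 4 := by positivity
    linarith

end Core

end Pool.Agent.N16.Main
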