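import Pool.Agent.Helper82.BorsukUlam

/-!
A compact group of units of a finite-dimensional normed algebra which is contractible is trivial.
-/

set_option autoImplicit false
set_option linter.unusedSectionVars false

open Set Filter Topology

noncomputable section

namespace Pool.Agent.N16.Top

variable {R : Type*} [NormedRing R] [NormedAlgebra ℝ R]

/-- `K` is a compact group of units of the normed ring `R`. -/
structure IsGrp (K : Set R) : Prop where
  compact : IsCompact K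
  one : (1 : R) ∈ K
  mul : ∀ g ∈ K, ∀ h ∈ K, g * h ∈ K
  inv : ∀ g ∈ K, ∃ h ∈ K, h * g = 1 ∧ g * h = 1

theorem IsGrp.pow {K : Set R} (hK : IsGrp K) {g : R} (hg : g ∈ K) (n : ℕ) : g ^ n ∈ K := by
  induction n with
  | zero => rw [pow_zero]; exact hK.one
  | succ n ih => rw [pow_succ]; exact hK.mul _ ih _ hg

theorem sq_bound (h : R) (h1 : ‖h - 1‖ ≤ 1 / 2) : ‖h - 1‖ ≤ (2 / 3) * ‖h * h - 1‖ := by
  have e : (2 : ℝ) • (h - 1) = (h * h - 1) - (h - 1) * (h - 1) := by
    rw [two_smul]; noncomm_ring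
  have h2 : ‖(2 : ℝ) • (h - 1)‖ = 2 * ‖h - 1‖ := by
    rw [norm_smul]; norm_num
  have h3 : 2 * ‖h - 1‖ ≤ ‖h * h - 1‖ + ‖h - 1‖ * ‖h - 1‖ := by
    rw [← h2, e]
    exact (norm_sub_le _ _).trans (add_le_add le_rfl (norm_mul_le _ _))
  nlinarith [norm_nonneg (h - 1)]

theorem step1 {K : Set R} (hK : IsGrp K) (hno : ∀ g ∈ K, g * g = 1 → g = 1) :
    ∃ η : ℝ, 0 < η ∧ ∀ h ∈ K, ‖h * h - 1‖ < η → ‖h - 1‖ < 1 / 2 := by
  set C : Set R := K ∩ {h | 1 / 2 ≤ ‖h - 1‖} with hC
  have hCc : IsCompact C := by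
    refine hK.compact.inter_right ?_
    exact isClosed_le continuous_const (by fun_prop)
  by_cases hne : C.Nonempty
  · obtain ⟨h0, hh0, hmin⟩ := hCc.exists_isMinOn hne
      (f := fun h : R => ‖h * h - 1‖) (by fun_prop)
    refine ⟨‖h0 * h0 - 1‖, ?_, ?_⟩
    · rw [norm_pos_iff]
      intro h1
      have h2 := hno h0 hh0.1 (sub_eq_zero.mp h1)
      have h3 := hh0.2
      rw [h2, mem_ofPred_eq, sub_self, norm_zero] at h3
      norm_num at h3
    · intro h hh hlt
      by_contra hcon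
      push Not at hcon
      exact absurd (hmin ⟨hh, hcon⟩) (not_le.mpr hlt)
  · refine ⟨1, one_pos, ?_⟩
    intro h hh _
    by_contra hcon
    push Not at hcon
    exact hne ⟨h, hh, hcon⟩

theorem step3 {K : Set R} (hK : IsGrp K) {η : ℝ}
    (hη : ∀ h ∈ K, ‖h * h - 1‖ < η → ‖h - 1‖ < 1 / 2) (N : ℕ) :
    ∀ h ∈ K, ‖h ^ (2 ^ N) - 1‖ < η → ‖h - 1‖ ≤ (2 / 3 : ℝ) ^ N * ‖h ^ (2 ^ N) - 1‖ := by
  induction N with
  | zero =>
    intro h _ _
    simp
  | succ N ih =>
    intro h hh hlt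
    have e : h ^ (2 ^ (N + 1)) = (h * h) ^ (2 ^ N) := by
      rw [← pow_two, ← pow_mul, pow_succ, mul_comm]
    rw [e] at hlt ⊢
    have h1 := ih (h * h) (hK.mul h hh h hh) hlt
    have h2 : (2 / 3 : ℝ) ^ N ≤ 1 := pow_le_one₀ (by norm_num) (by norm_num)
    have h3 : ‖h * h - 1‖ < η := by
      refine lt_of_le_of_lt h1 ?_
      calc (2 / 3 : ℝ) ^ N * ‖(h * h) ^ (2 ^ N) - 1‖ ≤ 1 * ‖(h * h) ^ (2 ^ N) - 1‖ :=
            mul_le_mul_of_nonneg_right h2 (norm_nonneg _)
        _ < η := by rwa [one_mul]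
    have h4 := sq_bound h (hη h hh h3).le
    calc ‖h - 1‖ ≤ (2 / 3) * ‖h * h - 1‖ := h4
      _ ≤ (2 / 3) * ((2 / 3 : ℝ) ^ N * ‖(h * h) ^ (2 ^ N) - 1‖) := by
          exact mul_le_mul_of_nonneg_left h1 (by norm_num)
      _ = (2 / 3 : ℝ) ^ (N + 1) * ‖(h * h) ^ (2 ^ N) - 1‖ := by ring

theorem IsGrp.bdd {K : Set R} (hK : IsGrp K) : ∃ B : ℝ, 0 < B ∧ ∀ g ∈ K, ‖g‖ ≤ B := by
  obtain ⟨B, hB⟩ := hK.compact.isBounded.exists_norm_le
  exact ⟨max B 1, lt_of_lt_of_le one_pos (le_max_right _ _),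
    fun g hg => (hB g hg).trans (le_max_left _ _)⟩

theorem pigeon {K : Set R} (hK : IsGrp K) {η : ℝ} (hη : 0 < η) :
    ∃ P : ℕ, ∀ g ∈ K, ∃ m : ℕ, 1 ≤ m ∧ m ≤ P ∧ ‖g ^ m - 1‖ < η := by
  obtain ⟨B, hB0, hB⟩ := hK.bdd
  have hr : 0 < η / (2 * B) := by positivity
  obtain ⟨t, ht, htc⟩ := Metric.totallyBounded_iff.mp hK.compact.totallyBounded _ hr
  refine ⟨ht.toFinset.card, fun g hg => ?_⟩
  have hmem : ∀ i : ℕ, ∃ y ∈ ht.toFinset, g ^ i ∈ Metric.ball y (η / (2 * B)) := by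
    intro i
    have h1 := htc (hK.pow hg i)
    rw [mem_iUnion₂] at h1
    obtain ⟨y, hy, h2⟩ := h1
    exact ⟨y, ht.mem_toFinset.mpr hy, h2⟩
  choose c hc hcb using hmem
  have hcard : ht.toFinset.card < (Finset.range (ht.toFinset.card + 1)).card := by
    rw [Finset.card_range]; exact Nat.lt_succ_self _
  obtain ⟨i, hi, j, hj, hij, hcij⟩ := Finset.exists_ne_map_eq_of_card_lt_of_maps_to hcard
    (f := c) (fun i _ => hc i)
  wlog hlt : i < j generalizing i j
  · exact this j hj i hi hij.symm hcij.symm (lt_of_le_of_ne (not_lt.mp hlt) hij.symm)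
  rw [Finset.mem_range] at hi hj
  refine ⟨j - i, by omega, by omega, ?_⟩
  obtain ⟨h, hh, h1, h2⟩ := hK.inv (g ^ i) (hK.pow hg i)
  have e : g ^ (j - i) - 1 = h * (g ^ j - g ^ i) := by
    have e1 : g ^ j = g ^ i * g ^ (j - i) := by
      rw [← pow_add]; congr 1; omega
    rw [e1, mul_sub, ← mul_assoc, h1, one_mul]
  rw [e]
  refine lt_of_le_of_lt (norm_mul_le _ _) ?_
  have h3 : ‖g ^ j - g ^ i‖ < η / (2 * B) + η / (2 * B) := by
    rw [← dist_eq_norm]
    have h4 := hcb i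
    have h5 := hcb j
    rw [Metric.mem_ball] at h4 h5
    rw [hcij] at h4
    calc dist (g ^ j) (g ^ i) ≤ dist (g ^ j) (c j) + dist (c j) (g ^ i) := dist_triangle _ _ _
      _ < η / (2 * B) + η / (2 * B) := by
          rw [dist_comm (c j)]
          exact add_lt_add h5 h4
  calc ‖h‖ * ‖g ^ j - g ^ i‖ ≤ B * ‖g ^ j - g ^ i‖ :=
        mul_le_mul_of_nonneg_right (hB h hh) (norm_nonneg _)
    _ < B * (η / (2 * B) + η / (2 * B)) := mul_lt_mul_of_pos_left h3 hB0
    _ = η := by field_simp; ring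

theorem torsion {K : Set R} (hK : IsGrp K) (hno : ∀ g ∈ K, g * g = 1 → g = 1) :
    ∃ P : ℕ, ∀ g ∈ K, ∃ m : ℕ, 1 ≤ m ∧ m ≤ P ∧ g ^ m = 1 := by
  obtain ⟨η, hη, hη1⟩ := step1 hK hno
  obtain ⟨P, hP⟩ := pigeon hK hη
  refine ⟨P, fun g hg => ?_⟩
  by_contra hcon
  push Not at hcon
  -- a positive lower bound for the distances
  have hμ : ∃ μ : ℝ, 0 < μ ∧ ∀ m : ℕ, 1 ≤ m → m ≤ P → μ ≤ ‖g ^ m - 1‖ := by
    by_cases hP0 : (Finset.Icc 1 P).Nonempty
    · obtain ⟨m0, hm0, hmin⟩ := Finset.exists_min_image (Finset.Icc 1 P)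
        (fun m => ‖g ^ m - 1‖) hP0
      rw [Finset.mem_Icc] at hm0
      refine ⟨‖g ^ m0 - 1‖, ?_, fun m h1 h2 => hmin m (Finset.mem_Icc.mpr ⟨h1, h2⟩)⟩
      rw [norm_pos_iff]
      exact sub_ne_zero.mpr (hcon m0 hm0.1 hm0.2)
    · refine ⟨1, one_pos, fun m h1 h2 => ?_⟩
      exact absurd ⟨m, Finset.mem_Icc.mpr ⟨h1, h2⟩⟩ hP0
  obtain ⟨μ, hμ0, hμ⟩ := hμ
  obtain ⟨N, hN⟩ := exists_pow_lt_of_lt_one (div_pos hμ0 hη) (show (2 / 3 : ℝ) < 1 by norm_num)
  obtain ⟨m, hm1, hm2, hm3⟩ := hP (g ^ (2 ^ N)) (hK.pow hg _)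
  have e : (g ^ (2 ^ N)) ^ m = (g ^ m) ^ (2 ^ N) := by
    rw [← pow_mul, ← pow_mul, mul_comm]
  rw [e] at hm3
  have h1 := step3 hK hη1 N (g ^ m) (hK.pow hg m) hm3
  have h2 := hμ m hm1 hm2
  have h3 : (2 / 3 : ℝ) ^ N * ‖(g ^ m) ^ (2 ^ N) - 1‖ ≤ (2 / 3 : ℝ) ^ N * η :=
    mul_le_mul_of_nonneg_left hm3.le (by positivity)
  have h4 : (2 / 3 : ℝ) ^ N * η < μ := by
    rwa [lt_div_iff₀ hη] at hN
  linarith

theorem isolated {K : Set R} (hK : IsGrp K) (hno : ∀ g ∈ K, g * g = 1 → g = 1) :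
    ∃ ε : ℝ, 0 < ε ∧ ∀ g ∈ K, ‖g - 1‖ < ε → g = 1 := by
  obtain ⟨P, hP⟩ := torsion hK hno
  have hev : ∀ᶠ g in 𝓝 (1 : R), ∀ m ∈ Finset.range (P + 1),
      ‖∑ i ∈ Finset.range m, (g ^ i - 1)‖ < 1 / 2 := by
    rw [Filter.eventually_all_finset]
    intro m _
    have hc : Continuous fun g : R => ‖∑ i ∈ Finset.range m, (g ^ i - 1)‖ := by fun_prop
    have h1 := hc.tendsto 1
    simp only [one_pow, sub_self, Finset.sum_const_zero, norm_zero] at h1
    exact h1.eventually (gt_mem_nhds (by norm_num))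
  obtain ⟨ε, hε, hball⟩ := Metric.eventually_nhds_iff.mp hev
  refine ⟨ε, hε, fun g hg hlt => ?_⟩
  obtain ⟨m, hm1, hm2, hm3⟩ := hP g hg
  have h1 := hball (by rwa [dist_eq_norm]) m (Finset.mem_range.mpr (by omega))
  have h2 : (∑ i ∈ Finset.range m, g ^ i) * (g - 1) = 0 := by
    rw [geom_sum_mul, hm3, sub_self]
  have h3 : (∑ i ∈ Finset.range m, g ^ i) = (m : ℝ) • (1 : R) +
      ∑ i ∈ Finset.range m, (g ^ i - 1) := by
    rw [Finset.sum_sub_distrib, Finset.sum_const, Finset.card_range, ← Nat.cast_smul_eq_nsmul ℝ]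
    abel
  rw [h3, add_mul, smul_mul_assoc, one_mul] at h2
  have h4 : (m : ℝ) * ‖g - 1‖ ≤ 1 / 2 * ‖g - 1‖ := by
    have h5 : ‖(m : ℝ) • (g - 1)‖ = (m : ℝ) * ‖g - 1‖ := by
      rw [norm_smul, Real.norm_natCast]
    rw [← h5, eq_neg_of_add_eq_zero_left h2, norm_neg]
    exact (norm_mul_le _ _).trans (mul_le_mul_of_nonneg_right h1.le (norm_nonneg _))
  have hm : (1 : ℝ) ≤ m := by exact_mod_cast hm1
  have h6 : ‖g - 1‖ = 0 := by nlinarith [norm_nonneg (g - 1)]
  exact sub_eq_zero.mp (norm_eq_zero.mp h6)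

/-- A contraction of `K`. -/
structure IsContr (K : Set R) (G : ℝ → R → R) (c : R) : Prop where
  cont : ContinuousOn (fun p : ℝ × R => G p.1 p.2) (univ ×ˢ K)
  mem : ∀ t, ∀ g ∈ K, G t g ∈ K
  zero : ∀ g ∈ K, G 0 g = c
  one : ∀ g ∈ K, G 1 g = g

theorem trivial_of_isolated {K : Set R} (hK : IsGrp K) {G : ℝ → R → R} {c : R}
    (hG : IsContr K G c) (his : ∃ ε : ℝ, 0 < ε ∧ ∀ g ∈ K, ‖g - 1‖ < ε → g = 1) :
    ∀ g ∈ K, g = 1 := by
  obtain ⟨ε, hε, h1⟩ := his
  obtain ⟨B, hB0, hB⟩ := hK.bdd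
  have hdisc : DiscreteTopology K := by
    refine DiscreteTopology.of_forall_le_dist (r := ε / B) (by positivity) ?_
    rintro ⟨g, hg⟩ ⟨h, hh⟩ hne
    by_contra hlt
    push Not at hlt
    apply hne
    obtain ⟨k, hk, h2, h3⟩ := hK.inv h hh
    have h4 : ‖g * k - 1‖ < ε := by
      have e : g * k - 1 = (g - h) * k := by rw [sub_mul, h3]
      rw [e]
      have h5 : ‖g - h‖ < ε / B := by
        rw [← dist_eq_norm]; exact hlt
      refine lt_of_le_of_lt (norm_mul_le _ _) ?_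
      calc ‖g - h‖ * ‖k‖ ≤ ‖g - h‖ * B := mul_le_mul_of_nonneg_left (hB k hk) (norm_nonneg _)
        _ < ε / B * B := mul_lt_mul_of_pos_right h5 hB0
        _ = ε := by field_simp
    have h5 := h1 (g * k) (hK.mul g hg k hk) h4
    apply Subtype.ext
    change g = h
    calc g = g * (k * h) := by rw [h2, mul_one]
      _ = h := by rw [← mul_assoc, h5, one_mul]
  have key : ∀ g ∈ K, g = c := by
    intro g hg
    have h2 : ContinuousOn (fun t : ℝ => G t g) univ := by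
      have h3 : ContinuousOn (fun t : ℝ => ((t, g) : ℝ × R)) univ := by fun_prop
      exact hG.cont.comp h3 (fun t _ => ⟨mem_univ _, hg⟩)
    have h4 := isPreconnected_univ.constant_of_mapsTo (T := K) ⟨hdisc⟩ h2
      (fun t _ => hG.mem t g hg) (mem_univ 1) (mem_univ 0)
    rw [← hG.one g hg, ← hG.zero g hg]
    exact h4
  intro g hg
  rw [key g hg, key 1 hK.one]

/-- The cone step: from an odd map on `ℝ^m \ 0` to an odd map on `ℝ^(m+1) \ 0`. -/
theorem cone_step {K : Set R} (hK : IsGrp K) {G : ℝ → R → R} {c : R} (hG : IsContr K G c)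
    {a : R} (ha : a ∈ K) (haa : a * a = 1) {m : ℕ} (f : (Fin m → ℝ) → R)
    (hfc : ContinuousOn f {0}ᶜ) (hfK : ∀ x, f x ∈ K) (hfo : ∀ x, x ≠ 0 → f (-x) = a * f x) :
    ∃ F : (Fin (m + 1) → ℝ) → R, ContinuousOn F {0}ᶜ ∧ (∀ x, F x ∈ K) ∧
      ∀ x, x ≠ 0 → F (-x) = a * F x := by
  set τ : (Fin (m + 1) → ℝ) → ℝ := fun x => ‖Fin.tail x‖ / (‖Fin.tail x‖ + |x 0|) with hτ
  set Hp : (Fin (m + 1) → ℝ) → R := fun x => G (τ x) (f (Fin.tail x)) with hHp
  have htc : Continuous (Fin.tail : (Fin (m + 1) → ℝ) → (Fin m → ℝ)) := by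
    refine continuous_pi fun i => ?_
    exact continuous_apply _
  have hpos : ∀ x : Fin (m + 1) → ℝ, x ≠ 0 → 0 < ‖Fin.tail x‖ + |x 0| := by
    intro x hx
    by_contra hcon
    push Not at hcon
    apply hx
    have h1 : ‖Fin.tail x‖ = 0 := by
      have := norm_nonneg (Fin.tail x); have := abs_nonneg (x 0); linarith
    have h2 : |x 0| = 0 := by
      have := norm_nonneg (Fin.tail x); have := abs_nonneg (x 0); linarith
    funext i
    refine Fin.cases ?_ (fun j => ?_) i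
    · exact abs_eq_zero.mp h2
    · exact congrFun (norm_eq_zero.mp h1) j
  have hτc : ∀ x : Fin (m + 1) → ℝ, x ≠ 0 → ContinuousAt τ x := by
    intro x hx
    refine ContinuousAt.div (by fun_prop) (by fun_prop) (hpos x hx).ne'
  have hτn : ∀ x, τ (-x) = τ x := by
    intro x
    have e : Fin.tail (-x) = -Fin.tail x := rfl
    simp only [hτ, e, norm_neg, Pi.neg_apply, abs_neg]
  have hHK : ∀ x, Hp x ∈ K := fun x => hG.mem _ _ (hfK _)
  have hHc : ∀ x : Fin (m + 1) → ℝ, x ≠ 0 → ContinuousAt Hp x := by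
    intro x hx
    by_cases hx' : Fin.tail x = 0
    · -- uniform continuity of the contraction
      have hτx : τ x = 0 := by simp only [hτ, hx', norm_zero, zero_div]
      have hcomp : IsCompact (Icc (-1 : ℝ) 1 ×ˢ K) := isCompact_Icc.prod hK.compact
      have huc := hcomp.uniformContinuousOn_of_continuous
        (hG.cont.mono (prod_mono (subset_univ _) Subset.rfl))
      rw [Metric.uniformContinuousOn_iff] at huc
      rw [Metric.continuousAt_iff]
      intro ε hε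
      obtain ⟨δ, hδ, h1⟩ := huc ε hε
      have h2 := (Metric.continuousAt_iff.mp (hτc x hx)) (min δ 1) (lt_min hδ one_pos)
      obtain ⟨δ', hδ', h3⟩ := h2
      refine ⟨δ', hδ', fun {y} hy => ?_⟩
      have h4 := h3 hy
      rw [hτx, Real.dist_eq, sub_zero] at h4
      have h5 : Hp x = c := by
        simp only [hHp]; rw [hτx]; exact hG.zero _ (hfK _)
      have h6 : G 0 (f (Fin.tail y)) = c := hG.zero _ (hfK _)
      rw [h5, ← h6]
      have h7 := lt_min_iff.mp h4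
      have h8 := abs_lt.mp h7.2
      refine h1 (τ y, f (Fin.tail y)) ⟨⟨h8.1.le, h8.2.le⟩, hfK _⟩ (0, f (Fin.tail y))
        ⟨⟨by norm_num, by norm_num⟩, hfK _⟩ ?_
      rw [Prod.dist_eq, dist_self, Real.dist_eq, sub_zero, max_eq_left (abs_nonneg _)]
      exact h7.1
    · have h1 : ContinuousAt (fun y : Fin (m + 1) → ℝ => f (Fin.tail y)) x := by
        have h2 : ContinuousAt f (Fin.tail x) :=
          hfc.continuousAt (isOpen_compl_singleton.mem_nhds hx')
        exact h2.comp htc.continuousAt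
      have h3 : ContinuousWithinAt (fun p : ℝ × R => G p.1 p.2) (univ ×ˢ K)
          (τ x, f (Fin.tail x)) := hG.cont _ ⟨mem_univ _, hfK _⟩
      have h4 : Tendsto (fun y => (τ y, f (Fin.tail y))) (𝓝 x)
          (𝓝[univ ×ˢ K] (τ x, f (Fin.tail x))) := by
        refine tendsto_nhdsWithin_iff.mpr ⟨(hτc x hx).prodMk h1, ?_⟩
        exact Filter.Eventually.of_forall fun y => ⟨mem_univ _, hfK _⟩
      exact h3.tendsto.comp h4
  refine ⟨fun x => if 0 ≤ x 0 then Hp x else a * Hp (-x), ?_, ?_, ?_⟩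
  · have hHc' : ContinuousOn Hp {0}ᶜ := fun x hx => (hHc x hx).continuousWithinAt
    refine ContinuousOn.if ?_ (hHc'.mono inter_subset_left) ?_
    · rintro x ⟨hx, hfr⟩
      have h0 : (0 : ℝ) = x 0 := by
        have := frontier_le_subset_eq (f := fun _ : Fin (m + 1) → ℝ => (0 : ℝ))
          (g := fun x : Fin (m + 1) → ℝ => x 0) continuous_const (continuous_apply 0) hfr
        exact this
      have hx' : Fin.tail x ≠ 0 := by
        intro h1
        apply hx
        funext i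
        refine Fin.cases ?_ (fun j => ?_) i
        · exact h0.symm
        · exact congrFun h1 j
      have hτ1 : τ x = 1 := by
        simp only [hτ]
        rw [← h0, abs_zero, add_zero, div_self (norm_ne_zero_iff.mpr hx')]
      simp only [hHp]
      rw [hτn, hτ1, hG.one _ (hfK _), hG.one _ (hfK _)]
      have e : Fin.tail (-x) = -Fin.tail x := rfl
      rw [e, hfo _ hx', ← mul_assoc, haa, one_mul]
    · refine ContinuousOn.mul continuousOn_const ?_
      refine (hHc'.comp continuous_neg.continuousOn (s := {0}ᶜ) ?_).mono inter_subset_left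
      intro x hx
      simpa using hx
  · intro x
    dsimp only
    split_ifs
    · exact hHK x
    · exact hK.mul _ ha _ (hHK _)
  · intro x hx
    dsimp only
    rw [neg_neg, Pi.neg_apply]
    rcases lt_trichotomy (x 0) 0 with h | h | h
    · rw [if_pos (by linarith), if_neg (by linarith), ← mul_assoc, haa, one_mul]
    · rw [if_pos (by linarith), if_pos (by linarith)]
      have hx' : Fin.tail x ≠ 0 := by
        intro h1
        apply hx
        funext i
        refine Fin.cases ?_ (fun j => ?_) i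
        · exact h
        · exact congrFun h1 j
      have hτ1 : τ x = 1 := by
        simp only [hτ]
        rw [h, abs_zero, add_zero, div_self (norm_ne_zero_iff.mpr hx')]
      simp only [hHp]
      rw [hτn, hτ1, hG.one _ (hfK _), hG.one _ (hfK _)]
      have e : Fin.tail (-x) = -Fin.tail x := rfl
      rw [e, hfo _ hx']
    · rw [if_neg (by linarith), if_pos (by linarith)]

theorem odd_map {K : Set R} (hK : IsGrp K) {G : ℝ → R → R} {c : R} (hG : IsContr K G c)
    {a : R} (ha : a ∈ K) (haa : a * a = 1) (m : ℕ) :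
    ∃ F : (Fin m → ℝ) → R, ContinuousOn F {0}ᶜ ∧ (∀ x, F x ∈ K) ∧
      ∀ x, x ≠ 0 → F (-x) = a * F x := by
  induction m with
  | zero =>
    refine ⟨fun _ => 1, continuousOn_const, fun _ => hK.one, fun x hx => ?_⟩
    exact absurd (Subsingleton.elim x 0) hx
  | succ m ih =>
    obtain ⟨f, h1, h2, h3⟩ := ih
    exact cone_step hK hG ha haa f h1 h2 h3

theorem no_involution [FiniteDimensional ℝ R] {K : Set R} (hK : IsGrp K) {G : ℝ → R → R} {c : R}
    (hG : IsContr K G c) {a : R} (ha : a ∈ K) (haa : a * a = 1) : a = 1 := by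
  set N := Module.finrank ℝ R with hN
  obtain ⟨f, h1, h2, h3⟩ := odd_map hK hG ha haa (N + 1)
  let L : R ≃L[ℝ] (Fin N → ℝ) := ContinuousLinearEquiv.ofFinrankEq (by simp [hN])
  obtain ⟨B, hB0, hB⟩ := hK.bdd
  set g : (Fin (N + 1) → ℝ) → (Fin N → ℝ) := fun x => L (‖x‖ • ((1 - a) * f x)) with hg
  have hgc : Continuous g := by
    refine L.continuous.comp ?_
    rw [continuous_iff_continuousAt]
    intro x
    by_cases hx : x = 0
    · subst hx
      rw [ContinuousAt, norm_zero, zero_smul]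
      rw [tendsto_zero_iff_norm_tendsto_zero]
      have h4 : Tendsto (fun x : Fin (N + 1) → ℝ => ‖x‖ * (‖1 - a‖ * B)) (𝓝 0) (𝓝 0) := by
        have : Continuous fun x : Fin (N + 1) → ℝ => ‖x‖ * (‖1 - a‖ * B) := by fun_prop
        have h5 := this.tendsto 0
        simpa using h5
      refine squeeze_zero (fun _ => norm_nonneg _) (fun x => ?_) h4
      rw [norm_smul, norm_norm]
      refine mul_le_mul_of_nonneg_left ?_ (norm_nonneg _)
      exact (norm_mul_le _ _).trans (mul_le_mul_of_nonneg_left (hB _ (h2 x)) (norm_nonneg _))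
    · have h4 : ContinuousAt f x := h1.continuousAt (isOpen_compl_singleton.mem_nhds hx)
      exact continuous_norm.continuousAt.smul (continuousAt_const.mul h4)
  have hgo : ∀ x, g (-x) = -g x := by
    intro x
    by_cases hx : x = 0
    · subst hx
      simp [hg]
    · simp only [hg]
      rw [norm_neg, h3 x hx, ← map_neg, ← smul_neg, ← mul_assoc, ← neg_mul]
      congr 3
      rw [sub_mul, one_mul, haa, neg_sub]
  obtain ⟨x, hx, hx0⟩ := Helper82.BorsukUlam.borsuk_ulam N g hgc hgo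
  have hxne : x ≠ 0 := by
    rintro rfl
    simp [Helper82.BorsukUlam.K] at hx
  have h4 : ‖x‖ • ((1 - a) * f x) = 0 := by
    simp only [hg] at hx0
    exact (map_eq_zero_iff L L.injective).mp hx0
  rw [smul_eq_zero] at h4
  have h5 : (1 - a) * f x = 0 := h4.resolve_left (norm_ne_zero_iff.mpr hxne)
  obtain ⟨k, hk, h6, h7⟩ := hK.inv (f x) (h2 x)
  have h8 : (1 - a) * f x * k = 0 := by rw [h5, zero_mul]
  rw [mul_assoc, h7, mul_one] at h8
  exact (sub_eq_zero.mp h8).symm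

/-- A contractible compact group of units in a finite-dimensional normed algebra is trivial. -/
theorem trivial_of_contr [FiniteDimensional ℝ R] {K : Set R} (hK : IsGrp K) {G : ℝ → R → R} {c : R}
    (hG : IsContr K G c) : ∀ g ∈ K, g = 1 :=
  trivial_of_isolated hK hG (isolated hK fun _ hg hgg => no_involution hK hG hg hgg)

end Pool.Agent.N16.Top
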