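import Pool.Agent.N16.States
import Pool.Agent.N16.Top

/-!
The compact set of matrices `f(u)`, `f` a state, for a corepresentation `u`; the group of the
unitary ones.
-/

set_option autoImplicit false
set_option linter.unusedSectionVars false

open scoped InnerProductSpace ComplexConjugate Matrix.Norms.Operator
open H584BuDefs
open H584Bu (tn tn_entry tn_mul tn_one tn_star tn_smul_left tn_smul_right tn_add_left tn_add_right
  isTensor_iff coeff_eq tens_csub tens_le
  tn_mem_tens CSub op_ext entry_one entry_add entry_smul norm_entry_le norm_tn)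
open H584Roe (entry)
open H848NJ (sl sl_entry sl_tn sl_mem norm_le_of_isHom tens_calg)
open Pool.Agent.N16.Slice Pool.Agent.N16.States Pool.Agent.N16.Top

noncomputable section

namespace Pool.Agent.N16.Mats

section Ext

variable {Y : Type}

/-- Extension of functionals from a C*-algebra. -/
theorem exists_ext {H : Set (Op Y)} (hH : IsCAlg H) (φ : Op Y → ℂ)
    (hadd : ∀ a ∈ H, ∀ b ∈ H, φ (a + b) = φ a + φ b) (hsmul : ∀ c : ℂ, ∀ a ∈ H, φ (c • a) = c * φ a)
    (hb : ∀ a ∈ H, ‖φ a‖ ≤ ‖a‖) (h1 : φ 1 = 1) :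
    ∃ f : Op Y →L[ℂ] ℂ, IsState f ∧ ∀ a ∈ H, f a = φ a := by
  let p : Submodule ℂ (Op Y) :=
    { carrier := H
      add_mem' := fun {a b} ha hb => hH.subspace.add a ha b hb
      zero_mem' := hH.subspace.zero
      smul_mem' := fun c a ha => hH.subspace.smul c a ha }
  let φ' : p →L[ℂ] ℂ := LinearMap.mkContinuous
    { toFun := fun a => φ a.1
      map_add' := fun a b => hadd a.1 a.2 b.1 b.2
      map_smul' := fun c a => by
        rw [RingHom.id_apply, smul_eq_mul]; exact hsmul c a.1 a.2 } 1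
    (fun a => by rw [one_mul]; exact hb a.1 a.2)
  obtain ⟨g, hg1, hg2⟩ := exists_extension_norm_eq p φ'
  have hga : ∀ a ∈ H, g a = φ a := fun a ha => hg1 ⟨a, ha⟩
  exact ⟨g, ⟨hg2.le.trans (LinearMap.mkContinuous_norm_le _ zero_le_one _),
    by rw [hga 1 hH.one, h1]⟩, hga⟩

end Ext

section Conv

variable {Y : Type} [DecidableEq Y] {H : Set (Op Y)} {Δ : Op Y → Op (Y × Y)}

/-- Convolution of states. -/
theorem exists_conv (hH : IsCAlg H) (hΔ : IsHom H (tens H H) Δ) {f g : Op Y →L[ℂ] ℂ}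
    (hf : IsState f) (hg : IsState g) :
    ∃ ρ : Op Y →L[ℂ] ℂ, IsState ρ ∧ ∀ a ∈ H, ρ a = f (srf g (Δ a)) := by
  refine exists_ext hH (fun a => f (srf g (Δ a))) ?_ ?_ ?_ ?_
  · intro a ha b hb
    rw [hΔ.lin.add a ha b hb, map_add, map_add]
  · intro c a ha
    rw [hΔ.lin.smul c a ha, map_smul, map_smul, smul_eq_mul]
  · intro a ha
    refine (hf.le _).trans ?_
    refine (norm_srf g _).trans ?_
    calc ‖g‖ * ‖Δ a‖ ≤ 1 * ‖a‖ :=
          mul_le_mul hg.norm (norm_le_of_isHom hH hΔ a ha) (norm_nonneg _) zero_le_one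
      _ = ‖a‖ := one_mul _
  · rw [hΔ.mul.one, srf_one hg, hf.one]

end Conv

/-- A finite-dimensional unitary corepresentation. -/
structure IsCo {Y : Type} [DecidableEq Y] {n : ℕ} (H : Set (Op Y)) (Δ : Op Y → Op (Y × Y))
    (u : Fin n → Fin n → Op Y) : Prop where
  mem : ∀ i j, u i j ∈ H
  umat : IsUMat u
  comul : ∀ i j, Δ (u i j) = ∑ k, tn (u i k) (u k j)

section MS

variable {Y : Type} {n : ℕ}

/-- The matrices `f(u)`. -/
def MS (u : Fin n → Fin n → Op Y) : Set (Matrix (Fin n) (Fin n) ℂ) :=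
  {g | ∃ f : Op Y →L[ℂ] ℂ, IsState f ∧ ∀ i j, f (u i j) = g i j}

/-- The unitary matrices `f(u)`. -/
def KS (u : Fin n → Fin n → Op Y) : Set (Matrix (Fin n) (Fin n) ℂ) :=
  {g | g ∈ MS u ∧ g * star g = 1 ∧ star g * g = 1}

theorem MS_compact (u : Fin n → Fin n → Op Y) : IsCompact (MS u) := by
  set S : Set (WeakDual ℂ (Op Y)) :=
    (WeakDual.toStrongDual ⁻¹' Metric.closedBall (0 : StrongDual ℂ (Op Y)) 1) ∩ {f | f 1 = 1}
    with hS
  have hSc : IsCompact S := by
    refine (WeakDual.isCompact_closedBall (0 : StrongDual ℂ (Op Y)) 1).inter_right ?_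
    exact isClosed_eq (WeakDual.eval_continuous 1) continuous_const
  have hE : Continuous fun f : WeakDual ℂ (Op Y) =>
      (Matrix.of fun i j => f (u i j) : Matrix (Fin n) (Fin n) ℂ) := by
    refine continuous_matrix fun i j => ?_
    exact WeakDual.eval_continuous (u i j)
  have h1 := hSc.image hE
  have h2 : MS u = (fun f : WeakDual ℂ (Op Y) =>
      (Matrix.of fun i j => f (u i j) : Matrix (Fin n) (Fin n) ℂ)) '' S := by
    ext g
    constructor
    · rintro ⟨f, hf, hfg⟩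
      refine ⟨StrongDual.toWeakDual f, ⟨?_, ?_⟩, ?_⟩
      · exact (dist_zero_right (f : StrongDual ℂ (Op Y))).le.trans hf.norm
      · exact hf.one
      · ext i j
        exact hfg i j
    · rintro ⟨f, ⟨hf1, hf2⟩, rfl⟩
      refine ⟨WeakDual.toStrongDual f, ⟨?_, hf2⟩, fun i j => rfl⟩
      exact (dist_zero_right (WeakDual.toStrongDual f)).symm.le.trans hf1
  rw [h2]
  exact h1

theorem KS_compact (u : Fin n → Fin n → Op Y) : IsCompact (KS u) := by
  have e : KS u = MS u ∩ ({g | g * star g = 1} ∩ {g | star g * g = 1}) := rfl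
  rw [e]
  refine (MS_compact u).inter_right ?_
  refine IsClosed.inter ?_ ?_
  · refine isClosed_eq ?_ continuous_const
    exact continuous_id.mul continuous_star
  · refine isClosed_eq ?_ continuous_const
    exact continuous_star.mul continuous_id

variable [DecidableEq Y] {H : Set (Op Y)} {Δ : Op Y → Op (Y × Y)}

theorem MS_mul (hH : IsCAlg H) (hΔ : IsHom H (tens H H) Δ) {u : Fin n → Fin n → Op Y}
    (hu : IsCo H Δ u) {g h : Matrix (Fin n) (Fin n) ℂ} (hg : g ∈ MS u) (hh : h ∈ MS u) :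
    g * h ∈ MS u := by
  obtain ⟨f, hf, hfg⟩ := hg
  obtain ⟨f', hf', hfh⟩ := hh
  obtain ⟨ρ, hρ, hρ1⟩ := exists_conv hH hΔ hf hf'
  refine ⟨ρ, hρ, fun i j => ?_⟩
  rw [hρ1 _ (hu.mem i j), hu.comul, map_sum, map_sum, Matrix.mul_apply]
  refine Finset.sum_congr rfl fun k _ => ?_
  rw [srf_tn, map_smul, smul_eq_mul, hfg, hfh, mul_comm]

theorem KS_mul (hH : IsCAlg H) (hΔ : IsHom H (tens H H) Δ) {u : Fin n → Fin n → Op Y}
    (hu : IsCo H Δ u) {g h : Matrix (Fin n) (Fin n) ℂ} (hg : g ∈ KS u) (hh : h ∈ KS u) :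
    g * h ∈ KS u := by
  refine ⟨MS_mul hH hΔ hu hg.1 hh.1, ?_, ?_⟩
  · rw [star_mul]
    calc g * h * (star h * star g) = g * (h * star h) * star g := by noncomm_ring
      _ = 1 := by rw [hh.2.1, mul_one, hg.2.1]
  · rw [star_mul]
    calc star h * star g * (g * h) = star h * (star g * g) * h := by noncomm_ring
      _ = 1 := by rw [hg.2.2, mul_one, hh.2.2]

end MS

section Grp

variable {R : Type*} [NormedRing R]

/-- A compact set of invertible elements closed under products is a group. -/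
theorem isGrp_of_mul {K : Set R} (hc : IsCompact K) (hmul : ∀ g ∈ K, ∀ h ∈ K, g * h ∈ K)
    (hne : K.Nonempty) (ι : R → R) {B : ℝ} (hB : ∀ g ∈ K, ‖ι g‖ ≤ B)
    (hι : ∀ g ∈ K, g * ι g = 1 ∧ ι g * g = 1) : IsGrp K := by
  have hB0 : 0 < max B 1 := lt_of_lt_of_le one_pos (le_max_right _ _)
  have hB' : ∀ g ∈ K, ‖ι g‖ ≤ max B 1 := fun g hg => (hB g hg).trans (le_max_left _ _)
  have hpow : ∀ g ∈ K, ∀ m : ℕ, g ^ (m + 1) ∈ K := by
    intro g hg m
    induction m with
    | zero => rw [zero_add, pow_one]; exact hg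
    | succ m ih => rw [pow_succ]; exact hmul _ ih _ hg
  have hrec : ∀ g ∈ K, ∀ η : ℝ, 0 < η → ∃ m : ℕ, ‖g ^ (m + 1) - 1‖ < η := by
    intro g hg η hη
    have hr : 0 < η / (2 * max B 1) := by positivity
    obtain ⟨t, ht, htc⟩ := Metric.totallyBounded_iff.mp hc.totallyBounded _ hr
    have hmem : ∀ i : ℕ, ∃ y ∈ ht.toFinset, g ^ (i + 1) ∈ Metric.ball y (η / (2 * max B 1)) := by
      intro i
      have h1 := htc (hpow g hg i)
      rw [Set.mem_iUnion₂] at h1
      obtain ⟨y, hy, h2⟩ := h1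
      exact ⟨y, ht.mem_toFinset.mpr hy, h2⟩
    choose c hc' hcb using hmem
    have hcard : ht.toFinset.card < (Finset.range (ht.toFinset.card + 1)).card := by
      rw [Finset.card_range]; exact Nat.lt_succ_self _
    obtain ⟨i, hi, j, hj, hij, hcij⟩ := Finset.exists_ne_map_eq_of_card_lt_of_maps_to hcard
      (f := c) (fun i _ => hc' i)
    wlog hlt : i < j generalizing i j
    · exact this j hj i hi hij.symm hcij.symm (lt_of_le_of_ne (not_lt.mp hlt) hij.symm)
    refine ⟨j - i - 1, ?_⟩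
    have hh := hι (g ^ (i + 1)) (hpow g hg i)
    have e : g ^ (j - i - 1 + 1) - 1 = ι (g ^ (i + 1)) * (g ^ (j + 1) - g ^ (i + 1)) := by
      have e1 : g ^ (j + 1) = g ^ (i + 1) * g ^ (j - i - 1 + 1) := by
        rw [← pow_add]; congr 1; omega
      rw [e1, mul_sub, ← mul_assoc, hh.2, one_mul]
    rw [e]
    refine lt_of_le_of_lt (norm_mul_le _ _) ?_
    have h3 : ‖g ^ (j + 1) - g ^ (i + 1)‖ < η / (2 * max B 1) + η / (2 * max B 1) := by
      rw [← dist_eq_norm]
      have h4 := hcb i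
      have h5 := hcb j
      rw [Metric.mem_ball] at h4 h5
      rw [hcij] at h4
      calc dist (g ^ (j + 1)) (g ^ (i + 1)) ≤ dist (g ^ (j + 1)) (c j) +
            dist (c j) (g ^ (i + 1)) := dist_triangle _ _ _
        _ < η / (2 * max B 1) + η / (2 * max B 1) := by
            rw [dist_comm (c j)]
            exact add_lt_add h5 h4
    calc ‖ι (g ^ (i + 1))‖ * ‖g ^ (j + 1) - g ^ (i + 1)‖
        ≤ max B 1 * ‖g ^ (j + 1) - g ^ (i + 1)‖ :=
          mul_le_mul_of_nonneg_right (hB' _ (hpow g hg i)) (norm_nonneg _)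
      _ < max B 1 * (η / (2 * max B 1) + η / (2 * max B 1)) := mul_lt_mul_of_pos_left h3 hB0
      _ = η := by field_simp; ring
  have hone : (1 : R) ∈ K := by
    obtain ⟨g, hg⟩ := hne
    have h1 : (1 : R) ∈ closure K := by
      rw [Metric.mem_closure_iff]
      intro η hη
      obtain ⟨m, hm⟩ := hrec g hg η hη
      refine ⟨g ^ (m + 1), hpow g hg m, ?_⟩
      rw [dist_eq_norm, norm_sub_rev]
      exact hm
    rwa [hc.isClosed.closure_eq] at h1
  have hpow' : ∀ g ∈ K, ∀ m : ℕ, g ^ m ∈ K := by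
    intro g hg m
    cases m with
    | zero => rw [pow_zero]; exact hone
    | succ m => exact hpow g hg m
  refine ⟨hc, hone, hmul, fun g hg => ⟨ι g, ?_, (hι g hg).2, (hι g hg).1⟩⟩
  have h1 : ι g ∈ closure K := by
    rw [Metric.mem_closure_iff]
    intro η hη
    obtain ⟨m, hm⟩ := hrec g hg (η / max B 1) (by positivity)
    refine ⟨g ^ m, hpow' g hg m, ?_⟩
    rw [dist_comm, dist_eq_norm]
    have e : g ^ m - ι g = ι g * (g ^ (m + 1) - 1) := by
      rw [pow_succ', mul_sub, ← mul_assoc, (hι g hg).2, one_mul, mul_one]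
    rw [e]
    refine lt_of_le_of_lt (norm_mul_le _ _) ?_
    calc ‖ι g‖ * ‖g ^ (m + 1) - 1‖ ≤ max B 1 * ‖g ^ (m + 1) - 1‖ :=
          mul_le_mul_of_nonneg_right (hB' g hg) (norm_nonneg _)
      _ < max B 1 * (η / max B 1) := mul_lt_mul_of_pos_left hm hB0
      _ = η := by field_simp
  rwa [hc.isClosed.closure_eq] at h1

end Grp

section KSgrp

variable {Y : Type} {n : ℕ} [DecidableEq Y] {H : Set (Op Y)} {Δ : Op Y → Op (Y × Y)}

theorem KS_isGrp (hH : IsCAlg H) (hΔ : IsHom H (tens H H) Δ) {u : Fin n → Fin n → Op Y}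
    (hu : IsCo H Δ u) (hne : (KS u).Nonempty) : IsGrp (KS u) := by
  have hb : ∃ B : ℝ, ∀ g ∈ KS u, ‖star g‖ ≤ B := by
    have h1 : IsCompact (star '' KS u) := (KS_compact u).image continuous_star
    obtain ⟨B, hB⟩ := h1.isBounded.exists_norm_le
    exact ⟨B, fun g hg => hB _ ⟨g, hg, rfl⟩⟩
  obtain ⟨B, hB⟩ := hb
  exact isGrp_of_mul (KS_compact u) (fun g hg h hh => KS_mul hH hΔ hu hg hh) hne star hB
    (fun g hg => hg.2)

end KSgrp

end Pool.Agent.N16.Mats
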