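import Pool.Agent.N16.Mats

/-!
Small unitary matrices over a C*-algebra and powers of the matrices of their vector states.
-/

set_option autoImplicit false
set_option linter.unusedSectionVars false

open scoped InnerProductSpace ComplexConjugate Matrix.Norms.Operator
open H584BuDefs
open Pool.Agent.N16.Slice Pool.Agent.N16.States Pool.Agent.N16.Top Pool.Agent.N16.Mats

noncomputable section

namespace Pool.Agent.N16.Num

section Pow

variable {R : Type*} [NormedRing R] [NormedAlgebra ℝ R]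

theorem norm_mul_near {a x : R} {c : ℝ} (ha : ‖a - 1‖ ≤ c) : ‖a * x‖ ≤ (1 + c) * ‖x‖ := by
  have e : a * x = x + (a - 1) * x := by noncomm_ring
  rw [e]
  refine (norm_add_le _ _).trans ?_
  have h1 := norm_mul_le (a - 1) x
  have h2 : ‖a - 1‖ * ‖x‖ ≤ c * ‖x‖ := mul_le_mul_of_nonneg_right ha (norm_nonneg _)
  linarith

theorem norm_near_mul {a x : R} {c : ℝ} (ha : ‖a - 1‖ ≤ c) : ‖x * a‖ ≤ (1 + c) * ‖x‖ := by
  have e : x * a = x + x * (a - 1) := by noncomm_ring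
  rw [e]
  refine (norm_add_le _ _).trans ?_
  have h1 := norm_mul_le x (a - 1)
  have h2 : ‖x‖ * ‖a - 1‖ ≤ ‖x‖ * c := mul_le_mul_of_nonneg_left ha (norm_nonneg _)
  linarith

theorem pow_lin {a : R} {c : ℝ} (hc : 0 ≤ c) (ha : ‖a - 1‖ ≤ c) (m : ℕ) :
    ‖a ^ m - 1 - (m : ℝ) • (a - 1)‖ ≤ (m : ℝ) ^ 2 * c ^ 2 * (1 + c) ^ m := by
  induction m with
  | zero => simp
  | succ m ih =>
    have e : a ^ (m + 1) - 1 - ((m + 1 : ℕ) : ℝ) • (a - 1) =
        a * (a ^ m - 1 - (m : ℝ) • (a - 1)) + (m : ℝ) • ((a - 1) * (a - 1)) := by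
      rw [mul_sub, mul_sub, mul_smul_comm, pow_succ']
      push_cast
      rw [add_smul, one_smul, sub_mul, one_mul, smul_sub (m : ℝ) (a * (a - 1))]
      noncomm_ring
    rw [e]
    refine (norm_add_le _ _).trans ?_
    have h1 := norm_mul_near (x := a ^ m - 1 - (m : ℝ) • (a - 1)) ha
    have h2 : ‖(m : ℝ) • ((a - 1) * (a - 1))‖ ≤ (m : ℝ) * c ^ 2 := by
      rw [norm_smul, Real.norm_natCast, pow_two]
      refine mul_le_mul_of_nonneg_left ((norm_mul_le _ _).trans ?_) (Nat.cast_nonneg m)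
      exact mul_le_mul ha ha (norm_nonneg _) hc
    have h3 : (1 + c) * ‖a ^ m - 1 - (m : ℝ) • (a - 1)‖ ≤
        (1 + c) * ((m : ℝ) ^ 2 * c ^ 2 * (1 + c) ^ m) :=
      mul_le_mul_of_nonneg_left ih (by linarith)
    have h4 : (1 : ℝ) ≤ (1 + c) ^ (m + 1) := one_le_pow₀ (by linarith)
    have h5 : (0 : ℝ) ≤ m := Nat.cast_nonneg m
    have h6 : (m : ℝ) * c ^ 2 ≤ (m : ℝ) * c ^ 2 * (1 + c) ^ (m + 1) := by
      have : 0 ≤ (m : ℝ) * c ^ 2 := by positivity
      nlinarith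
    have h7 : (1 + c) * ((m : ℝ) ^ 2 * c ^ 2 * (1 + c) ^ m) =
        (m : ℝ) ^ 2 * c ^ 2 * (1 + c) ^ (m + 1) := by ring
    have h8 : (m : ℝ) ^ 2 * c ^ 2 * (1 + c) ^ (m + 1) + (m : ℝ) * c ^ 2 * (1 + c) ^ (m + 1) ≤
        ((m + 1 : ℕ) : ℝ) ^ 2 * c ^ 2 * (1 + c) ^ (m + 1) := by
      push_cast
      have h9 : 0 ≤ c ^ 2 * (1 + c) ^ (m + 1) := by positivity
      nlinarith
    linarith

theorem pow_unit {a b : R} {c : ℝ} (hc : 0 ≤ c) (ha : ‖a - 1‖ ≤ c) (hb : ‖b - 1‖ ≤ c)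
    (hab : ‖a * b - 1‖ ≤ 2 * c ^ 2) (m : ℕ) :
    ‖a ^ m * b ^ m - 1‖ ≤ 2 * m * c ^ 2 * (1 + c) ^ (2 * m) := by
  induction m with
  | zero => simp
  | succ m ih =>
    have e : a ^ (m + 1) * b ^ (m + 1) - 1 = a * ((a ^ m * b ^ m - 1) * b) + (a * b - 1) := by
      rw [pow_succ' a, pow_succ b]
      noncomm_ring
    rw [e]
    refine (norm_add_le _ _).trans ?_
    have h1 := norm_mul_near (x := (a ^ m * b ^ m - 1) * b) ha
    have h2 := norm_near_mul (x := a ^ m * b ^ m - 1) hb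
    have h3 : ‖a * ((a ^ m * b ^ m - 1) * b)‖ ≤ (1 + c) * ((1 + c) *
        (2 * m * c ^ 2 * (1 + c) ^ (2 * m))) := by
      refine h1.trans (mul_le_mul_of_nonneg_left (h2.trans ?_) (by linarith))
      exact mul_le_mul_of_nonneg_left ih (by linarith)
    have h4 : (1 : ℝ) ≤ (1 + c) ^ (2 * (m + 1)) := one_le_pow₀ (by linarith)
    have h5 : (1 + c) * ((1 + c) * (2 * m * c ^ 2 * (1 + c) ^ (2 * m))) =
        2 * m * c ^ 2 * (1 + c) ^ (2 * (m + 1)) := by ring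
    have h6 : 2 * c ^ 2 ≤ 2 * c ^ 2 * (1 + c) ^ (2 * (m + 1)) := by
      have : 0 ≤ 2 * c ^ 2 := by positivity
      nlinarith
    push_cast
    have h7 : 2 * (m : ℝ) * c ^ 2 * (1 + c) ^ (2 * (m + 1)) + 2 * c ^ 2 * (1 + c) ^ (2 * (m + 1)) =
        2 * ((m : ℝ) + 1) * c ^ 2 * (1 + c) ^ (2 * (m + 1)) := by ring
    linarith

theorem pow_le_three {c : ℝ} (hc : 0 ≤ c) {m : ℕ} (h : m * c ≤ 1) : (1 + c) ^ m ≤ 3 := by
  have h1 : 1 + c ≤ Real.exp c := by
    have := Real.add_one_le_exp c; linarith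
  calc (1 + c) ^ m ≤ Real.exp c ^ m := pow_le_pow_left₀ (by linarith) h1 m
    _ = Real.exp (m * c) := by rw [← Real.exp_nat_mul]
    _ ≤ Real.exp 1 := Real.exp_le_exp.mpr h
    _ ≤ 3 := by
        have := Real.exp_one_lt_d9
        linarith

end Pow

section Near

variable {R : Type*} [NormedRing R] [NormedAlgebra ℝ R] [StarRing R]

/-- From elements near `1` and nearly unitary to unitary elements at a given distance from `1`. -/
theorem near {S : Set R} (hS : IsCompact S) (hpow : ∀ M ∈ S, ∀ m : ℕ, M ^ (m + 1) ∈ S)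
    (hstar : Continuous (star : R → R)) {q c0 : ℝ} (hq : 0 < q) (hq1 : q ≤ 1) (hc0 : 0 < c0)
    (hsmall : ∀ c, 0 < c → c < c0 → ∃ M ∈ S, ‖M - 1‖ ≤ c ∧ ‖star M - 1‖ ≤ c ∧
      ‖M * star M - 1‖ ≤ 2 * c ^ 2 ∧ q * c ≤ ‖M - 1‖) {s : ℝ} (hs : 0 < s) (hs1 : 12 * s ≤ q) :
    ∃ g ∈ S, g * star g = 1 ∧ q * s / 4 ≤ ‖g - 1‖ ∧ ‖g - 1‖ ≤ 2 * s := by
  have hs2 : s ≤ 1 := by linarith
  set C : Set R := S ∩ {L | q * s / 4 ≤ ‖L - 1‖ ∧ ‖L - 1‖ ≤ 2 * s} with hC
  have hCc : IsCompact C := by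
    refine hS.inter_right ?_
    have e : {L : R | q * s / 4 ≤ ‖L - 1‖ ∧ ‖L - 1‖ ≤ 2 * s} =
        {L : R | q * s / 4 ≤ ‖L - 1‖} ∩ {L : R | ‖L - 1‖ ≤ 2 * s} := rfl
    rw [e]
    exact (isClosed_le continuous_const (by fun_prop)).inter
      (isClosed_le (by fun_prop) continuous_const)
  -- elements of `C` that are nearly unitary
  have key : ∀ μ : ℝ, 0 < μ → ∃ L ∈ C, ‖L * star L - 1‖ < μ := by
    intro μ hμ
    set c : ℝ := min (c0 / 2) (min (s / 4) (μ / 36)) with hcdef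
    have hc : 0 < c := by
      refine lt_min (by positivity) (lt_min (by positivity) (by positivity))
    have hcc0 : c < c0 := lt_of_le_of_lt (min_le_left _ _) (by linarith)
    have hcs : c ≤ s / 4 := (min_le_right _ _).trans (min_le_left _ _)
    have hcμ : c ≤ μ / 36 := (min_le_right _ _).trans (min_le_right _ _)
    obtain ⟨M, hM, h1, h2, h3, h4⟩ := hsmall c hc hcc0
    set m : ℕ := ⌊s / c⌋₊ with hm
    have hm1 : (m : ℝ) * c ≤ s := by
      have := Nat.floor_le (show 0 ≤ s / c by positivity)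
      calc (m : ℝ) * c ≤ s / c * c := mul_le_mul_of_nonneg_right this hc.le
        _ = s := by field_simp
    have hm2 : s - c ≤ (m : ℝ) * c := by
      have := Nat.lt_floor_add_one (s / c)
      have h5 : s / c * c < ((m : ℝ) + 1) * c := mul_lt_mul_of_pos_right this hc
      have h6 : s / c * c = s := by field_simp
      nlinarith
    have hmpos : 1 ≤ m := by
      by_contra hcon
      have : m = 0 := by omega
      rw [this] at hm2
      norm_num at hm2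
      linarith
    obtain ⟨m', hm'⟩ : ∃ m', m = m' + 1 := ⟨m - 1, by omega⟩
    have hMm : M ^ m ∈ S := by rw [hm']; exact hpow M hM m'
    have h3' : (1 + c) ^ m ≤ 3 := pow_le_three hc.le (by linarith)
    have h5 := pow_lin hc.le h1 m
    have h6 := pow_unit hc.le h1 h2 h3 m
    have hmc : 0 ≤ (m : ℝ) * c := by positivity
    have h7 : (m : ℝ) ^ 2 * c ^ 2 * (1 + c) ^ m ≤ 3 * s ^ 2 := by
      have e : (m : ℝ) ^ 2 * c ^ 2 = ((m : ℝ) * c) ^ 2 := by ring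
      rw [e]
      have h8 : ((m : ℝ) * c) ^ 2 ≤ s ^ 2 := pow_le_pow_left₀ hmc hm1 2
      have h9 : 0 ≤ ((m : ℝ) * c) ^ 2 := sq_nonneg _
      nlinarith
    have h8 : ‖(m : ℝ) • (M - 1)‖ = m * ‖M - 1‖ := by
      rw [norm_smul, Real.norm_natCast]
    have h9 : (m : ℝ) * ‖M - 1‖ ≤ s := by
      calc (m : ℝ) * ‖M - 1‖ ≤ m * c := mul_le_mul_of_nonneg_left h1 (Nat.cast_nonneg _)
        _ ≤ s := hm1
    have h10 : q * (s - c) ≤ (m : ℝ) * ‖M - 1‖ := by
      calc q * (s - c) ≤ q * ((m : ℝ) * c) := mul_le_mul_of_nonneg_left hm2 hq.le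
        _ = m * (q * c) := by ring
        _ ≤ m * ‖M - 1‖ := mul_le_mul_of_nonneg_left h4 (Nat.cast_nonneg _)
    have h11 : ‖M ^ m - 1‖ ≤ ‖(m : ℝ) • (M - 1)‖ + ‖M ^ m - 1 - (m : ℝ) • (M - 1)‖ := by
      have := norm_add_le ((m : ℝ) • (M - 1)) (M ^ m - 1 - (m : ℝ) • (M - 1))
      rwa [add_sub_cancel] at this
    have h12 : ‖(m : ℝ) • (M - 1)‖ ≤ ‖M ^ m - 1‖ + ‖M ^ m - 1 - (m : ℝ) • (M - 1)‖ := by
      have := norm_sub_le (M ^ m - 1) (M ^ m - 1 - (m : ℝ) • (M - 1))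
      rwa [sub_sub_cancel] at this
    refine ⟨M ^ m, ⟨hMm, ?_, ?_⟩, ?_⟩
    · have h13 : q * (s - c) ≥ q * (3 * s / 4) := by
        refine mul_le_mul_of_nonneg_left ?_ hq.le
        linarith
      have h14 : 3 * s ^ 2 ≤ q * s / 4 := by nlinarith
      rw [h8] at h12
      nlinarith
    · rw [h8] at h11
      have h14 : 3 * s ^ 2 ≤ s := by nlinarith
      linarith
    · rw [star_pow]
      refine lt_of_le_of_lt h6 ?_
      have h15 : (1 + c) ^ (2 * m) ≤ 9 := by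
        rw [mul_comm, pow_mul]
        have h16 : 0 ≤ (1 + c) ^ m := by positivity
        nlinarith
      have h17 : 2 * (m : ℝ) * c ^ 2 = 2 * ((m : ℝ) * c) * c := by ring
      rw [h17]
      have h18 : 2 * ((m : ℝ) * c) * c * (1 + c) ^ (2 * m) ≤ 2 * 1 * c * 9 := by
        have h19 : 2 * ((m : ℝ) * c) * c ≤ 2 * 1 * c := by nlinarith
        have h20 : 0 ≤ 2 * ((m : ℝ) * c) * c := by positivity
        have h21 : 0 ≤ (1 + c) ^ (2 * m) := by positivity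
        calc 2 * ((m : ℝ) * c) * c * (1 + c) ^ (2 * m) ≤ 2 * 1 * c * (1 + c) ^ (2 * m) :=
              mul_le_mul_of_nonneg_right h19 h21
          _ ≤ 2 * 1 * c * 9 := mul_le_mul_of_nonneg_left h15 (by positivity)
      linarith
  have hne : C.Nonempty := by
    obtain ⟨L, hL, _⟩ := key 1 one_pos
    exact ⟨L, hL⟩
  have hcont : Continuous fun L : R => ‖L * star L - 1‖ := by fun_prop
  obtain ⟨L0, hL0, hmin⟩ := hCc.exists_isMinOn hne hcont.continuousOn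
  have h0 : ‖L0 * star L0 - 1‖ = 0 := by
    by_contra hne0
    obtain ⟨L, hL, hlt⟩ := key _ (lt_of_le_of_ne (norm_nonneg _) (Ne.symm hne0))
    exact absurd (hmin hL) (not_le.mpr hlt)
  exact ⟨L0, hL0.1, sub_eq_zero.mp (norm_eq_zero.mp h0), hL0.2.1, hL0.2.2⟩

end Near

end Pool.Agent.N16.Num
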