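import Pool.Agent.N16.Vec

/-!
The path of homomorphisms obtained from an equivariant map into the join.
-/

set_option autoImplicit false
set_option linter.unusedSectionVars false

open scoped InnerProductSpace ComplexConjugate Matrix.Norms.Operator
open H584BuDefs
open H584Bu (tn tn_entry tn_mul tn_one tn_star tn_smul_left tn_smul_right tn_add_left tn_add_right
  isTensor_iff coeff_eq tens_csub tens_le
  tn_mem_tens CSub op_ext entry_one entry_add entry_smul entry_zero norm_entry_le norm_tn)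
open H584Roe (entry)
open H848NJ (sl sl_entry sl_tn sl_mem norm_le_of_isHom tens_calg cont_of_isHom hom_zero slice_compat
  IsEquivToJoin)
open Pool.Agent.N16.Slice Pool.Agent.N16.States Pool.Agent.N16.Top Pool.Agent.N16.Mats
open Pool.Agent.N16.Num Pool.Agent.N16.Vec

noncomputable section

namespace Pool.Agent.N16.Path

/-- `α` restricts to a character of `A`. -/
structure IsCharacter {X : Type} (A : Set (Op X)) (α : Op X → ℂ) : Prop where
  one : α 1 = 1
  add : ∀ a ∈ A, ∀ b ∈ A, α (a + b) = α a + α b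
  smul : ∀ c : ℂ, ∀ a ∈ A, α (c • a) = c * α a
  mul : ∀ a ∈ A, ∀ b ∈ A, α (a * b) = α a * α b
  adj : ∀ a ∈ A, α (star a) = conj (α a)

section Basic

variable {X Y Z : Type}

theorem hom_sum {A : Set (Op X)} {B : Set (Op Y)} {φ : Op X → Op Y} (hA : IsCAlg A)
    (h : IsHom A B φ) {ι : Type*} (s : Finset ι) (f : ι → Op X) (hf : ∀ i ∈ s, f i ∈ A) :
    (∑ i ∈ s, f i) ∈ A ∧ φ (∑ i ∈ s, f i) = ∑ i ∈ s, φ (f i) := by
  classical
  induction s using Finset.induction_on with
  | empty =>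
    simp only [Finset.sum_empty]
    exact ⟨hA.subspace.zero, hom_zero hA h⟩
  | insert a s ha ih =>
    have h1 := ih fun i hi => hf i (Finset.mem_insert_of_mem hi)
    have h2 := hf a (Finset.mem_insert_self _ _)
    rw [Finset.sum_insert ha, Finset.sum_insert ha]
    exact ⟨hA.subspace.add _ h2 _ h1.1, by rw [h.lin.add _ h2 _ h1.1, h1.2]⟩

theorem hom_comp {A : Set (Op X)} {B : Set (Op Y)} {C : Set (Op Z)} {φ : Op X → Op Y}
    {ψ : Op Y → Op Z} (h1 : IsHom A B φ) (h2 : IsHom B C ψ) : IsHom A C (fun a => ψ (φ a)) := by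
  refine ⟨fun a ha => h2.maps _ (h1.maps a ha), ⟨?_, ?_⟩, ⟨?_, ?_, ?_⟩⟩
  · intro a ha b hb
    rw [h1.lin.add a ha b hb, h2.lin.add _ (h1.maps a ha) _ (h1.maps b hb)]
  · intro c a ha
    rw [h1.lin.smul c a ha, h2.lin.smul c _ (h1.maps a ha)]
  · rw [h1.mul.one, h2.mul.one]
  · intro a ha b hb
    rw [h1.mul.mul a ha b hb, h2.mul.mul _ (h1.maps a ha) _ (h1.maps b hb)]
  · intro a ha
    rw [h1.mul.adj a ha, h2.mul.adj _ (h1.maps a ha)]

theorem hom_umat {n : ℕ} {A : Set (Op X)} {B : Set (Op Y)} {φ : Op X → Op Y} (hA : IsCAlg A)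
    (h : IsHom A B φ) {u : Fin n → Fin n → Op X} (hm : ∀ i j, u i j ∈ A) (hu : IsUMat u) :
    IsUMat (fun i j => φ (u i j)) := by
  have hite : ∀ i j : Fin n, φ (if i = j then 1 else 0) = if i = j then 1 else 0 := by
    intro i j
    split_ifs
    · exact h.mul.one
    · exact hom_zero hA h
  constructor
  · intro i j
    have h1 := (hom_sum hA h Finset.univ (fun k => star (u k i) * u k j)
      (fun k _ => hA.mul _ (hA.adj _ (hm k i)) _ (hm k j))).2
    rw [hu.left, hite] at h1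
    rw [h1]
    refine Finset.sum_congr rfl fun k _ => ?_
    rw [h.mul.mul _ (hA.adj _ (hm k i)) _ (hm k j), h.mul.adj _ (hm k i)]
  · intro i j
    have h1 := (hom_sum hA h Finset.univ (fun k => u i k * star (u j k))
      (fun k _ => hA.mul _ (hm i k) _ (hA.adj _ (hm j k)))).2
    rw [hu.right, hite] at h1
    rw [h1]
    refine Finset.sum_congr rfl fun k _ => ?_
    rw [h.mul.mul _ (hm i k) _ (hA.adj _ (hm j k)), h.mul.adj _ (hm j k)]

theorem _root_.Pool.Agent.N16.States.IsState.mul_of_dom {A : Type*} [CStarAlgebra A]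
    {f : A →L[ℂ] ℂ} (hf : IsState f) {a : A} (ha : f (star a * a) = conj (f a) * f a) (b : A) :
    f (b * a) = f b * f a := by
  have h1 : f (star (a - f a • 1) * (a - f a • 1)) = f (star a * a) - conj (f a) * f a := by
    rw [star_sub, star_smul, star_one, sub_mul, mul_sub, mul_sub, mul_smul_comm, mul_one,
      smul_mul_assoc, one_mul, smul_mul_assoc, one_mul, smul_smul, map_sub, map_sub, map_sub,
      map_smul, map_smul, map_smul, hf.fstar, hf.one]
    simp only [smul_eq_mul, RCLike.star_def]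
    ring
  rw [ha, sub_self] at h1
  have h2 := hf.mul_eq_zero (D := a - f a • 1) (by rw [h1, Complex.zero_re]) b
  rw [mul_sub, mul_smul_comm, mul_one, map_sub, map_smul, smul_eq_mul, sub_eq_zero] at h2
  rw [h2, mul_comm]

/-- A character extends to a state. -/
theorem char_state {A : Set (Op X)} (hA : IsCAlg A) {α : Op X → ℂ} (hα : IsCharacter A α) :
    ∃ f : Op X →L[ℂ] ℂ, IsState f ∧ (∀ a ∈ A, ∀ b, f (b * a) = f b * f a) := by
  let β : H848NJ.sub hA →⋆ₙₐ[ℂ] ℂ :=
    { toFun := fun a => α a.1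
      map_smul' := fun c a => by
        rw [MonoidHom.id_apply, smul_eq_mul]; exact hα.smul c a.1 a.2
      map_zero' := by
        have := hα.smul 0 1 hA.one
        rw [zero_smul, zero_mul] at this
        exact this
      map_add' := fun a b => hα.add a.1 a.2 b.1 b.2
      map_mul' := fun a b => hα.mul a.1 a.2 b.1 b.2
      map_star' := fun a => hα.adj a.1 a.2 }
  have hc : IsClosed ((H848NJ.sub hA : StarSubalgebra ℂ (Op X)) : Set (Op X)) := hA.subspace.closed
  have hb : ∀ a ∈ A, ‖α a‖ ≤ ‖a‖ := fun a ha =>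
    NonUnitalStarAlgHom.norm_apply_le β (⟨a, ha⟩ : H848NJ.sub hA)
  obtain ⟨f, hf, hfa⟩ := exists_ext hA α hα.add hα.smul hb hα.one
  refine ⟨f, hf, fun a ha b => hf.mul_of_dom ?_ b⟩
  rw [hfa _ (hA.mul _ (hA.adj a ha) _ ha), hfa a ha, hα.mul _ (hA.adj a ha) _ ha, hα.adj a ha]

variable [DecidableEq X] [DecidableEq Y]

theorem entry_sum {ι : Type*} (s : Finset ι) (f : ι → Op X) (x y : X) :
    entry (∑ i ∈ s, f i) x y = ∑ i ∈ s, entry (f i) x y := by
  classical
  induction s using Finset.induction_on with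
  | empty => rw [Finset.sum_empty, Finset.sum_empty, entry_zero]
  | insert a s ha ih => rw [Finset.sum_insert ha, Finset.sum_insert ha, entry_add, ih]

theorem srf_hom {A : Set (Op X)} {H : Set (Op Y)} (hA : IsCAlg A) {g : Op Y →L[ℂ] ℂ}
    (hg : IsState g) (hgm : ∀ a ∈ H, ∀ b, g (b * a) = g b * g a) :
    IsHom (tens A H) A (fun T => (srf g T : Op X)) := by
  refine ⟨srf_mem hA g, ⟨?_, ?_⟩, ⟨srf_one hg, ?_, ?_⟩⟩
  · intro a _ b _; exact map_add _ _ _
  · intro c a _; exact map_smul _ _ _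
  · intro S hS T hT; exact srf_mul hgm S hS T hT
  · intro T hT; exact srf_star hg T hT

theorem slf_hom {A : Set (Op X)} {H : Set (Op Y)} (hH : IsCAlg H) {f : Op X →L[ℂ] ℂ}
    (hf : IsState f) (hfm : ∀ a ∈ A, ∀ b, f (b * a) = f b * f a) :
    IsHom (tens A H) H (fun T => (slf f T : Op Y)) := by
  refine ⟨slf_mem hH f, ⟨?_, ?_⟩, ⟨slf_one hf, ?_, ?_⟩⟩
  · intro a _ b _; exact map_add _ _ _
  · intro c a _; exact map_smul _ _ _
  · intro S hS T hT; exact slf_mul hfm S hS T hT
  · intro T hT; exact slf_star hf T hT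

end Basic

section Mem

variable {X Y : Type} [DecidableEq Y] {n : ℕ} {H : Set (Op Y)} {Δ : Op Y → Op (Y × Y)}
  {u : Fin n → Fin n → Op Y}

theorem smat_mem_MS {A : Set (Op X)} (hH : IsCAlg H) (hu : IsCo H Δ u) {φ : Op Y → Op X}
    (hφ : IsHom H A φ) {f : Op X →L[ℂ] ℂ} (hf : IsState f) :
    smat f (fun i j => φ (u i j)) ∈ MS u := by
  obtain ⟨g, hg, hg1⟩ := exists_ext hH (fun h => f (φ h))
    (fun a ha b hb => by rw [hφ.lin.add a ha b hb, map_add])
    (fun c a ha => by rw [hφ.lin.smul c a ha, map_smul, smul_eq_mul])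
    (fun a ha => (hf.le _).trans (norm_le_of_isHom hH hφ a ha))
    (by rw [hφ.mul.one, hf.one])
  exact ⟨g, hg, fun i j => hg1 _ (hu.mem i j)⟩

theorem smat_unitary {A : Type*} [CStarAlgebra A] {V : Fin n → Fin n → A} (hV : IsUMat V)
    {f : A →L[ℂ] ℂ} (hf : IsState f) (hfm : ∀ i j b, f (b * V i j) = f b * f (V i j)) :
    star (smat f V) * smat f V = 1 := by
  ext i j
  rw [Matrix.mul_apply]
  have h1 := congrArg f (hV.left i j)
  rw [map_sum] at h1
  have h2 : ∀ k, (star (smat f V)) i k * (smat f V) k j = f (star (V k i) * V k j) := by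
    intro k
    rw [hfm, hf.fstar, Matrix.star_apply]
    rfl
  rw [Finset.sum_congr rfl fun k _ => h2 k, h1, Matrix.one_apply]
  split_ifs
  · exact hf.one
  · exact map_zero f

theorem mem_KS {g : Matrix (Fin n) (Fin n) ℂ} (h1 : g ∈ MS u) (h2 : star g * g = 1) : g ∈ KS u :=
  ⟨h1, mul_eq_one_comm.mp h2, h2⟩

theorem smat_mem_KS {A : Set (Op X)} (hH : IsCAlg H) (hu : IsCo H Δ u) {φ : Op Y → Op X}
    (hφ : IsHom H A φ) {f : Op X →L[ℂ] ℂ} (hf : IsState f)
    (hfm : ∀ a ∈ A, ∀ b, f (b * a) = f b * f a) :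
    smat f (fun i j => φ (u i j)) ∈ KS u :=
  mem_KS (smat_mem_MS hH hu hφ hf) (smat_unitary (hom_umat hH hφ hu.mem hu.umat) hf
    fun i j b => hfm _ (hφ.maps _ (hu.mem i j)) b)

/-- The state of a matrix in `KS` is multiplicative. -/
theorem KS_mult (hgen : Gen H u) (hu : IsUMat u) {f : Op Y →L[ℂ] ℂ} (hf : IsState f)
    {g : Matrix (Fin n) (Fin n) ℂ} (hg : g ∈ KS u) (hfg : ∀ i j, f (u i j) = g i j) :
    ∀ a ∈ H, ∀ b, f (b * a) = f b * f a := by
  refine mul_of_unitary hgen hu hf ⟨fun i j => ?_, fun i j => ?_⟩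
  · have h1 := congrFun (congrFun hg.2.2 i) j
    rw [Matrix.mul_apply, Matrix.one_apply] at h1
    rw [← h1]
    refine Finset.sum_congr rfl fun k _ => ?_
    rw [Matrix.star_apply, hfg, hfg]
  · have h1 := congrFun (congrFun hg.2.1 i) j
    rw [Matrix.mul_apply, Matrix.one_apply] at h1
    rw [← h1]
    refine Finset.sum_congr rfl fun k _ => ?_
    rw [Matrix.star_apply, hfg, hfg]

end Mem

end Pool.Agent.N16.Path
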