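import Pool.Agent.H848R3.NJ.Core

/-!
Slices of operators on `ℓ²(X × Y)` by bounded functionals on one of the legs.
-/

set_option autoImplicit false
set_option linter.unusedSectionVars false

open scoped InnerProductSpace ComplexConjugate
open H584BuDefs
open H584Bu (tn tn_entry tn_mul tn_one tn_star tn_smul_left tn_smul_right tn_add_left tn_add_right
  isTensor_iff coeff_eq tens_csub tens_le
  tn_mem_tens CSub op_ext entry_one entry_add entry_smul norm_entry_le norm_tn)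
open H584Roe (entry)
open H848NJ (sl sl_entry sl_tn sl_mem)

noncomputable section

namespace Pool.Agent.N16.Slice

section General

variable {E F G : Type*} [NormedAddCommGroup E] [InnerProductSpace ℂ E] [CompleteSpace E]
  [NormedAddCommGroup F] [InnerProductSpace ℂ F] [CompleteSpace F]
  [NormedAddCommGroup G] [InnerProductSpace ℂ G] [CompleteSpace G]

/-- The sesquilinear form of a slice. -/
def form (V : E →ₗ[ℂ] (F →L[ℂ] G)) (hV : ∀ ξ, ‖V ξ‖ ≤ ‖ξ‖) (ψ : (F →L[ℂ] F) →L[ℂ] ℂ)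
    (T : G →L[ℂ] G) : E →L⋆[ℂ] E →L[ℂ] ℂ :=
  LinearMap.mkContinuous₂ (LinearMap.mk₂'ₛₗ (starRingEnd ℂ) (RingHom.id ℂ)
    (fun ξ ξ' => ψ ((ContinuousLinearMap.adjoint (V ξ)).comp (T.comp (V ξ'))))
    (by intro a b c; rw [map_add, map_add, ContinuousLinearMap.add_comp, map_add])
    (by
      intro c a b
      rw [map_smul, map_smulₛₗ, ContinuousLinearMap.smul_comp, map_smul])
    (by intro a b c; rw [map_add, ContinuousLinearMap.comp_add, ContinuousLinearMap.comp_add,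
          map_add])
    (by
      intro c a b
      rw [map_smul, ContinuousLinearMap.comp_smul, ContinuousLinearMap.comp_smul, map_smul,
        RingHom.id_apply]))
    (‖ψ‖ * ‖T‖) (by
      intro ξ ξ'
      rw [LinearMap.mk₂'ₛₗ_apply]
      refine (ψ.le_opNorm _).trans ?_
      have h1 : ‖(ContinuousLinearMap.adjoint (V ξ)).comp (T.comp (V ξ'))‖ ≤
          ‖ξ‖ * (‖T‖ * ‖ξ'‖) := by
        refine (ContinuousLinearMap.opNorm_comp_le _ _).trans ?_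
        rw [LinearIsometryEquiv.norm_map]
        refine mul_le_mul (hV ξ) ?_ (norm_nonneg _) (norm_nonneg _)
        refine (ContinuousLinearMap.opNorm_comp_le _ _).trans ?_
        exact mul_le_mul_of_nonneg_left (hV ξ') (norm_nonneg _)
      calc ‖ψ‖ * ‖(ContinuousLinearMap.adjoint (V ξ)).comp (T.comp (V ξ'))‖ ≤
            ‖ψ‖ * (‖ξ‖ * (‖T‖ * ‖ξ'‖)) := mul_le_mul_of_nonneg_left h1 (norm_nonneg _)
        _ = ‖ψ‖ * ‖T‖ * ‖ξ‖ * ‖ξ'‖ := by ring)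

theorem form_apply (V : E →ₗ[ℂ] (F →L[ℂ] G)) (hV : ∀ ξ, ‖V ξ‖ ≤ ‖ξ‖)
    (ψ : (F →L[ℂ] F) →L[ℂ] ℂ) (T : G →L[ℂ] G) (ξ ξ' : E) :
    form V hV ψ T ξ ξ' = ψ ((ContinuousLinearMap.adjoint (V ξ)).comp (T.comp (V ξ'))) := rfl

theorem form_bound (V : E →ₗ[ℂ] (F →L[ℂ] G)) (hV : ∀ ξ, ‖V ξ‖ ≤ ‖ξ‖)
    (ψ : (F →L[ℂ] F) →L[ℂ] ℂ) (T : G →L[ℂ] G) (ξ ξ' : E) :
    ‖form V hV ψ T ξ ξ'‖ ≤ ‖ψ‖ * ‖T‖ * ‖ξ‖ * ‖ξ'‖ := by
  rw [form_apply]
  refine (ψ.le_opNorm _).trans ?_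
  have h1 : ‖(ContinuousLinearMap.adjoint (V ξ)).comp (T.comp (V ξ'))‖ ≤
      ‖ξ‖ * (‖T‖ * ‖ξ'‖) := by
    refine (ContinuousLinearMap.opNorm_comp_le _ _).trans ?_
    rw [LinearIsometryEquiv.norm_map]
    refine mul_le_mul (hV ξ) ?_ (norm_nonneg _) (norm_nonneg _)
    refine (ContinuousLinearMap.opNorm_comp_le _ _).trans ?_
    exact mul_le_mul_of_nonneg_left (hV ξ') (norm_nonneg _)
  calc ‖ψ‖ * ‖(ContinuousLinearMap.adjoint (V ξ)).comp (T.comp (V ξ'))‖ ≤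
        ‖ψ‖ * (‖ξ‖ * (‖T‖ * ‖ξ'‖)) := mul_le_mul_of_nonneg_left h1 (norm_nonneg _)
    _ = ‖ψ‖ * ‖T‖ * ‖ξ‖ * ‖ξ'‖ := by ring

/-- The slice as an operator. -/
def sop (V : E →ₗ[ℂ] (F →L[ℂ] G)) (hV : ∀ ξ, ‖V ξ‖ ≤ ‖ξ‖) (ψ : (F →L[ℂ] F) →L[ℂ] ℂ)
    (T : G →L[ℂ] G) : E →L[ℂ] E :=
  ContinuousLinearMap.adjoint (InnerProductSpace.continuousLinearMapOfBilin (form V hV ψ T))

theorem sop_inner (V : E →ₗ[ℂ] (F →L[ℂ] G)) (hV : ∀ ξ, ‖V ξ‖ ≤ ‖ξ‖) (ψ : (F →L[ℂ] F) →L[ℂ] ℂ)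
    (T : G →L[ℂ] G) (ξ ξ' : E) : ⟪ξ, sop V hV ψ T ξ'⟫_ℂ =
      ψ ((ContinuousLinearMap.adjoint (V ξ)).comp (T.comp (V ξ'))) := by
  unfold sop
  rw [ContinuousLinearMap.adjoint_inner_right, InnerProductSpace.continuousLinearMapOfBilin_apply,
    form_apply]

theorem norm_sop (V : E →ₗ[ℂ] (F →L[ℂ] G)) (hV : ∀ ξ, ‖V ξ‖ ≤ ‖ξ‖) (ψ : (F →L[ℂ] F) →L[ℂ] ℂ)
    (T : G →L[ℂ] G) : ‖sop V hV ψ T‖ ≤ ‖ψ‖ * ‖T‖ := by
  refine ContinuousLinearMap.opNorm_le_bound _ (by positivity) fun ξ => ?_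
  by_cases h0 : ‖sop V hV ψ T ξ‖ = 0
  · rw [h0]; positivity
  have hpos : 0 < ‖sop V hV ψ T ξ‖ := lt_of_le_of_ne (norm_nonneg _) (Ne.symm h0)
  have h1 : ‖sop V hV ψ T ξ‖ * ‖sop V hV ψ T ξ‖ =
      ‖form V hV ψ T (sop V hV ψ T ξ) ξ‖ := by
    rw [form_apply, ← sop_inner V hV ψ T, ← inner_self_eq_norm_mul_norm (𝕜 := ℂ)]
    rw [inner_self_eq_norm_sq_to_K]
    norm_cast
    rw [abs_of_nonneg (by positivity)]
  have h2 := form_bound V hV ψ T (sop V hV ψ T ξ) ξ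
  rw [← h1] at h2
  have h3 : ‖sop V hV ψ T ξ‖ * ‖sop V hV ψ T ξ‖ ≤ ‖sop V hV ψ T ξ‖ * (‖ψ‖ * ‖T‖ * ‖ξ‖) := by
    calc ‖sop V hV ψ T ξ‖ * ‖sop V hV ψ T ξ‖ ≤ ‖ψ‖ * ‖T‖ * ‖sop V hV ψ T ξ‖ * ‖ξ‖ := h2
      _ = ‖sop V hV ψ T ξ‖ * (‖ψ‖ * ‖T‖ * ‖ξ‖) := by ring
  exact le_of_mul_le_mul_left h3 hpos

/-- The slice as a bounded linear map. -/
def slc (V : E →ₗ[ℂ] (F →L[ℂ] G)) (hV : ∀ ξ, ‖V ξ‖ ≤ ‖ξ‖) (ψ : (F →L[ℂ] F) →L[ℂ] ℂ) :
    (G →L[ℂ] G) →L[ℂ] (E →L[ℂ] E) :=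
  LinearMap.mkContinuous
    { toFun := fun T => sop V hV ψ T
      map_add' := fun S T => by
        ext1 ξ'
        refine ext_inner_left ℂ fun ξ => ?_
        rw [ContinuousLinearMap.add_apply, inner_add_right, sop_inner, sop_inner, sop_inner,
          ContinuousLinearMap.add_comp, ContinuousLinearMap.comp_add, map_add]
      map_smul' := fun c T => by
        ext1 ξ'
        refine ext_inner_left ℂ fun ξ => ?_
        rw [RingHom.id_apply, ContinuousLinearMap.smul_apply, inner_smul_right, sop_inner,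
          sop_inner, ContinuousLinearMap.smul_comp, ContinuousLinearMap.comp_smul, map_smul,
          smul_eq_mul] } ‖ψ‖
    (fun T => norm_sop V hV ψ T)

theorem slc_inner (V : E →ₗ[ℂ] (F →L[ℂ] G)) (hV : ∀ ξ, ‖V ξ‖ ≤ ‖ξ‖) (ψ : (F →L[ℂ] F) →L[ℂ] ℂ)
    (T : G →L[ℂ] G) (ξ ξ' : E) : ⟪ξ, slc V hV ψ T ξ'⟫_ℂ =
      ψ ((ContinuousLinearMap.adjoint (V ξ)).comp (T.comp (V ξ'))) := sop_inner V hV ψ T ξ ξ'

theorem norm_slc (V : E →ₗ[ℂ] (F →L[ℂ] G)) (hV : ∀ ξ, ‖V ξ‖ ≤ ‖ξ‖) (ψ : (F →L[ℂ] F) →L[ℂ] ℂ)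
    (T : G →L[ℂ] G) : ‖slc V hV ψ T‖ ≤ ‖ψ‖ * ‖T‖ := norm_sop V hV ψ T

end General

section Vec

variable {X Y : Type}

theorem mem_tv (ξ : L2 X) (f : L2 Y) : Memℓp (fun p : X × Y => ξ p.1 * f p.2) 2 := by
  refine memℓp_gen ?_
  have h0 : 0 < (2 : ENNReal).toReal := by norm_num
  have h1 := (lp.memℓp ξ).summable h0
  have h2 := (lp.memℓp f).summable h0
  have h3 := h1.mul_of_nonneg h2 (fun i => by positivity) (fun i => by positivity)
  refine h3.congr fun p => ?_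
  rw [norm_mul, Real.mul_rpow (norm_nonneg _) (norm_nonneg _)]

/-- The tensor product of two vectors. -/
def tv (ξ : L2 X) (f : L2 Y) : L2 (X × Y) := ⟨fun p => ξ p.1 * f p.2, mem_tv ξ f⟩

theorem tv_apply (ξ : L2 X) (f : L2 Y) (p : X × Y) : (tv ξ f : X × Y → ℂ) p = ξ p.1 * f p.2 := rfl

theorem norm_tv (ξ : L2 X) (f : L2 Y) : ‖tv ξ f‖ = ‖ξ‖ * ‖f‖ := by
  have h0 : 0 < (2 : ENNReal).toReal := by norm_num
  have h1 := (lp.memℓp ξ).summable h0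
  have h2 := (lp.memℓp f).summable h0
  have h3 : ‖tv ξ f‖ ^ (2 : ENNReal).toReal =
      ‖ξ‖ ^ (2 : ENNReal).toReal * ‖f‖ ^ (2 : ENNReal).toReal := by
    rw [lp.norm_rpow_eq_tsum h0, lp.norm_rpow_eq_tsum h0, lp.norm_rpow_eq_tsum h0]
    rw [tsum_mul_tsum_of_summable_norm]
    · refine tsum_congr fun p => ?_
      rw [tv_apply, norm_mul, Real.mul_rpow (norm_nonneg _) (norm_nonneg _)]
    · refine h1.congr fun i => ?_
      rw [Real.norm_of_nonneg (by positivity)]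
    · refine h2.congr fun i => ?_
      rw [Real.norm_of_nonneg (by positivity)]
  rw [← Real.mul_rpow (norm_nonneg _) (norm_nonneg _)] at h3
  exact (Real.rpow_left_inj (norm_nonneg _) (by positivity) h0.ne').mp h3

/-- `f ↦ ξ ⊗ f`, linear in `ξ`. -/
def V1 (X Y : Type) : L2 X →ₗ[ℂ] (L2 Y →L[ℂ] L2 (X × Y)) where
  toFun ξ := LinearMap.mkContinuous
    { toFun := fun f => tv ξ f
      map_add' := fun f g => by
        ext1; funext p
        simp only [tv_apply, lp.coeFn_add, Pi.add_apply, mul_add]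
      map_smul' := fun c f => by
        ext1; funext p
        simp only [tv_apply, lp.coeFn_smul, Pi.smul_apply, smul_eq_mul, RingHom.id_apply]
        ring } ‖ξ‖
    (fun f => (norm_tv ξ f).le)
  map_add' ξ ξ' := by
    ext1 f
    ext1; funext p
    change (tv (ξ + ξ') f : X × Y → ℂ) p = (tv ξ f : X × Y → ℂ) p + (tv ξ' f : X × Y → ℂ) p
    simp only [tv_apply, lp.coeFn_add, Pi.add_apply, add_mul]
  map_smul' c ξ := by
    ext1 f
    ext1; funext p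
    change (tv (c • ξ) f : X × Y → ℂ) p = c • (tv ξ f : X × Y → ℂ) p
    simp only [tv_apply, lp.coeFn_smul, Pi.smul_apply, smul_eq_mul]
    ring

theorem V1_apply (ξ : L2 X) (f : L2 Y) : V1 X Y ξ f = tv ξ f := rfl

theorem norm_V1 (ξ : L2 X) : ‖V1 X Y ξ‖ ≤ ‖ξ‖ :=
  ContinuousLinearMap.opNorm_le_bound _ (norm_nonneg _) fun f => (norm_tv ξ f).le

/-- `ξ ↦ ξ ⊗ f`, linear in `f`. -/
def V2 (X Y : Type) : L2 Y →ₗ[ℂ] (L2 X →L[ℂ] L2 (X × Y)) where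
  toFun f := LinearMap.mkContinuous
    { toFun := fun ξ => tv ξ f
      map_add' := fun ξ ξ' => by
        ext1; funext p
        simp only [tv_apply, lp.coeFn_add, Pi.add_apply, add_mul]
      map_smul' := fun c ξ => by
        ext1; funext p
        simp only [tv_apply, lp.coeFn_smul, Pi.smul_apply, smul_eq_mul, RingHom.id_apply]
        ring } ‖f‖
    (fun ξ => by
      change ‖tv ξ f‖ ≤ _
      rw [norm_tv, mul_comm])
  map_add' f g := by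
    ext1 ξ
    ext1; funext p
    change (tv ξ (f + g) : X × Y → ℂ) p = (tv ξ f : X × Y → ℂ) p + (tv ξ g : X × Y → ℂ) p
    simp only [tv_apply, lp.coeFn_add, Pi.add_apply, mul_add]
  map_smul' c f := by
    ext1 ξ
    ext1; funext p
    change (tv ξ (c • f) : X × Y → ℂ) p = c • (tv ξ f : X × Y → ℂ) p
    simp only [tv_apply, lp.coeFn_smul, Pi.smul_apply, smul_eq_mul]
    ring

theorem V2_apply (f : L2 Y) (ξ : L2 X) : V2 X Y f ξ = tv ξ f := rfl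

theorem norm_V2 (f : L2 Y) : ‖V2 X Y f‖ ≤ ‖f‖ :=
  ContinuousLinearMap.opNorm_le_bound _ (norm_nonneg _) fun ξ => by
    rw [V2_apply, norm_tv, mul_comm]

end Vec

section Slices

variable {X Y : Type} [DecidableEq X] [DecidableEq Y]

theorem tv_single (x : X) (y : Y) : tv (lp.single 2 x (1 : ℂ)) (lp.single 2 y (1 : ℂ)) =
    (lp.single 2 (x, y) (1 : ℂ) : L2 (X × Y)) := by
  ext1; funext p
  rw [tv_apply, lp.single_apply, lp.single_apply, lp.single_apply]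
  rcases p with ⟨p, q⟩
  by_cases h1 : p = x
  · by_cases h2 : q = y
    · subst h1; subst h2; simp
    · simp [h2]
  · simp [h1]

theorem entry_inner {Z : Type} [DecidableEq Z] (a : Op Z) (x y : Z) :
    entry a x y = ⟪(lp.single 2 x (1 : ℂ) : L2 Z), a (lp.single 2 y (1 : ℂ))⟫_ℂ := by
  rw [lp.inner_single_left]
  simp [entry]

/-- The basis slice of the second leg. -/
def sr (y y' : Y) (T : Op (X × Y)) : Op X :=
  (ContinuousLinearMap.adjoint (V2 X Y (lp.single 2 y (1 : ℂ)))).comp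
    (T.comp (V2 X Y (lp.single 2 y' (1 : ℂ))))

theorem sr_entry (y y' : Y) (T : Op (X × Y)) (x x' : X) :
    entry (sr y y' T) x x' = entry T (x, y) (x', y') := by
  rw [entry_inner, entry_inner]
  unfold sr
  rw [ContinuousLinearMap.comp_apply, ContinuousLinearMap.adjoint_inner_right,
    ContinuousLinearMap.comp_apply, V2_apply, V2_apply, tv_single, tv_single]

theorem sr_tn (y y' : Y) (a : Op X) (b : Op Y) : sr y y' (tn a b) = entry b y y' • a := by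
  apply op_ext
  intro x x'
  rw [sr_entry, tn_entry, entry_smul, mul_comm]

theorem sl_eq (x x' : X) (T : Op (X × Y)) : sl x x' T =
    (ContinuousLinearMap.adjoint (V1 X Y (lp.single 2 x (1 : ℂ)))).comp
    (T.comp (V1 X Y (lp.single 2 x' (1 : ℂ)))) := by
  apply op_ext
  intro y y'
  rw [sl_entry, entry_inner, entry_inner]
  rw [ContinuousLinearMap.comp_apply, ContinuousLinearMap.adjoint_inner_right,
    ContinuousLinearMap.comp_apply, V1_apply, V1_apply, tv_single, tv_single]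

/-- The slice `id ⊗ ψ`. -/
def srf (ψ : Op Y →L[ℂ] ℂ) : Op (X × Y) →L[ℂ] Op X := slc (V1 X Y) norm_V1 ψ

theorem srf_entry (ψ : Op Y →L[ℂ] ℂ) (T : Op (X × Y)) (x x' : X) :
    entry (srf ψ T) x x' = ψ (sl x x' T) := by
  rw [entry_inner, sl_eq]
  exact slc_inner _ _ _ _ _ _

theorem srf_tn (ψ : Op Y →L[ℂ] ℂ) (a : Op X) (b : Op Y) : srf ψ (tn a b) = ψ b • a := by
  apply op_ext
  intro x x'
  rw [srf_entry, sl_tn, map_smul, entry_smul, smul_eq_mul, mul_comm]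

theorem norm_srf (ψ : Op Y →L[ℂ] ℂ) (T : Op (X × Y)) : ‖srf ψ T‖ ≤ ‖ψ‖ * ‖T‖ :=
  norm_slc _ _ _ _

/-- The slice `φ ⊗ id`. -/
def slf (φ : Op X →L[ℂ] ℂ) : Op (X × Y) →L[ℂ] Op Y := slc (V2 X Y) norm_V2 φ

theorem slf_entry (φ : Op X →L[ℂ] ℂ) (T : Op (X × Y)) (y y' : Y) :
    entry (slf φ T) y y' = φ (sr y y' T) := by
  rw [entry_inner]
  exact slc_inner _ _ _ _ _ _

theorem slf_tn (φ : Op X →L[ℂ] ℂ) (a : Op X) (b : Op Y) : slf φ (tn a b) = φ a • b := by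
  apply op_ext
  intro y y'
  rw [slf_entry, sr_tn, map_smul, entry_smul, smul_eq_mul, mul_comm]

theorem norm_slf (φ : Op X →L[ℂ] ℂ) (T : Op (X × Y)) : ‖slf φ T‖ ≤ ‖φ‖ * ‖T‖ :=
  norm_slc _ _ _ _

theorem srf_mem {A : Set (Op X)} {H : Set (Op Y)} (hA : IsCAlg A) (ψ : Op Y →L[ℂ] ℂ) :
    ∀ T ∈ tens A H, srf ψ T ∈ A := by
  have hC : CSub A := ⟨hA.subspace.zero, hA.subspace.add, hA.subspace.smul, hA.subspace.closed⟩
  have h1 : tens A H ⊆ {T | srf ψ T ∈ A} :=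
    tens_le (hC.preimage (srf ψ) (map_add _) (map_smul _) (srf ψ).continuous)
      fun a ha b _ => by
        rw [Set.mem_ofPred_eq, srf_tn]
        exact hA.subspace.smul _ a ha
  exact fun T hT => h1 hT

theorem slf_mem {A : Set (Op X)} {H : Set (Op Y)} (hH : IsCAlg H) (φ : Op X →L[ℂ] ℂ) :
    ∀ T ∈ tens A H, slf φ T ∈ H := by
  have hC : CSub H := ⟨hH.subspace.zero, hH.subspace.add, hH.subspace.smul, hH.subspace.closed⟩
  have h1 : tens A H ⊆ {T | slf φ T ∈ H} :=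
    tens_le (hC.preimage (slf φ) (map_add _) (map_smul _) (slf φ).continuous)
      fun a _ b hb => by
        rw [Set.mem_ofPred_eq, slf_tn]
        exact hH.subspace.smul _ b hb
  exact fun T hT => h1 hT

end Slices

end Pool.Agent.N16.Slice
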