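import Pool.Agent.N16.Slice

/-!
States, slices by multiplicative states, multiplicative domain.
-/

set_option autoImplicit false
set_option linter.unusedSectionVars false

open scoped InnerProductSpace ComplexConjugate
open H584BuDefs
open H584Bu (tn tn_entry tn_mul tn_one tn_star tn_smul_left tn_smul_right tn_add_left tn_add_right
  isTensor_iff coeff_eq tens_csub tens_le
  tn_mem_tens CSub op_ext entry_one entry_add entry_smul norm_entry_le norm_tn)
open H584Roe (entry)
open H848NJ (sl sl_entry sl_tn sl_mem)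
open Pool.Agent.N16.Slice

noncomputable section

namespace Pool.Agent.N16.States

/-- Unital contractive functionals. -/
structure IsState {A : Type*} [CStarAlgebra A] (f : A →L[ℂ] ℂ) : Prop where
  norm : ‖f‖ ≤ 1
  one : f 1 = 1

section Gen

variable {A : Type*} [CStarAlgebra A]

theorem IsState.le {f : A →L[ℂ] ℂ} (hf : IsState f) (a : A) : ‖f a‖ ≤ ‖a‖ := by
  refine (f.le_opNorm a).trans ?_
  calc ‖f‖ * ‖a‖ ≤ 1 * ‖a‖ := mul_le_mul_of_nonneg_right hf.norm (norm_nonneg _)
    _ = ‖a‖ := one_mul _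

theorem IsState.im_eq_zero {f : A →L[ℂ] ℂ} (hf : IsState f) {h : A} (hh : IsSelfAdjoint h) :
    (f h).im = 0 := by
  have key : ∀ t : ℝ, 2 * t * (f h).im ≤ ‖h‖ ^ 2 := by
    intro t
    set b : A := h + (t * Complex.I) • (1 : A) with hb
    have hfb : f b = f h + t * Complex.I := by
      rw [hb, map_add, map_smul, hf.one, smul_eq_mul, mul_one]
    have hsb : star b * b = h * h + ((t : ℂ) ^ 2) • (1 : A) := by
      rw [hb, star_add, hh.star_eq, star_smul, star_one]
      have e : star ((t : ℂ) * Complex.I) = -((t : ℂ) * Complex.I) := by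
        simp
      rw [e, add_mul, mul_add, mul_add, mul_smul_comm, mul_one, smul_mul_assoc, one_mul,
        smul_mul_assoc, one_mul, smul_smul]
      have e2 : -((t : ℂ) * Complex.I) * ((t : ℂ) * Complex.I) = (t : ℂ) ^ 2 := by
        ring_nf; rw [Complex.I_sq]; ring
      rw [e2, neg_smul]
      abel
    have hnb : ‖b‖ ^ 2 ≤ ‖h‖ ^ 2 + t ^ 2 := by
      rw [pow_two, ← CStarRing.norm_star_mul_self, hsb]
      refine (norm_add_le _ _).trans ?_
      have h1 : ‖h * h‖ ≤ ‖h‖ ^ 2 := by rw [pow_two]; exact norm_mul_le _ _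
      have h2 : ‖((t : ℂ) ^ 2) • (1 : A)‖ ≤ t ^ 2 := by
        rw [norm_smul]
        have h3 : ‖(t : ℂ) ^ 2‖ = t ^ 2 := by
          rw [norm_pow, Complex.norm_real, Real.norm_eq_abs, sq_abs]
        rw [h3]
        have h4 : ‖(1 : A)‖ ≤ 1 := by
          by_cases hN : Nontrivial A
          · exact (CStarRing.norm_one).le
          · rw [not_nontrivial_iff_subsingleton] at hN
            rw [Subsingleton.elim (1 : A) 0, norm_zero]; exact zero_le_one
        calc t ^ 2 * ‖(1 : A)‖ ≤ t ^ 2 * 1 := mul_le_mul_of_nonneg_left h4 (sq_nonneg _)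
          _ = t ^ 2 := mul_one _
      linarith
    have h5 : ‖f b‖ ^ 2 ≤ ‖h‖ ^ 2 + t ^ 2 :=
      (pow_le_pow_left₀ (norm_nonneg _) (hf.le b) 2).trans hnb
    rw [hfb, Complex.sq_norm, Complex.normSq_apply] at h5
    simp only [Complex.add_re, Complex.mul_re, Complex.ofReal_re, Complex.I_re, mul_zero,
      Complex.ofReal_im, Complex.I_im, mul_one, sub_self, add_zero, Complex.add_im,
      Complex.mul_im] at h5
    nlinarith [sq_nonneg (f h).re, sq_nonneg (f h).im]
  by_contra hne
  have h1 := key ((‖h‖ ^ 2 + 1) / (2 * (f h).im))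
  have h2 : 2 * ((‖h‖ ^ 2 + 1) / (2 * (f h).im)) * (f h).im = ‖h‖ ^ 2 + 1 := by
    field_simp
  rw [h2] at h1
  linarith

theorem IsState.fstar {f : A →L[ℂ] ℂ} (hf : IsState f) (a : A) : f (star a) = conj (f a) := by
  have h1 := realPart_add_I_smul_imaginaryPart a
  have h2 : star a = (realPart a : A) - Complex.I • (imaginaryPart a : A) := by
    conv_lhs => rw [← h1]
    rw [star_add, star_smul, (realPart a).2.star_eq, (imaginaryPart a).2.star_eq]
    simp [sub_eq_add_neg]
  have h3 := hf.im_eq_zero (realPart a).2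
  have h4 := hf.im_eq_zero (imaginaryPart a).2
  rw [h2]
  conv_rhs => rw [← h1]
  rw [map_sub, map_add, map_smul, map_add, smul_eq_mul, map_mul, Complex.conj_I,
    Complex.conj_eq_iff_im.mpr h3, Complex.conj_eq_iff_im.mpr h4]
  ring

theorem IsState.nonneg {f : A →L[ℂ] ℂ} (hf : IsState f) (a : A) :
    0 ≤ (f (star a * a)).re ∧ (f (star a * a)).im = 0 := by
  let _ : PartialOrder A := CStarAlgebra.spectralOrder A
  have _ : StarOrderedRing A := CStarAlgebra.spectralOrderedRing A
  have him := hf.im_eq_zero (IsSelfAdjoint.star_mul_self a)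
  refine ⟨?_, him⟩
  set b := star a * a with hb
  have hb0 : 0 ≤ b := star_mul_self_nonneg a
  set β : ℝ := ‖b‖ with hβ
  have h1 : b ≤ algebraMap ℝ A β := IsSelfAdjoint.le_algebraMap_norm_self (ha := .of_nonneg hb0)
  have h2 : 0 ≤ algebraMap ℝ A β - b := sub_nonneg.mpr h1
  have h3 : algebraMap ℝ A β - b ≤ algebraMap ℝ A β := sub_le_self _ hb0
  have h4 : ‖algebraMap ℝ A β - b‖ ≤ β := by
    refine (CStarAlgebra.norm_le_norm_of_nonneg_of_le h2 h3).trans ?_
    rw [Algebra.algebraMap_eq_smul_one, norm_smul, Real.norm_of_nonneg (norm_nonneg _)]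
    have h4 : ‖(1 : A)‖ ≤ 1 := by
      by_cases hN : Nontrivial A
      · exact (CStarRing.norm_one).le
      · rw [not_nontrivial_iff_subsingleton] at hN
        rw [Subsingleton.elim (1 : A) 0, norm_zero]; exact zero_le_one
    calc β * ‖(1 : A)‖ ≤ β * 1 := mul_le_mul_of_nonneg_left h4 (norm_nonneg _)
      _ = β := mul_one _
  have h5 : ‖f (algebraMap ℝ A β - b)‖ ≤ β := (hf.le _).trans h4
  have h6 : f (algebraMap ℝ A β - b) = (β : ℂ) - f b := by
    rw [map_sub, Algebra.algebraMap_eq_smul_one]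
    congr 1
    have : (β : ℝ) • (1 : A) = (β : ℂ) • (1 : A) := by
      rw [← Complex.coe_smul]
    rw [this, map_smul, hf.one, smul_eq_mul, mul_one]
  rw [h6] at h5
  have h7 := (Complex.abs_re_le_norm ((β : ℂ) - f b)).trans h5
  rw [Complex.sub_re, Complex.ofReal_re] at h7
  have := (abs_le.mp h7).2
  linarith

/-- If `f(D* D) = 0` then `f(b D) = 0` for all `b`. -/
theorem IsState.mul_eq_zero {f : A →L[ℂ] ℂ} (hf : IsState f) {D : A}
    (hD : (f (star D * D)).re = 0) (b : A) : f (b * D) = 0 := by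
  by_contra hne
  set z := f (b * D) with hz
  have hpos : 0 < ‖z‖ ^ 2 := by positivity
  have key : ∀ s : ℝ, 0 ≤ (f (b * star b)).re - 2 * s * ‖z‖ ^ 2 := by
    intro s
    have h1 := (hf.nonneg (star b + (-(s : ℂ) * conj z) • D)).1
    have e : star (star b + (-(s : ℂ) * conj z) • D) * (star b + (-(s : ℂ) * conj z) • D) =
        b * star b + (-(s : ℂ) * conj z) • (b * D) + (-(s : ℂ) * z) • (star (b * D)) +
          ((-(s : ℂ) * z) * (-(s : ℂ) * conj z)) • (star D * D) := by
      have e1 : star (-(s : ℂ) * conj z) = -(s : ℂ) * z := by simp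
      rw [star_add, star_star, star_smul, e1, add_mul, mul_add, mul_add, mul_smul_comm,
        smul_mul_assoc, smul_mul_assoc, mul_smul_comm, smul_smul, star_mul]
      abel
    rw [e, map_add, map_add, map_add, map_smul, map_smul, map_smul, hf.fstar, ← hz] at h1
    have hD2 := (hf.nonneg D).2
    have hD3 : f (star D * D) = 0 := Complex.ext hD hD2
    rw [hD3, smul_zero, add_zero] at h1
    have h2 : ((-(s : ℂ) * conj z) • z + (-(s : ℂ) * z) • conj z : ℂ) =
        ((-2 * s * ‖z‖ ^ 2 : ℝ) : ℂ) := by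
      have h3 : z * conj z = ((‖z‖ ^ 2 : ℝ) : ℂ) := by
        rw [Complex.mul_conj, Complex.normSq_eq_norm_sq]
      rw [smul_eq_mul, smul_eq_mul]
      push_cast at h3 ⊢
      linear_combination (-2 * (s : ℂ)) * h3
    have h4 : (f (b * star b) + (-(s : ℂ) * conj z) • z + (-(s : ℂ) * z) • conj z).re =
        (f (b * star b)).re - 2 * s * ‖z‖ ^ 2 := by
      rw [add_assoc, h2, Complex.add_re, Complex.ofReal_re]; ring
    rw [h4] at h1
    exact h1
  have h1 := key (((f (b * star b)).re + 1) / (2 * ‖z‖ ^ 2))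
  have h2 : 2 * (((f (b * star b)).re + 1) / (2 * ‖z‖ ^ 2)) * ‖z‖ ^ 2 =
      (f (b * star b)).re + 1 := by
    field_simp
  rw [h2] at h1
  linarith

/-- The multiplicative domain: a column of a unitary matrix. -/
theorem IsState.mul_of_col {n : ℕ} {f : A →L[ℂ] ℂ} (hf : IsState f) (v : Fin n → A)
    (hv : ∑ k, star (v k) * v k = 1) (hfv : ∑ k, conj (f (v k)) * f (v k) = 1) :
    ∀ k b, f (b * v k) = f b * f (v k) := by
  have h1 : ∀ k, f (star (v k - f (v k) • 1) * (v k - f (v k) • 1)) =
      f (star (v k) * v k) - conj (f (v k)) * f (v k) := by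
    intro k
    rw [star_sub, star_smul, star_one, sub_mul, mul_sub, mul_sub, mul_smul_comm, mul_one,
      smul_mul_assoc, one_mul, smul_mul_assoc, one_mul, smul_smul, map_sub, map_sub, map_sub,
      map_smul, map_smul, map_smul, hf.fstar, hf.one]
    simp only [smul_eq_mul, RCLike.star_def]
    ring
  have h2 : ∑ k, (f (star (v k - f (v k) • 1) * (v k - f (v k) • 1))).re = 0 := by
    rw [← Complex.re_sum]
    simp_rw [h1]
    rw [Finset.sum_sub_distrib, hfv, ← map_sum, hv, hf.one, sub_self, Complex.zero_re]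
  have h3 := (Finset.sum_eq_zero_iff_of_nonneg
    (fun k _ => (hf.nonneg (v k - f (v k) • 1)).1)).mp h2
  intro k b
  have h4 := hf.mul_eq_zero (h3 k (Finset.mem_univ k)) b
  rw [mul_sub, mul_smul_comm, mul_one, map_sub, map_smul, smul_eq_mul, sub_eq_zero] at h4
  rw [h4, mul_comm]

end Gen

/-- `u` is a unitary matrix over `A`. -/
structure IsUMat {A : Type*} [CStarAlgebra A] {n : ℕ} (u : Fin n → Fin n → A) : Prop where
  left : ∀ i j, ∑ k, star (u k i) * u k j = if i = j then 1 else 0
  right : ∀ i j, ∑ k, u i k * star (u j k) = if i = j then 1 else 0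

section Dom

variable {Y : Type} {n : ℕ}

/-- `H` is contained in every C*-algebra that contains the entries of `u`. -/
def Gen (H : Set (Op Y)) (u : Fin n → Fin n → Op Y) : Prop :=
  ∀ B : Set (Op Y), IsCAlg B → (∀ i j, u i j ∈ B) → H ⊆ B

theorem mul_of_unitary {H : Set (Op Y)} {u : Fin n → Fin n → Op Y} (hgen : Gen H u)
    (hu : IsUMat u) {f : Op Y →L[ℂ] ℂ} (hf : IsState f)
    (hfu : IsUMat (fun i j => f (u i j))) : ∀ a ∈ H, ∀ b, f (b * a) = f b * f a := by
  have hcol : ∀ i j b, f (b * u i j) = f b * f (u i j) := by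
    intro i j b
    refine hf.mul_of_col (fun k => u k j) ?_ ?_ i b
    · rw [hu.left, if_pos rfl]
    · have := hfu.left j j
      rw [if_pos rfl] at this
      exact this
  have hrow : ∀ i j b, f (b * star (u i j)) = f b * f (star (u i j)) := by
    intro i j b
    refine hf.mul_of_col (fun k => star (u i k)) ?_ ?_ j b
    · simp only [star_star]
      rw [hu.right, if_pos rfl]
    · simp only [hf.fstar, Complex.conj_conj]
      have := hfu.right i i
      rw [if_pos rfl] at this
      exact this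
  set W : Set (Op Y) := {a | (∀ b, f (b * a) = f b * f a) ∧
    ∀ b, f (b * star a) = f b * f (star a)} with hW
  have hWalg : IsCAlg W := by
    refine ⟨⟨?_, ?_, ?_, ?_⟩, ?_, ?_, ?_⟩
    · constructor
      · intro b; simp
      · intro b; simp
    · rintro a ⟨h1, h2⟩ a' ⟨h3, h4⟩
      constructor
      · intro b; rw [mul_add, map_add, map_add, h1, h3, mul_add]
      · intro b; rw [star_add, mul_add, map_add, map_add, h2, h4, mul_add]
    · rintro c a ⟨h1, h2⟩
      constructor
      · intro b
        rw [mul_smul_comm, map_smul, map_smul, h1, smul_eq_mul, smul_eq_mul]; ring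
      · intro b
        rw [star_smul, mul_smul_comm, map_smul, map_smul, h2, smul_eq_mul, smul_eq_mul]; ring
    · have e : W = (⋂ b, {a | f (b * a) = f b * f a}) ∩ ⋂ b, {a | f (b * star a) =
          f b * f (star a)} := by
        ext a
        simp [hW]
      unfold NormClosed
      rw [e]
      refine IsClosed.inter (isClosed_iInter fun b => ?_) (isClosed_iInter fun b => ?_)
      · exact isClosed_eq (by fun_prop) (by fun_prop)
      · exact isClosed_eq (by fun_prop) (by fun_prop)
    · constructor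
      · intro b; rw [mul_one, hf.one, mul_one]
      · intro b; rw [star_one, mul_one, hf.one, mul_one]
    · rintro a ⟨h1, h2⟩ a' ⟨h3, h4⟩
      constructor
      · intro b; rw [← mul_assoc, h3, h1, h3 a, mul_assoc]
      · intro b; rw [star_mul, ← mul_assoc, h2, h4, h2 (star a'), mul_assoc]
    · rintro a ⟨h1, h2⟩
      refine ⟨h2, ?_⟩
      rw [star_star]
      exact h1
  have h1 := hgen W hWalg fun i j => ⟨hcol i j, hrow i j⟩
  intro a ha
  exact (h1 ha).1

end Dom

section Mult

variable {X Y : Type} [DecidableEq X] [DecidableEq Y]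

theorem csub_ker {Z : Type} (F : Op X → Op Z) (hadd : ∀ a b, F (a + b) = F a + F b)
    (hsmul : ∀ (c : ℂ) a, F (c • a) = c • F a) (hcont : Continuous F) : CSub {a | F a = 0} where
  zero := by
    have : F 0 = 0 := by simpa using hsmul 0 0
    exact this
  add := fun a ha b hb => by
    rw [Set.mem_ofPred_eq] at *
    rw [hadd, ha, hb, add_zero]
  smul := fun c a ha => by
    rw [Set.mem_ofPred_eq] at *
    rw [hsmul, ha, smul_zero]
  closed := isClosed_eq hcont continuous_const

/-- A linear map multiplicative on elementary tensors is multiplicative. -/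
theorem mul_of_tensors {Z : Type} {A : Set (Op X)} {H : Set (Op Y)} (F : Op (X × Y) →L[ℂ] Op Z)
    (h : ∀ a ∈ A, ∀ b ∈ H, ∀ a' ∈ A, ∀ b' ∈ H,
      F (tn a b * tn a' b') = F (tn a b) * F (tn a' b')) :
    ∀ S ∈ tens A H, ∀ T ∈ tens A H, F (S * T) = F S * F T := by
  have h1 : ∀ a ∈ A, ∀ b ∈ H, ∀ T ∈ tens A H, F (tn a b * T) = F (tn a b) * F T := by
    intro a ha b hb
    have hle : tens A H ⊆ {T | F (tn a b * T) - F (tn a b) * F T = 0} := by
      refine tens_le (csub_ker _ ?_ ?_ (by fun_prop)) ?_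
      · intro S T
        rw [mul_add, map_add, map_add, mul_add]; abel
      · intro c T
        rw [mul_smul_comm, map_smul, map_smul, mul_smul_comm, smul_sub]
      · intro a' ha' b' hb'
        exact sub_eq_zero.mpr (h a ha b hb a' ha' b' hb')
    exact fun T hT => sub_eq_zero.mp (hle hT)
  intro S hS T hT
  have hle : tens A H ⊆ {S | F (S * T) - F S * F T = 0} := by
    refine tens_le (csub_ker _ ?_ ?_ (by fun_prop)) ?_
    · intro S T
      rw [add_mul, map_add, map_add, add_mul]; abel
    · intro c S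
      rw [smul_mul_assoc, map_smul, map_smul, smul_mul_assoc, smul_sub]
    · intro a ha b hb
      exact sub_eq_zero.mpr (h1 a ha b hb T hT)
  exact sub_eq_zero.mp (hle hS)

/-- A linear map that preserves adjoints of elementary tensors preserves adjoints. -/
theorem star_of_tensors {Z : Type} {A : Set (Op X)} {H : Set (Op Y)} (F : Op (X × Y) →L[ℂ] Op Z)
    (h : ∀ a ∈ A, ∀ b ∈ H, F (star (tn a b)) = star (F (tn a b))) :
    ∀ T ∈ tens A H, F (star T) = star (F T) := by
  have hle : tens A H ⊆ {T | F (star T) = star (F T)} := by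
    refine tens_le ⟨?_, ?_, ?_, ?_⟩ h
    · rw [Set.mem_ofPred_eq, star_zero, map_zero, star_zero]
    · intro S hS T hT
      rw [Set.mem_ofPred_eq] at *
      rw [star_add, map_add, hS, hT, map_add, star_add]
    · intro c T hT
      rw [Set.mem_ofPred_eq] at *
      rw [star_smul, map_smul, hT, map_smul, star_smul]
    · exact isClosed_eq (by fun_prop) (by fun_prop)
  exact fun T hT => hle hT

theorem srf_mul {A : Set (Op X)} {H : Set (Op Y)} {g : Op Y →L[ℂ] ℂ}
    (hg : ∀ a ∈ H, ∀ b, g (b * a) = g b * g a) :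
    ∀ S ∈ tens A H, ∀ T ∈ tens A H, srf g (S * T) = srf g S * (srf g T : Op X) := by
  refine mul_of_tensors (srf g) ?_
  intro a _ b _ a' _ b' hb'
  rw [tn_mul, srf_tn, srf_tn, srf_tn, hg b' hb', smul_mul_smul_comm]

theorem srf_star {A : Set (Op X)} {H : Set (Op Y)} {g : Op Y →L[ℂ] ℂ} (hg : IsState g) :
    ∀ T ∈ tens A H, srf g (star T) = star (srf g T : Op X) := by
  refine star_of_tensors (srf g) ?_
  intro a _ b _
  rw [tn_star, srf_tn, srf_tn, hg.fstar, star_smul]
  rfl

theorem slf_mul {A : Set (Op X)} {H : Set (Op Y)} {f : Op X →L[ℂ] ℂ}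
    (hf : ∀ a ∈ A, ∀ b, f (b * a) = f b * f a) :
    ∀ S ∈ tens A H, ∀ T ∈ tens A H, slf f (S * T) = slf f S * (slf f T : Op Y) := by
  refine mul_of_tensors (slf f) ?_
  intro a _ b _ a' ha' b' _
  rw [tn_mul, slf_tn, slf_tn, slf_tn, hf a' ha', smul_mul_smul_comm]

theorem slf_star {A : Set (Op X)} {H : Set (Op Y)} {f : Op X →L[ℂ] ℂ} (hf : IsState f) :
    ∀ T ∈ tens A H, slf f (star T) = star (slf f T : Op Y) := by
  refine star_of_tensors (slf f) ?_
  intro a _ b _
  rw [tn_star, slf_tn, slf_tn, hf.fstar, star_smul]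
  rfl

theorem srf_one {g : Op Y →L[ℂ] ℂ} (hg : IsState g) : srf g (1 : Op (X × Y)) = 1 := by
  rw [← tn_one, srf_tn, hg.one, one_smul]

theorem slf_one {f : Op X →L[ℂ] ℂ} (hf : IsState f) : slf f (1 : Op (X × Y)) = 1 := by
  rw [← tn_one, slf_tn, hf.one, one_smul]

end Mult

end Pool.Agent.N16.States
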