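import Pool.Agent.N16.Num

/-!
Vector states that see a small unitary matrix.
-/

set_option autoImplicit false
set_option linter.unusedSectionVars false

open scoped InnerProductSpace ComplexConjugate Matrix.Norms.Operator
open H584BuDefs
open Pool.Agent.N16.Slice Pool.Agent.N16.States Pool.Agent.N16.Top Pool.Agent.N16.Mats
open Pool.Agent.N16.Num

noncomputable section

namespace Pool.Agent.N16.Vec

section Hilb

variable {E : Type*} [NormedAddCommGroup E] [InnerProductSpace ℂ E] [CompleteSpace E]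

/-- The numerical radius bounds the norm. -/
theorem norm_le_of_num (a : E →L[ℂ] E) {w : ℝ} (hw : 0 ≤ w)
    (h : ∀ ξ : E, ‖⟪a ξ, ξ⟫_ℂ‖ ≤ w * ‖ξ‖ ^ 2) : ‖a‖ ≤ 2 * w := by
  refine ContinuousLinearMap.opNorm_le_bound _ (by positivity) fun y => ?_
  have key : ∀ x : E, ‖⟪a y, x⟫_ℂ‖ ≤ w * (‖x‖ ^ 2 + ‖y‖ ^ 2) := by
    intro x
    have h1 := inner_map_polarization (a : E →ₗ[ℂ] E) x y
    simp only [ContinuousLinearMap.coe_coe] at h1
    rw [h1]
    have p1 := parallelogram_law_with_norm ℂ x y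
    have p2 := parallelogram_law_with_norm ℂ x (Complex.I • y)
    have hI : ‖Complex.I • y‖ = ‖y‖ := by rw [norm_smul, Complex.norm_I, one_mul]
    rw [hI] at p2
    have n1 := h (x + y)
    have n2 := h (x - y)
    have n3 := h (x + Complex.I • y)
    have n4 := h (x - Complex.I • y)
    rw [norm_div]
    have h4 : ‖(4 : ℂ)‖ = 4 := by norm_num
    rw [h4, div_le_iff₀ (by norm_num)]
    have t1 : ‖⟪a (x + y), x + y⟫_ℂ - ⟪a (x - y), x - y⟫_ℂ +
        Complex.I * ⟪a (x + Complex.I • y), x + Complex.I • y⟫_ℂ -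
        Complex.I * ⟪a (x - Complex.I • y), x - Complex.I • y⟫_ℂ‖ ≤
        ‖⟪a (x + y), x + y⟫_ℂ‖ + ‖⟪a (x - y), x - y⟫_ℂ‖ +
        ‖⟪a (x + Complex.I • y), x + Complex.I • y⟫_ℂ‖ +
        ‖⟪a (x - Complex.I • y), x - Complex.I • y⟫_ℂ‖ := by
      refine (norm_sub_le _ _).trans ?_
      refine add_le_add ((norm_add_le _ _).trans (add_le_add (norm_sub_le _ _) ?_)) ?_
      · rw [norm_mul, Complex.norm_I, one_mul]
      · rw [norm_mul, Complex.norm_I, one_mul]
    refine t1.trans ?_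
    have e1 : ‖x + y‖ ^ 2 + ‖x - y‖ ^ 2 + ‖x + Complex.I • y‖ ^ 2 + ‖x - Complex.I • y‖ ^ 2 =
        4 * (‖x‖ ^ 2 + ‖y‖ ^ 2) := by
      simp only [pow_two]
      linarith
    calc _ ≤ w * ‖x + y‖ ^ 2 + w * ‖x - y‖ ^ 2 + w * ‖x + Complex.I • y‖ ^ 2 +
          w * ‖x - Complex.I • y‖ ^ 2 := by linarith
      _ = w * (‖x + y‖ ^ 2 + ‖x - y‖ ^ 2 + ‖x + Complex.I • y‖ ^ 2 +
          ‖x - Complex.I • y‖ ^ 2) := by ring
      _ = w * (‖x‖ ^ 2 + ‖y‖ ^ 2) * 4 := by rw [e1]; ring
  by_cases h0 : ‖a y‖ = 0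
  · rw [h0]; positivity
  have hpos : 0 < ‖a y‖ := lt_of_le_of_ne (norm_nonneg _) (Ne.symm h0)
  have hy : 0 < ‖y‖ := by
    by_contra hcon
    have : ‖y‖ = 0 := le_antisymm (not_lt.mp hcon) (norm_nonneg _)
    rw [norm_eq_zero.mp this, map_zero, norm_zero] at hpos
    exact lt_irrefl _ hpos
  have h1 := key (((‖y‖ / ‖a y‖ : ℝ) : ℂ) • a y)
  have h2 : ‖((‖y‖ / ‖a y‖ : ℝ) : ℂ) • a y‖ = ‖y‖ := by
    rw [norm_smul, Complex.norm_real, Real.norm_of_nonneg (by positivity)]
    field_simp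
  have h3 : ‖⟪a y, ((‖y‖ / ‖a y‖ : ℝ) : ℂ) • a y⟫_ℂ‖ = ‖y‖ * ‖a y‖ := by
    rw [inner_smul_right, norm_mul, Complex.norm_real, Real.norm_of_nonneg (by positivity),
      inner_self_eq_norm_sq_to_K]
    norm_cast
    rw [abs_of_nonneg (by positivity)]
    field_simp
  rw [h2, h3] at h1
  have h4 : ‖y‖ * ‖a y‖ ≤ ‖y‖ * (2 * w * ‖y‖) := by
    calc ‖y‖ * ‖a y‖ ≤ w * (‖y‖ ^ 2 + ‖y‖ ^ 2) := h1
      _ = ‖y‖ * (2 * w * ‖y‖) := by ring
  exact le_of_mul_le_mul_left h4 hy

/-- Vector states. -/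
def vst (ξ : E) : (E →L[ℂ] E) →L[ℂ] ℂ :=
  (innerSL ℂ ξ).comp (ContinuousLinearMap.apply ℂ E ξ)

theorem vst_apply (ξ : E) (a : E →L[ℂ] E) : vst ξ a = ⟪ξ, a ξ⟫_ℂ := rfl

theorem vst_state {ξ : E} (hξ : ‖ξ‖ = 1) : IsState (vst ξ) := by
  constructor
  · refine ContinuousLinearMap.opNorm_le_bound _ zero_le_one fun a => ?_
    rw [vst_apply, one_mul]
    refine (norm_inner_le_norm _ _).trans ?_
    rw [hξ, one_mul]
    have := a.le_opNorm ξ
    rwa [hξ, mul_one] at this
  · rw [vst_apply, ContinuousLinearMap.one_apply, inner_self_eq_norm_sq_to_K, hξ]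
    simp

theorem exists_vst (a : E →L[ℂ] E) (ha : a ≠ 0) :
    ∃ f : (E →L[ℂ] E) →L[ℂ] ℂ, IsState f ∧ ‖a‖ / 3 ≤ ‖f a‖ := by
  by_contra hcon
  push Not at hcon
  have hpos : 0 < ‖a‖ := norm_pos_iff.mpr ha
  have h1 : ∀ ξ : E, ‖⟪a ξ, ξ⟫_ℂ‖ ≤ (‖a‖ / 3) * ‖ξ‖ ^ 2 := by
    intro ξ
    by_cases h0 : ξ = 0
    · subst h0; simp
    have hn : 0 < ‖ξ‖ := norm_pos_iff.mpr h0
    set η : E := ((‖ξ‖⁻¹ : ℝ) : ℂ) • ξ with hη
    have hη1 : ‖η‖ = 1 := by
      rw [hη, norm_smul, Complex.norm_real, Real.norm_of_nonneg (by positivity)]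
      field_simp
    have h2 := hcon (vst η) (vst_state hη1)
    have h3 : ‖vst η a‖ = ‖ξ‖⁻¹ ^ 2 * ‖⟪a ξ, ξ⟫_ℂ‖ := by
      rw [vst_apply, hη, map_smul, inner_smul_left, inner_smul_right, ← inner_conj_symm,
        norm_mul, norm_mul, RCLike.norm_conj, RCLike.norm_conj, Complex.norm_real,
        Real.norm_of_nonneg (by positivity)]
      ring
    rw [h3] at h2
    have h4 : ‖⟪a ξ, ξ⟫_ℂ‖ = ‖ξ‖ ^ 2 * (‖ξ‖⁻¹ ^ 2 * ‖⟪a ξ, ξ⟫_ℂ‖) := by
      field_simp
    rw [h4, mul_comm (‖a‖ / 3)]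
    exact mul_le_mul_of_nonneg_left h2.le (by positivity)
  have h2 := norm_le_of_num a (by positivity) h1
  linarith

end Hilb

section Mat

variable {n : ℕ}

theorem norm_le_sum (N : Matrix (Fin n) (Fin n) ℂ) : ‖N‖ ≤ ∑ i, ∑ j, ‖N i j‖ := by
  rw [Matrix.linfty_opNorm_def]
  have h1 : ((Finset.univ : Finset (Fin n)).sup fun i => ∑ j, ‖N i j‖₊) ≤
      ∑ i, ∑ j, ‖N i j‖₊ := by
    refine Finset.sup_le fun i _ => ?_
    exact Finset.single_le_sum (f := fun i => ∑ j, ‖N i j‖₊) (fun _ _ => zero_le)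
      (Finset.mem_univ i)
  have h2 : (((Finset.univ : Finset (Fin n)).sup fun i => ∑ j, ‖N i j‖₊ : NNReal) : ℝ) ≤
      ((∑ i, ∑ j, ‖N i j‖₊ : NNReal) : ℝ) := by exact_mod_cast h1
  refine h2.trans (le_of_eq ?_)
  push_cast
  rfl

theorem entry_le (N : Matrix (Fin n) (Fin n) ℂ) (i j : Fin n) : ‖N i j‖ ≤ ‖N‖ := by
  rw [Matrix.linfty_opNorm_def]
  have h1 : ‖N i j‖₊ ≤ (Finset.univ : Finset (Fin n)).sup fun i => ∑ j, ‖N i j‖₊ := by
    refine le_trans ?_ (Finset.le_sup (f := fun i => ∑ j, ‖N i j‖₊) (Finset.mem_univ i))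
    exact Finset.single_le_sum (f := fun j => ‖N i j‖₊) (fun _ _ => zero_le)
      (Finset.mem_univ j)
  exact_mod_cast h1

/-- The matrix of a state. -/
def smat {A : Type*} [CStarAlgebra A] (f : A →L[ℂ] ℂ) (V : Fin n → Fin n → A) :
    Matrix (Fin n) (Fin n) ℂ := Matrix.of fun i j => f (V i j)

/-- The distance to the identity matrix. -/
def dd {A : Type*} [CStarAlgebra A] (V : Fin n → Fin n → A) : ℝ :=
  ∑ i, ∑ j, ‖V i j - if i = j then 1 else 0‖

theorem small_mat {E : Type*} [NormedAddCommGroup E] [InnerProductSpace ℂ E] [CompleteSpace E]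
    (V : Fin n → Fin n → (E →L[ℂ] E)) (hV : IsUMat V) (hpos : 0 < dd V) :
    ∃ f : (E →L[ℂ] E) →L[ℂ] ℂ, IsState f ∧ ‖smat f V - 1‖ ≤ dd V ∧
      ‖star (smat f V) - 1‖ ≤ dd V ∧ ‖smat f V * star (smat f V) - 1‖ ≤ 2 * dd V ^ 2 ∧
      (1 / (3 * (n : ℝ) ^ 2)) * dd V ≤ ‖smat f V - 1‖ := by
  set D : Fin n → Fin n → (E →L[ℂ] E) := fun i j => V i j - if i = j then 1 else 0 with hD
  set c : ℝ := dd V with hc
  have hcD : c = ∑ i, ∑ j, ‖D i j‖ := rfl
  -- a large entry
  obtain ⟨i0, j0, hij⟩ : ∃ i j, c / (n : ℝ) ^ 2 ≤ ‖D i j‖ := by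
    by_contra hcon
    push Not at hcon
    have h1 : ∀ i : Fin n, ∑ j, ‖D i j‖ ≤ ∑ _j : Fin n, c / (n : ℝ) ^ 2 := fun i =>
      Finset.sum_le_sum fun j _ => (hcon i j).le
    have hn : 0 < n := by
      by_contra h0
      have : n = 0 := by omega
      subst this
      rw [hcD] at hpos
      simp at hpos
    have hn' : (0 : ℝ) < n := by exact_mod_cast hn
    have i0 : Fin n := ⟨0, hn⟩
    have h2 : ∑ i : Fin n, ∑ j, ‖D i j‖ < ∑ _i : Fin n, ∑ _j : Fin n, c / (n : ℝ) ^ 2 := by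
      refine Finset.sum_lt_sum_of_nonempty ⟨i0, Finset.mem_univ _⟩ fun i _ => ?_
      exact Finset.sum_lt_sum_of_nonempty ⟨i0, Finset.mem_univ _⟩ fun j _ => hcon i j
    rw [← hcD] at h2
    simp only [Finset.sum_const, Finset.card_univ, Fintype.card_fin, nsmul_eq_mul] at h2
    have h3 : (n : ℝ) * ((n : ℝ) * (c / (n : ℝ) ^ 2)) = c := by
      field_simp
    rw [h3] at h2
    exact lt_irrefl _ h2
  have hn : 0 < n := lt_of_le_of_lt (Nat.zero_le _) i0.2
  have hn' : (0 : ℝ) < n := by exact_mod_cast hn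
  have hDne : D i0 j0 ≠ 0 := by
    intro h0
    rw [h0, norm_zero] at hij
    have : 0 < c / (n : ℝ) ^ 2 := by positivity
    linarith
  obtain ⟨f, hf, hfD⟩ := exists_vst (D i0 j0) hDne
  have hone : ∀ i j : Fin n, f (if i = j then 1 else 0) = (1 : Matrix (Fin n) (Fin n) ℂ) i j := by
    intro i j
    rw [Matrix.one_apply]
    split_ifs
    · exact hf.one
    · exact map_zero f
  have hMD : ∀ i j, (smat f V - 1) i j = f (D i j) := by
    intro i j
    rw [Matrix.sub_apply, ← hone, smat, Matrix.of_apply, ← map_sub]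
  have hle : ∀ i j, ‖f (D i j)‖ ≤ ‖D i j‖ := fun i j => hf.le _
  refine ⟨f, hf, ?_, ?_, ?_, ?_⟩
  · refine (norm_le_sum _).trans ?_
    rw [hcD]
    refine Finset.sum_le_sum fun i _ => Finset.sum_le_sum fun j _ => ?_
    rw [hMD]; exact hle i j
  · have e : star (smat f V) - 1 = star (smat f V - 1) := by rw [star_sub, star_one]
    rw [e]
    refine (norm_le_sum _).trans ?_
    rw [hcD, Finset.sum_comm]
    refine Finset.sum_le_sum fun i _ => Finset.sum_le_sum fun j _ => ?_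
    rw [Matrix.star_apply, norm_star, hMD]; exact hle i j
  · -- nearly unitary
    have hent : ∀ i j, (smat f V * star (smat f V) - 1) i j =
        ∑ k, (f (D i k) * conj (f (D j k)) - f (D i k * star (D j k))) := by
      intro i j
      have h1 := congrArg f (hV.right i j)
      rw [map_sum, hone] at h1
      have h2 : ∀ k, f (V i k * star (V j k)) = (smat f V) i k * conj ((smat f V) j k) -
          (f (D i k) * conj (f (D j k)) - f (D i k * star (D j k))) := by
        intro k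
        have e1 : V i k = D i k + if i = k then 1 else 0 := by simp [hD]
        have e2 : V j k = D j k + if j = k then 1 else 0 := by simp [hD]
        have e3 : (smat f V) i k = f (D i k) + if i = k then 1 else 0 := by
          rw [smat, Matrix.of_apply]
          conv_lhs => rw [e1]
          rw [map_add, hone, Matrix.one_apply]
        have e4 : (smat f V) j k = f (D j k) + if j = k then 1 else 0 := by
          rw [smat, Matrix.of_apply]
          conv_lhs => rw [e2]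
          rw [map_add, hone, Matrix.one_apply]
        rw [e3, e4, e1, e2, star_add]
        by_cases hik : i = k
        · by_cases hjk : j = k
          · simp only [hik, hjk, if_true, star_one, mul_add, add_mul, one_mul, mul_one, map_add,
              hf.one, hf.fstar, map_one]
            ring
          · simp only [hik, hjk, if_true, if_false, star_zero, add_mul, one_mul,
              add_zero, map_add, hf.fstar]
            ring
        · by_cases hjk : j = k
          · simp only [hik, hjk, if_true, if_false, star_one, mul_add, mul_one,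
              add_zero, map_add, map_one]
            ring
          · simp only [hik, hjk, if_false, star_zero, add_zero]
            ring
      rw [Finset.sum_congr rfl fun k _ => h2 k, Finset.sum_sub_distrib] at h1
      rw [Matrix.sub_apply, Matrix.mul_apply]
      have h3 : ∑ k, (smat f V) i k * (star (smat f V)) k j =
          ∑ k, (smat f V) i k * conj ((smat f V) j k) := by
        refine Finset.sum_congr rfl fun k _ => ?_
        rw [Matrix.star_apply]; rfl
      rw [h3]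
      linear_combination h1
    refine (norm_le_sum _).trans ?_
    have hb : ∀ i j, ‖(smat f V * star (smat f V) - 1) i j‖ ≤
        ∑ k, 2 * (‖D i k‖ * ‖D j k‖) := by
      intro i j
      rw [hent]
      refine (norm_sum_le _ _).trans (Finset.sum_le_sum fun k _ => ?_)
      refine (norm_sub_le _ _).trans ?_
      have h1 : ‖f (D i k) * conj (f (D j k))‖ ≤ ‖D i k‖ * ‖D j k‖ := by
        rw [norm_mul, RCLike.norm_conj]
        exact mul_le_mul (hle _ _) (hle _ _) (norm_nonneg _) (norm_nonneg _)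
      have h2 : ‖f (D i k * star (D j k))‖ ≤ ‖D i k‖ * ‖D j k‖ := by
        refine (hf.le _).trans ((norm_mul_le _ _).trans ?_)
        rw [norm_star]
      linarith
    calc ∑ i, ∑ j, ‖(smat f V * star (smat f V) - 1) i j‖
        ≤ ∑ i, ∑ j, ∑ k, 2 * (‖D i k‖ * ‖D j k‖) :=
          Finset.sum_le_sum fun i _ => Finset.sum_le_sum fun j _ => hb i j
      _ = 2 * ∑ i, ∑ k, ‖D i k‖ * ∑ j, ‖D j k‖ := by
          rw [Finset.mul_sum]
          refine Finset.sum_congr rfl fun i _ => ?_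
          rw [Finset.sum_comm, Finset.mul_sum]
          refine Finset.sum_congr rfl fun k _ => ?_
          rw [Finset.mul_sum, Finset.mul_sum]
      _ ≤ 2 * ∑ i, ∑ k, ‖D i k‖ * c := by
          refine mul_le_mul_of_nonneg_left ?_ (by norm_num)
          refine Finset.sum_le_sum fun i _ => Finset.sum_le_sum fun k _ => ?_
          refine mul_le_mul_of_nonneg_left ?_ (norm_nonneg _)
          rw [hcD]
          refine Finset.sum_le_sum fun j _ => ?_
          exact Finset.single_le_sum (f := fun k => ‖D j k‖) (fun _ _ => norm_nonneg _)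
            (Finset.mem_univ k)
      _ = 2 * c ^ 2 := by
          simp_rw [← Finset.sum_mul]
          rw [← hcD]; ring
  · have h1 := entry_le (smat f V - 1) i0 j0
    rw [hMD] at h1
    refine le_trans ?_ h1
    refine le_trans ?_ hfD
    have h2 : 1 / (3 * (n : ℝ) ^ 2) * c = (c / (n : ℝ) ^ 2) / 3 := by
      field_simp
    rw [h2]
    linarith

end Mat

end Pool.Agent.N16.Vec
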